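import Pool.Agent.Y183.PP.H
import Pool.Agent.Y183.LS.K
set_option autoImplicit false

/-! Pairs of coordinates: products of polynomial phases, the sup bound of a product piece. -/

namespace Pool.Agent.Y183.PQ

open MeasureTheory Set Filter Topology Complex
open scoped ENNReal NNReal
open Pool.Agent.Y183.PP
open Pool.Agent.W771.MD (qe em)
open Pool.Agent.Y183.LS (BA)

variable {m J : ℕ}

/-- the coordinates grouped in pairs -/
def Pr (e : Fin J ⊕ Fin J ≃ Fin m) (v : Fin m → ℝ) : Fin J → ℝ × ℝ :=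
  fun j => (v (e (Sum.inl j)), v (e (Sum.inr j)))

lemma Pr_mp (e : Fin J ⊕ Fin J ≃ Fin m) : MeasurePreserving (Pr e) := by
  have h1 := (volume_measurePreserving_piCongrLeft (fun _ : Fin m => ℝ) e).symm
  have h3 := volume_measurePreserving_sumPiEquivProdPi (fun _ : Fin J ⊕ Fin J => ℝ)
  have h4 := (volume_measurePreserving_arrowProdEquivProdArrow ℝ ℝ (Fin J)).symm
  have h5 := (h4.comp h3).comp h1
  exact h5

lemma int_Pr (e : Fin J ⊕ Fin J ≃ Fin m) (F : Fin J → ℝ × ℝ → ℂ)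
    (hF : ∀ j, StronglyMeasurable (F j)) :
    ∫ v : Fin m → ℝ, ∏ j, F j (Pr e v j) = ∏ j, ∫ z, F j z := by
  have h3 := (Pr_mp e).map_eq
  have h4 : StronglyMeasurable fun w : Fin J → ℝ × ℝ => ∏ j, F j (w j) := by
    apply Finset.stronglyMeasurable_fun_prod
    intro j _
    exact (hF j).comp_measurable (measurable_pi_apply j)
  have h5 : ∫ v : Fin m → ℝ, ∏ j, F j (Pr e v j) = ∫ w : Fin J → ℝ × ℝ, ∏ j, F j (w j) := by
    rw [← h3, integral_map (Pr_mp e).measurable.aemeasurable h4.aestronglyMeasurable]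
  rw [h5, volume_pi, integral_fintype_prod_eq_prod]

/-- the twist -/
noncomputable def tw (e : Fin J ⊕ Fin J ≃ Fin m) (φ : Fin J → Poly) (v : Fin m → ℝ) : ℂ :=
  ∏ j, ex (φ j) (Pr e v j)

lemma tw_cont (e : Fin J ⊕ Fin J ≃ Fin m) (φ : Fin J → Poly) : Continuous (tw e φ) := by
  apply continuous_finsetProd
  intro j _
  apply (ex_cont _).comp
  unfold Pr
  fun_prop

lemma tw_norm (e : Fin J ⊕ Fin J ≃ Fin m) (φ : Fin J → Poly) (v : Fin m → ℝ) : ‖tw e φ v‖ = 1 := by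
  unfold tw
  rw [norm_prod]
  apply Finset.prod_eq_one
  intro j _
  exact ex_norm _ _

lemma ex_Ph0 (φ : Poly) (y : ℝ × ℝ) (t : ℝ) (z : ℝ × ℝ) :
    ex (Ph φ y t) z = ex φ z * (qe y.1 t z.1 * qe y.2 t z.2) := by
  unfold ex qe
  rw [← Complex.exp_add, ← Complex.exp_add]
  congr 1
  rw [ev_Ph]
  push_cast
  ring

lemma tw_em (e : Fin J ⊕ Fin J ≃ Fin m) (φ : Fin J → Poly) (y : Fin m → ℝ) (t : ℝ)
    (v : Fin m → ℝ) : tw e φ v * em y t v = ∏ j, ex (Ph (φ j) (Pr e y j) t) (Pr e v j) := by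
  have h1 : em y t v = ∏ j, (qe (Pr e y j).1 t (Pr e v j).1 * qe (Pr e y j).2 t (Pr e v j).2) := by
    unfold Pool.Agent.W771.MD.em
    rw [← e.prod_comp, Fintype.prod_sum_type, ← Finset.prod_mul_distrib]
    rfl
  rw [h1]
  unfold tw
  rw [← Finset.prod_mul_distrib]
  apply Finset.prod_congr rfl
  intro j _
  rw [ex_Ph0]

/-- the product piece -/
def Qs (e : Fin J ⊕ Fin J ≃ Fin m) (φ : Fin J → Poly) (t : ℝ) (i : Fin J → ℕ) :
    Set (Fin m → ℝ) := {v | ∀ j, Pr e v j ∈ SQ ∩ AA (φ j) t (i j)}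

lemma Pr_meas (e : Fin J ⊕ Fin J ≃ Fin m) (j : Fin J) : Measurable fun v => Pr e v j :=
  (measurable_pi_apply j).comp (Pr_mp e).measurable

lemma Qs_meas (e : Fin J ⊕ Fin J ≃ Fin m) (φ : Fin J → Poly) (t : ℝ) (i : Fin J → ℕ) :
    MeasurableSet (Qs e φ t i) := by
  have : Qs e φ t i = ⋂ j, (fun v => Pr e v j) ⁻¹' (SQ ∩ AA (φ j) t (i j)) := by
    ext v; simp [Qs]
  rw [this]
  exact MeasurableSet.iInter fun j => Pr_meas e j (SQ_meas.inter (AA_meas _ _ _))

lemma mem_SQ (e : Fin J ⊕ Fin J ≃ Fin m) (v : Fin m → ℝ) :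
    v ∈ BA 1 m ↔ ∀ j, Pr e v j ∈ SQ := by
  constructor
  · intro h j
    exact ⟨⟨h.1 _, h.2 _⟩, ⟨h.1 _, h.2 _⟩⟩
  · intro h
    have h3 : ∀ k, -1 ≤ v k ∧ v k ≤ 1 := by
      intro k
      obtain ⟨k', rfl⟩ := e.surjective k
      rcases k' with j | j
      · exact ⟨(h j).1.1, (h j).1.2⟩
      · exact ⟨(h j).2.1, (h j).2.2⟩
    exact ⟨fun k => (h3 k).1, fun k => (h3 k).2⟩

lemma Qs_sub (e : Fin J ⊕ Fin J ≃ Fin m) (φ : Fin J → Poly) (t : ℝ) (i : Fin J → ℕ) :
    Qs e φ t i ⊆ BA 1 m := fun v hv => (mem_SQ e v).2 fun j => (hv j).1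

/-- the sup bound of one block -/
lemma sup_one {D : ℕ} {φ : Poly} (hφ : φ.totalDegree ≤ D) (y : ℝ × ℝ) (t : ℝ) (k : ℕ) :
    ‖∫ z, (SQ ∩ AA φ t k).indicator (fun z => ex (Ph φ y t) z) z‖ ≤ SS D 1 k := by
  have e0 : ∫ z, (SQ ∩ AA φ t k).indicator (fun z => ex (Ph φ y t) z) z =
      ∫ z in SQ, (AA φ t k).indicator (fun z => ex (Ph φ y t) z) z := by
    rw [← integral_indicator SQ_meas, indicator_indicator]
  rw [e0]
  cases k with
  | zero =>
    have hb : ∀ z, ‖(AA φ t 0).indicator (fun z => ex (Ph φ y t) z) z‖ ≤ 1 := by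
      intro z
      by_cases h : z ∈ AA φ t 0
      · rw [indicator_of_mem h, ex_norm]
      · rw [indicator_of_notMem h, norm_zero]
        exact zero_le_one
    have hfin : IsFiniteMeasure ((volume : Measure (ℝ × ℝ)).restrict SQ) := ⟨by
      rw [Measure.restrict_apply_univ, SQ_vol]
      norm_num⟩
    have h1 : ‖∫ z in SQ, (AA φ t 0).indicator (fun z => ex (Ph φ y t) z) z‖ ≤
        1 * (volume.restrict SQ).real univ :=
      norm_integral_le_of_norm_le_const (ae_of_all _ hb)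
    refine h1.trans (le_of_eq ?_)
    rw [Measure.real, Measure.restrict_apply_univ, SQ_vol]
    simp [SS]
  | succ j =>
    have h1 := supb (deg_Ph hφ y t) j (2 ^ (j + 1)) (fun _ => 1) measurable_const 1 zero_le_one
      (fun _ => by simp) (fun y => by simp [eVariationOn.constant_on]) (fun x => by
        simp [eVariationOn.constant_on])
    rw [Reg_Ph] at h1
    simp only [one_mul] at h1
    rw [← ofReal_norm] at h1
    have h2 := c2_nonneg (D + 2)
    exact (ENNReal.ofReal_le_ofReal_iff (by simp only [SS]; positivity)).mp h1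

/-- **the sup bound of a product piece** -/
lemma sup1 {D : ℕ} (e : Fin J ⊕ Fin J ≃ Fin m) {φ : Fin J → Poly}
    (hφ : ∀ j, (φ j).totalDegree ≤ D) (y : Fin m → ℝ) (t : ℝ) (i : Fin J → ℕ) :
    ‖∫ v in Qs e φ t i, tw e φ v * em y t v‖ ≤ ∏ j, SS D 1 (i j) := by
  have h1 : ∀ v : Fin m → ℝ, (Qs e φ t i).indicator (fun v => tw e φ v * em y t v) v =
      ∏ j, (SQ ∩ AA (φ j) t (i j)).indicator (fun z => ex (Ph (φ j) (Pr e y j) t) z) (Pr e v j) := by
    intro v
    by_cases h : v ∈ Qs e φ t i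
    · rw [indicator_of_mem h, tw_em]
      apply Finset.prod_congr rfl
      intro j _
      rw [indicator_of_mem (h j)]
    · rw [indicator_of_notMem h]
      have h2 : ∃ j, Pr e v j ∉ SQ ∩ AA (φ j) t (i j) := by
        by_contra hc
        push Not at hc
        exact h hc
      obtain ⟨j, hj⟩ := h2
      rw [Finset.prod_eq_zero (Finset.mem_univ j)]
      rw [indicator_of_notMem hj]
  rw [← integral_indicator (Qs_meas e φ t i)]
  simp only [h1]
  rw [int_Pr e (fun j => (SQ ∩ AA (φ j) t (i j)).indicator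
    (fun z => ex (Ph (φ j) (Pr e y j) t) z)), norm_prod]
  · apply Finset.prod_le_prod (fun _ _ => norm_nonneg _)
    intro j _
    exact sup_one (hφ j) _ t _
  · intro j
    exact ((ex_cont _).measurable.indicator (SQ_meas.inter (AA_meas _ _ _))).stronglyMeasurable

end Pool.Agent.Y183.PQ
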