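import Pool.Agent.Y183.PQ.A
set_option autoImplicit false

/-! Averages over small cubes. -/

namespace Pool.Agent.Y183.PQ

open MeasureTheory Set Filter Topology Complex
open scoped ENNReal NNReal
open Pool.Agent.Y183.PP
open Pool.Agent.W771.MD (qe em)
open Pool.Agent.Y183.LS (BA)

variable {m J : ℕ}

/-- the unit cube -/
abbrev UC (m : ℕ) : Set (Fin m → ℝ) := Icc (fun _ => 0) (fun _ => 1)

/-- the uniform measure of the unit cube -/
noncomputable abbrev U (m : ℕ) : Measure (Fin m → ℝ) := volume.restrict (UC m)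

lemma UC_vol : volume (UC m) = 1 := by
  rw [Real.volume_Icc_pi]
  simp

instance : IsProbabilityMeasure (U m) := ⟨by rw [Measure.restrict_apply_univ, UC_vol]⟩

/-- the average -/
noncomputable def Av (δ : ℝ) (H : (Fin m → ℝ) → ℂ) (v : Fin m → ℝ) : ℂ :=
  ∫ h, H (v - δ • h) ∂(U m)

/-- the average of the squares -/
noncomputable def AvS (δ : ℝ) (H : (Fin m → ℝ) → ℂ) (v : Fin m → ℝ) : ℝ≥0∞ :=
  ∫⁻ h, ‖H (v - δ • h)‖ₑ ^ 2 ∂(U m)

lemma sm_meas (δ : ℝ) : Measurable fun w : (Fin m → ℝ) × (Fin m → ℝ) => w.1 - δ • w.2 := by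
  fun_prop

lemma Av_meas (δ : ℝ) {H : (Fin m → ℝ) → ℂ} (hH : Measurable H) : Measurable (Av δ H) := by
  apply StronglyMeasurable.measurable
  exact StronglyMeasurable.integral_prod_right' (f := fun w : (Fin m → ℝ) × (Fin m → ℝ) =>
    H (w.1 - δ • w.2)) (hH.comp (sm_meas δ)).stronglyMeasurable

lemma AvS_meas (δ : ℝ) {H : (Fin m → ℝ) → ℂ} (hH : Measurable H) : Measurable (AvS δ H) := by
  exact Measurable.lintegral_prod_right' (f := fun w : (Fin m → ℝ) × (Fin m → ℝ) =>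
    ‖H (w.1 - δ • w.2)‖ₑ ^ 2) ((hH.comp (sm_meas δ)).enorm.pow_const 2)

/-- Jensen's inequality for a probability measure -/
lemma jens {Λ : Type*} [MeasurableSpace Λ] (ν : Measure Λ) [IsProbabilityMeasure ν] (f : Λ → ℝ≥0∞)
    (hf : AEMeasurable f ν) : (∫⁻ h, f h ∂ν) ^ 2 ≤ ∫⁻ h, f h ^ 2 ∂ν := by
  have h := ENNReal.lintegral_mul_le_Lp_mul_Lq ν Real.HolderConjugate.two_two (f := f)
    (g := fun _ => (1 : ℝ≥0∞)) hf aemeasurable_const
  simp only [ENNReal.rpow_ofNat, Pi.mul_apply, one_pow, mul_one, lintegral_const, one_mul,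
    measure_univ, ENNReal.one_rpow] at h
  calc (∫⁻ h, f h ∂ν) ^ 2 ≤ ((∫⁻ h, f h ^ 2 ∂ν) ^ (1 / 2 : ℝ)) ^ 2 := by gcongr
    _ = _ := by
      rw [← ENNReal.rpow_natCast, ← ENNReal.rpow_mul]
      norm_num

lemma Av_sq (δ : ℝ) {H : (Fin m → ℝ) → ℂ} (hH : Measurable H) (v : Fin m → ℝ) :
    ‖Av δ H v‖ₑ ^ 2 ≤ AvS δ H v := by
  refine le_trans ?_ (jens (U m) (fun h => ‖H (v - δ • h)‖ₑ)
    (hH.comp ((sm_meas δ).comp (measurable_const.prodMk measurable_id))).enorm.aemeasurable)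
  exact pow_le_pow_left' (enorm_integral_le_lintegral_enorm _) 2

/-- the average preserves the integral -/
lemma AvS_int (δ : ℝ) {H : (Fin m → ℝ) → ℂ} (hH : Measurable H) :
    ∫⁻ v, AvS δ H v = ∫⁻ v, ‖H v‖ₑ ^ 2 := by
  unfold AvS
  rw [lintegral_lintegral_swap]
  · have h1 : ∀ h : Fin m → ℝ, ∫⁻ v, ‖H (v - δ • h)‖ₑ ^ 2 = ∫⁻ v, ‖H v‖ₑ ^ 2 := fun h =>
      lintegral_sub_right_eq_self (fun v => ‖H v‖ₑ ^ 2) (δ • h)
    simp only [h1]
    rw [lintegral_const, measure_univ, mul_one]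
  · exact ((hH.comp (sm_meas δ)).enorm.pow_const 2).aemeasurable

lemma BA1_fin : volume (BA 1 m) ≠ ∞ := (Pool.Agent.Y183.LS.BA_fin 1).ne

lemma em_contV (y : Fin m → ℝ) (t : ℝ) : Continuous (em y t : (Fin m → ℝ) → ℂ) :=
  Pool.Agent.Y183.LS.em_cont y t

lemma em_mul (y η : Fin m → ℝ) (t : ℝ) (v : Fin m → ℝ) :
    em y t v * em η 0 v = em (y + η) t v := by
  unfold Pool.Agent.W771.MD.em
  rw [← Finset.prod_mul_distrib]
  apply Finset.prod_congr rfl
  intro i _
  unfold qe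
  rw [← Complex.exp_add]
  congr 1
  simp only [Pi.add_apply]
  push_cast
  ring

lemma em_add (η : Fin m → ℝ) (v w : Fin m → ℝ) : em η 0 (v + w) = em η 0 v * em η 0 w := by
  unfold Pool.Agent.W771.MD.em
  rw [← Finset.prod_mul_distrib]
  apply Finset.prod_congr rfl
  intro i _
  unfold qe
  rw [← Complex.exp_add]
  congr 1
  simp only [Pi.add_apply]
  push_cast
  ring

lemma em_smul (δ : ℝ) (η : Fin m → ℝ) (h : Fin m → ℝ) : em η 0 (-(δ • h)) = em ((-δ) • η) 0 h := by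
  unfold Pool.Agent.W771.MD.em
  apply Finset.prod_congr rfl
  intro i _
  unfold qe
  congr 1
  simp only [Pi.neg_apply, Pi.smul_apply, smul_eq_mul]
  push_cast
  ring

/-- the Fourier transform of the cube -/
noncomputable def bh (η : Fin m → ℝ) : ℂ := ∫ h, em η 0 h ∂(U m)

lemma bh_meas : Measurable (bh (m := m)) := by
  apply StronglyMeasurable.measurable
  apply StronglyMeasurable.integral_prod_right' (f := fun w : (Fin m → ℝ) × (Fin m → ℝ) =>
    em w.1 0 w.2)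
  apply Continuous.stronglyMeasurable
  unfold Pool.Agent.W771.MD.em qe
  fun_prop

lemma bh_sq : ∫⁻ η, ‖bh (m := m) η‖ₑ ^ 2 = 1 := by
  set H : (Fin m → ℝ) → ℂ := (UC m).indicator (fun _ => 1) with hH
  have hm : Measurable H := measurable_const.indicator measurableSet_Icc
  have hp : ∀ p : ℝ≥0∞, MemLp H p volume := by
    intro p
    have hf : IsFiniteMeasure ((volume : Measure (Fin m → ℝ)).restrict (UC m)) := ⟨by
      rw [Measure.restrict_apply_univ, UC_vol]; norm_num⟩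
    rw [hH, memLp_indicator_iff_restrict measurableSet_Icc]
    exact memLp_const _
  have h := Pool.Agent.W771.MD.planchM H (memLp_one_iff_integrable.mp (hp 1)) (hp 2) 0
  have e1 : ∀ y : Fin m → ℝ, ∫ v, H v * em y 0 v = bh y := by
    intro y
    unfold bh
    rw [← integral_indicator measurableSet_Icc]
    congr 1
    ext v
    by_cases hv : v ∈ UC m
    · rw [hH, indicator_of_mem hv, indicator_of_mem hv, one_mul]
    · rw [hH, indicator_of_notMem hv, indicator_of_notMem hv, zero_mul]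
  simp only [e1] at h
  rw [h]
  have e2 : ∀ v : Fin m → ℝ, ‖H v‖ₑ ^ 2 = (UC m).indicator (fun _ => 1) v := by
    intro v
    by_cases hv : v ∈ UC m
    · rw [hH, indicator_of_mem hv, indicator_of_mem hv]; simp
    · rw [hH, indicator_of_notMem hv, indicator_of_notMem hv]; simp
  simp only [e2]
  rw [lintegral_indicator_const measurableSet_Icc, UC_vol, mul_one]

/-- **the sup bound of the average**: `Q` bounded, `W` bounded by one, all the Fourier coefficients
of `W` on `Q` at most `S` -/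
lemma sup2 (δ : ℝ) (hδ : 0 < δ) (Q : Set (Fin m → ℝ)) (hQ : MeasurableSet Q) (hQb : Q ⊆ BA 1 m)
    (W : (Fin m → ℝ) → ℂ) (hW : Measurable W) (hW1 : ∀ v, ‖W v‖ ≤ 1) (S : ℝ≥0∞)
    (hS : ∀ η, ‖∫ v in Q, W v * em η 0 v‖ₑ ≤ S) (H : (Fin m → ℝ) → ℂ) (hH : Measurable H)
    (hH2 : ∫⁻ v, ‖H v‖ₑ ^ 2 ≠ ∞) :
    ‖∫ v in Q, Av δ H v * W v‖ₑ ≤
      (∫⁻ v, ‖H v‖ₑ ^ 2) ^ (1 / 2 : ℝ) * (S * ENNReal.ofReal (δ ^ (-((m : ℝ) / 2)))) := by
  set G : (Fin m → ℝ) → ℂ := Q.indicator W with hG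
  have hGm : Measurable G := hW.indicator hQ
  have hG1 : ∀ v, ‖G v‖ ≤ 1 := by
    intro v
    by_cases h : v ∈ Q
    · rw [hG, indicator_of_mem h]; exact hW1 v
    · rw [hG, indicator_of_notMem h, norm_zero]; exact zero_le_one
  have hG1e : ∀ v, ‖G v‖ₑ ≤ 1 := by
    intro v
    rw [← ofReal_norm, ← ENNReal.ofReal_one]
    exact ENNReal.ofReal_le_ofReal (hG1 v)
  have hQf : volume Q ≠ ∞ := ne_top_of_le_ne_top BA1_fin (measure_mono hQb)
  have hGi : ∫⁻ v, ‖G v‖ₑ ≤ volume Q := by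
    calc ∫⁻ v, ‖G v‖ₑ ≤ ∫⁻ v, Q.indicator (fun _ => 1) v := by
          apply lintegral_mono
          intro v
          simp only
          by_cases h : v ∈ Q
          · rw [indicator_of_mem h]; exact hG1e v
          · rw [hG, indicator_of_notMem h, indicator_of_notMem h]; simp
      _ = _ := by rw [lintegral_indicator_const hQ, one_mul]
  set B : (Fin m → ℝ) → ℂ := fun z => ∫ h, G (z + δ • h) ∂(U m) with hB
  have hBjm : Measurable fun w : (Fin m → ℝ) × (Fin m → ℝ) => G (w.1 + δ • w.2) :=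
    hGm.comp (by fun_prop)
  have hBm : Measurable B := by
    apply StronglyMeasurable.measurable
    exact StronglyMeasurable.integral_prod_right' (f := fun w : (Fin m → ℝ) × (Fin m → ℝ) =>
      G (w.1 + δ • w.2)) hBjm.stronglyMeasurable
  -- the product is integrable
  have hprodM : Measurable fun w : (Fin m → ℝ) × (Fin m → ℝ) => H (w.1 - δ • w.2) * G w.1 :=
    (hH.comp (sm_meas δ)).mul (hGm.comp measurable_fst)
  have hint : Integrable (fun w : (Fin m → ℝ) × (Fin m → ℝ) => H (w.1 - δ • w.2) * G w.1)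
      (volume.prod (U m)) := by
    refine ⟨hprodM.aestronglyMeasurable, ?_⟩
    unfold HasFiniteIntegral
    rw [lintegral_prod _ hprodM.enorm.aemeasurable, lintegral_lintegral_swap hprodM.enorm.aemeasurable]
    have h1 : ∀ h : Fin m → ℝ, ∫⁻ v, ‖H (v - δ • h) * G v‖ₑ ≤
        (∫⁻ v, ‖H v‖ₑ ^ 2) ^ (1 / 2 : ℝ) * (volume Q) ^ (1 / 2 : ℝ) := by
      intro h
      have hh := ENNReal.lintegral_mul_le_Lp_mul_Lq (volume : Measure (Fin m → ℝ))
        Real.HolderConjugate.two_two (f := fun v => ‖H (v - δ • h)‖ₑ) (g := fun v => ‖G v‖ₑ)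
        (hH.comp (measurable_id.sub_const _)).enorm.aemeasurable hGm.enorm.aemeasurable
      simp only [ENNReal.rpow_ofNat, Pi.mul_apply] at hh
      simp only [enorm_mul]
      refine hh.trans ?_
      rw [lintegral_sub_right_eq_self (fun v => ‖H v‖ₑ ^ 2) (δ • h)]
      gcongr
      calc ∫⁻ v, ‖G v‖ₑ ^ 2 ≤ ∫⁻ v, ‖G v‖ₑ := by
            apply lintegral_mono
            intro v
            simp only
            calc ‖G v‖ₑ ^ 2 = ‖G v‖ₑ * ‖G v‖ₑ := sq _
              _ ≤ 1 * ‖G v‖ₑ := by gcongr; exact hG1e v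
              _ = _ := one_mul _
        _ ≤ _ := hGi
    calc ∫⁻ h, ∫⁻ v, ‖H (v - δ • h) * G v‖ₑ ∂(volume : Measure (Fin m → ℝ)) ∂(U m) ≤
        ∫⁻ _h, (∫⁻ v, ‖H v‖ₑ ^ 2) ^ (1 / 2 : ℝ) * (volume Q) ^ (1 / 2 : ℝ) ∂(U m) :=
          lintegral_mono h1
      _ = (∫⁻ v, ‖H v‖ₑ ^ 2) ^ (1 / 2 : ℝ) * (volume Q) ^ (1 / 2 : ℝ) := by
          rw [lintegral_const, measure_univ, mul_one]
      _ < ∞ := ENNReal.mul_lt_top (ENNReal.rpow_lt_top_of_nonneg (by norm_num) hH2)
          (ENNReal.rpow_lt_top_of_nonneg (by norm_num) hQf)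
  -- duality
  have e1 : ∫ v in Q, Av δ H v * W v = ∫ z, H z * B z := by
    have s1 : ∫ v in Q, Av δ H v * W v = ∫ v, ∫ h, H (v - δ • h) * G v ∂(U m) := by
      rw [← integral_indicator hQ]
      congr 1
      ext v
      rw [integral_mul_const]
      by_cases h : v ∈ Q
      · rw [indicator_of_mem h, hG, indicator_of_mem h]
        rfl
      · rw [indicator_of_notMem h, hG, indicator_of_notMem h, mul_zero]
    rw [s1, integral_integral_swap hint]
    have s2 : ∀ h : Fin m → ℝ, ∫ v, H (v - δ • h) * G v = ∫ z, H z * G (z + δ • h) := by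
      intro h
      have := integral_sub_right_eq_self (μ := (volume : Measure (Fin m → ℝ)))
        (fun z => H z * G (z + δ • h)) (δ • h)
      rw [← this]
      congr 1
      ext v
      rw [sub_add_cancel]
    simp only [s2]
    have hint2 : Integrable (fun w : (Fin m → ℝ) × (Fin m → ℝ) => H w.2 * G (w.2 + δ • w.1))
        ((U m).prod volume) := by
      have hmeas : Measurable fun w : (Fin m → ℝ) × (Fin m → ℝ) => H w.2 * G (w.2 + δ • w.1) :=
        (hH.comp measurable_snd).mul (hGm.comp (by fun_prop))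
      refine ⟨hmeas.aestronglyMeasurable, ?_⟩
      unfold HasFiniteIntegral
      rw [lintegral_prod _ hmeas.enorm.aemeasurable]
      have h4 := hint.2
      unfold HasFiniteIntegral at h4
      rw [lintegral_prod _ hprodM.enorm.aemeasurable,
        lintegral_lintegral_swap hprodM.enorm.aemeasurable] at h4
      refine lt_of_le_of_lt (le_of_eq ?_) h4
      congr 1
      ext h
      have := lintegral_sub_right_eq_self (μ := (volume : Measure (Fin m → ℝ)))
        (fun z => ‖H z * G (z + δ • h)‖ₑ) (δ • h)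
      rw [← this]
      congr 1
      ext v
      rw [sub_add_cancel]
    rw [integral_integral_swap hint2]
    congr 1
    ext z
    rw [integral_const_mul]
  rw [e1]
  -- Cauchy-Schwarz
  have hCS : ‖∫ z, H z * B z‖ₑ ≤ (∫⁻ v, ‖H v‖ₑ ^ 2) ^ (1 / 2 : ℝ) *
      (∫⁻ v, ‖B v‖ₑ ^ 2) ^ (1 / 2 : ℝ) := by
    refine (enorm_integral_le_lintegral_enorm _).trans ?_
    simp only [enorm_mul]
    have hh := ENNReal.lintegral_mul_le_Lp_mul_Lq (volume : Measure (Fin m → ℝ))
      Real.HolderConjugate.two_two (f := fun v => ‖H v‖ₑ) (g := fun v => ‖B v‖ₑ)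
      hH.enorm.aemeasurable hBm.enorm.aemeasurable
    simpa only [ENNReal.rpow_ofNat, Pi.mul_apply] using hh
  refine hCS.trans ?_
  gcongr
  -- Plancherel for `B`
  have hB1 : ∀ z, ‖B z‖ₑ ≤ 1 := by
    intro z
    refine (enorm_integral_le_lintegral_enorm _).trans ?_
    calc ∫⁻ h, ‖G (z + δ • h)‖ₑ ∂(U m) ≤ ∫⁻ _h, 1 ∂(U m) := lintegral_mono fun h => hG1e _
      _ = 1 := by rw [lintegral_one, measure_univ]
  have hBi : ∫⁻ z, ‖B z‖ₑ ≤ volume Q := by
    calc ∫⁻ z, ‖B z‖ₑ ≤ ∫⁻ z, ∫⁻ h, ‖G (z + δ • h)‖ₑ ∂(U m) :=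
          lintegral_mono fun z => enorm_integral_le_lintegral_enorm _
      _ = ∫⁻ h, ∫⁻ z, ‖G (z + δ • h)‖ₑ ∂(volume : Measure (Fin m → ℝ)) ∂(U m) :=
          lintegral_lintegral_swap hBjm.enorm.aemeasurable
      _ ≤ ∫⁻ _h, volume Q ∂(U m) := by
          apply lintegral_mono
          intro h
          simp only
          rw [lintegral_add_right_eq_self (fun z => ‖G z‖ₑ) (δ • h)]
          exact hGi
      _ = volume Q := by rw [lintegral_const, measure_univ, mul_one]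
  have hBint : Integrable B :=
    ⟨hBm.aestronglyMeasurable, lt_of_le_of_lt hBi hQf.lt_top⟩
  have hB2 : MemLp B 2 := by
    refine ⟨hBm.aestronglyMeasurable, ?_⟩
    rw [eLpNorm_lt_top_iff_lintegral_rpow_enorm_lt_top (by norm_num) (by norm_num)]
    simp only [ENNReal.toReal_ofNat, ENNReal.rpow_ofNat]
    refine lt_of_le_of_lt ?_ hQf.lt_top
    refine le_trans ?_ hBi
    apply lintegral_mono
    intro v
    simp only
    calc ‖B v‖ₑ ^ 2 = ‖B v‖ₑ * ‖B v‖ₑ := sq _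
      _ ≤ 1 * ‖B v‖ₑ := by gcongr; exact hB1 v
      _ = _ := one_mul _
  have hpl := Pool.Agent.W771.MD.planchM B hBint hB2 0
  rw [← hpl]
  have e2 : ∀ η : Fin m → ℝ, ∫ z, B z * em η 0 z = bh ((-δ) • η) * ∫ v in Q, W v * em η 0 v := by
    intro η
    have hemb : ∀ v : Fin m → ℝ, ‖em η 0 v‖ = 1 := fun v => Pool.Agent.Y183.LS.em_nrm η 0 v
    have s1 : ∀ z, B z * em η 0 z = ∫ h, G (z + δ • h) * em η 0 z ∂(U m) := by
      intro z
      rw [integral_mul_const]
    have hmeas : Measurable fun w : (Fin m → ℝ) × (Fin m → ℝ) => G (w.1 + δ • w.2) * em η 0 w.1 :=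
      hBjm.mul ((em_contV η 0).measurable.comp measurable_fst)
    have hint3 : Integrable (fun w : (Fin m → ℝ) × (Fin m → ℝ) => G (w.1 + δ • w.2) * em η 0 w.1)
        (volume.prod (U m)) := by
      refine ⟨hmeas.aestronglyMeasurable, ?_⟩
      unfold HasFiniteIntegral
      rw [lintegral_prod _ hmeas.enorm.aemeasurable, lintegral_lintegral_swap hmeas.enorm.aemeasurable]
      have h5 : ∀ h : Fin m → ℝ, ∫⁻ z, ‖G (z + δ • h) * em η 0 z‖ₑ ≤ volume Q := by
        intro h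
        have h6 : ∀ z : Fin m → ℝ, ‖G (z + δ • h) * em η 0 z‖ₑ = ‖G (z + δ • h)‖ₑ := by
          intro z
          rw [enorm_mul, Pool.Agent.Y183.LS.em_enrm, mul_one]
        simp only [h6]
        rw [lintegral_add_right_eq_self (fun z => ‖G z‖ₑ) (δ • h)]
        exact hGi
      calc ∫⁻ h, ∫⁻ z, ‖G (z + δ • h) * em η 0 z‖ₑ ∂(volume : Measure (Fin m → ℝ)) ∂(U m) ≤
          ∫⁻ _h, volume Q ∂(U m) := lintegral_mono h5
        _ = volume Q := by rw [lintegral_const, measure_univ, mul_one]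
        _ < ∞ := hQf.lt_top
    simp only [s1]
    rw [integral_integral_swap hint3]
    have s2 : ∀ h : Fin m → ℝ, ∫ z, G (z + δ • h) * em η 0 z =
        em ((-δ) • η) 0 h * ∫ v in Q, W v * em η 0 v := by
      intro h
      have := integral_add_right_eq_self (μ := (volume : Measure (Fin m → ℝ)))
        (fun v => G v * em η 0 (v - δ • h)) (δ • h)
      have e3 : ∫ z, G (z + δ • h) * em η 0 z = ∫ v, G v * em η 0 (v - δ • h) := by
        rw [← this]
        congr 1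
        ext z
        rw [add_sub_cancel_right]
      rw [e3, ← integral_indicator hQ, ← integral_const_mul]
      congr 1
      ext v
      rw [sub_eq_add_neg, em_add, em_smul]
      by_cases hv : v ∈ Q
      · rw [hG, indicator_of_mem hv, indicator_of_mem hv]
        ring
      · rw [hG, indicator_of_notMem hv, indicator_of_notMem hv]
        ring
    simp only [s2]
    rw [integral_mul_const]
    rfl
  simp only [e2, enorm_mul, mul_pow]
  have hbm : Measurable fun η : Fin m → ℝ => ‖bh η‖ₑ ^ 2 := bh_meas.enorm.pow_const 2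
  have e4 : ∫⁻ η : Fin m → ℝ, ‖bh ((-δ) • η)‖ₑ ^ 2 = ENNReal.ofReal (δ ^ (-(m : ℝ))) := by
    have h7 := Pool.Agent.Y183.LS.lint_smul (-δ) (by linarith : (-δ : ℝ) ≠ 0)
      (fun η : Fin m → ℝ => ‖bh η‖ₑ ^ 2) hbm
    rw [bh_sq, abs_neg, abs_of_pos hδ] at h7
    have h8 : ENNReal.ofReal (δ ^ (-(m : ℝ))) * ENNReal.ofReal (δ ^ m) = 1 := by
      rw [← ENNReal.ofReal_mul (by positivity), ← Real.rpow_natCast, ← Real.rpow_add hδ]
      simp
    calc ∫⁻ η : Fin m → ℝ, ‖bh ((-δ) • η)‖ₑ ^ 2 = (ENNReal.ofReal (δ ^ (-(m : ℝ))) *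
          ENNReal.ofReal (δ ^ m)) * ∫⁻ η : Fin m → ℝ, ‖bh ((-δ) • η)‖ₑ ^ 2 := by rw [h8, one_mul]
      _ = ENNReal.ofReal (δ ^ (-(m : ℝ))) * (ENNReal.ofReal (δ ^ m) *
          ∫⁻ η : Fin m → ℝ, ‖bh ((-δ) • η)‖ₑ ^ 2) := by ring
      _ = _ := by rw [h7, mul_one]
  have h9 : ∫⁻ η : Fin m → ℝ, ‖bh ((-δ) • η)‖ₑ ^ 2 * ‖∫ v in Q, W v * em η 0 v‖ₑ ^ 2 ≤
      ENNReal.ofReal (δ ^ (-(m : ℝ))) * S ^ 2 := by
    by_cases hSt : S = ∞
    · rw [hSt]
      have : ENNReal.ofReal (δ ^ (-(m : ℝ))) ≠ 0 := by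
        rw [ne_eq, ENNReal.ofReal_eq_zero, not_le]
        positivity
      rw [ENNReal.top_pow (by norm_num), ENNReal.mul_top this]
      exact le_top
    · calc ∫⁻ η : Fin m → ℝ, ‖bh ((-δ) • η)‖ₑ ^ 2 * ‖∫ v in Q, W v * em η 0 v‖ₑ ^ 2 ≤
          ∫⁻ η : Fin m → ℝ, ‖bh ((-δ) • η)‖ₑ ^ 2 * S ^ 2 := by
            apply lintegral_mono
            intro η
            simp only
            gcongr
            exact hS η
        _ = _ := by
            rw [lintegral_mul_const' _ _ (ENNReal.pow_ne_top hSt), e4]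
  calc (∫⁻ η : Fin m → ℝ, ‖bh ((-δ) • η)‖ₑ ^ 2 * ‖∫ v in Q, W v * em η 0 v‖ₑ ^ 2) ^ (1 / 2 : ℝ) ≤
      (ENNReal.ofReal (δ ^ (-(m : ℝ))) * S ^ 2) ^ (1 / 2 : ℝ) := by gcongr
    _ = S * ENNReal.ofReal (δ ^ (-((m : ℝ) / 2))) := by
      rw [ENNReal.mul_rpow_of_nonneg _ _ (by norm_num), ← ENNReal.rpow_natCast S, ← ENNReal.rpow_mul,
        ENNReal.ofReal_rpow_of_nonneg (by positivity) (by norm_num), ← Real.rpow_mul hδ.le]
      norm_num
      rw [mul_comm]
      congr 3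
      ring

/-- Plancherel for the average on a bounded set -/
lemma L2Q (δ : ℝ) (Q : Set (Fin m → ℝ)) (hQ : MeasurableSet Q) (hQb : Q ⊆ BA 1 m)
    (w : (Fin m → ℝ) → ℂ) (hw : Measurable w) (hw1 : ∀ v, ‖w v‖ ≤ 1) (H : (Fin m → ℝ) → ℂ)
    (hH : Measurable H) (hH2 : ∫⁻ v, ‖H v‖ₑ ^ 2 ≠ ∞) (t : ℝ) :
    ∫⁻ y : Fin m → ℝ, ‖∫ v in Q, Av δ H v * (w v * em y t v)‖ₑ ^ 2 ≤ ∫⁻ v in Q, AvS δ H v := by
  set G : (Fin m → ℝ) → ℂ := Q.indicator (fun v => Av δ H v * w v) with hG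
  have hGm : Measurable G := ((Av_meas δ hH).mul hw).indicator hQ
  have hsq : ∫⁻ v, ‖G v‖ₑ ^ 2 ≤ ∫⁻ v in Q, AvS δ H v := by
    rw [← lintegral_indicator hQ]
    apply lintegral_mono
    intro v
    simp only
    by_cases h : v ∈ Q
    · rw [hG, indicator_of_mem h, indicator_of_mem h, enorm_mul, mul_pow]
      calc ‖Av δ H v‖ₑ ^ 2 * ‖w v‖ₑ ^ 2 ≤ ‖Av δ H v‖ₑ ^ 2 * 1 := by
            gcongr
            apply pow_le_one'
            rw [← ofReal_norm, ← ENNReal.ofReal_one]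
            exact ENNReal.ofReal_le_ofReal (hw1 v)
        _ ≤ _ := by rw [mul_one]; exact Av_sq δ hH v
    · rw [hG, indicator_of_notMem h]; simp
  have hfin : ∫⁻ v, ‖G v‖ₑ ^ 2 < ∞ := by
    refine lt_of_le_of_lt (hsq.trans ?_) hH2.lt_top
    rw [← AvS_int δ hH]
    exact setLIntegral_le_lintegral _ _
  have h2 : MemLp G 2 := by
    refine ⟨hGm.aestronglyMeasurable, ?_⟩
    rw [eLpNorm_lt_top_iff_lintegral_rpow_enorm_lt_top (by norm_num) (by norm_num)]
    simpa only [ENNReal.toReal_ofNat, ENNReal.rpow_ofNat] using hfin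
  have hf : IsFiniteMeasure ((volume : Measure (Fin m → ℝ)).restrict Q) := ⟨by
    rw [Measure.restrict_apply_univ]
    exact lt_of_le_of_lt (measure_mono hQb) BA1_fin.lt_top⟩
  have h1 : Integrable G := by
    have e : Q.indicator G = G := by rw [hG, indicator_indicator, inter_self]
    rw [← e, integrable_indicator_iff hQ]
    rw [← e, memLp_indicator_iff_restrict hQ] at h2
    exact h2.integrable (by norm_num)
  have hpl := Pool.Agent.W771.MD.planchM G h1 h2 t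
  refine le_trans (le_of_eq ?_) hsq
  rw [← hpl]
  congr 1
  ext y
  congr 2
  rw [← integral_indicator hQ]
  congr 1
  ext v
  by_cases h : v ∈ Q
  · rw [hG, indicator_of_mem h, indicator_of_mem h]
    ring
  · rw [hG, indicator_of_notMem h, indicator_of_notMem h, zero_mul]

end Pool.Agent.Y183.PQ
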