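import Pool.Agent.Y183.PQ.B
set_option autoImplicit false

/-! The estimate for fixed time. -/

namespace Pool.Agent.Y183.PQ

open MeasureTheory Set Filter Topology Complex
open scoped ENNReal NNReal
open Pool.Agent.Y183.PP
open Pool.Agent.W771.MD (qe em)
open Pool.Agent.Y183.LS (BA BA1_vol)

variable {m J : ℕ}

lemma Av_L2 (δ : ℝ) {H : (Fin m → ℝ) → ℂ} (hH : Measurable H) (Q : Set (Fin m → ℝ)) :
    ∫⁻ v in Q, ‖Av δ H v‖ₑ ^ 2 ≤ ∫⁻ v, ‖H v‖ₑ ^ 2 := by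
  rw [← AvS_int δ hH]
  exact (setLIntegral_le_lintegral _ _).trans (lintegral_mono fun v => Av_sq δ hH v)

lemma Av_memLp (δ : ℝ) {H : (Fin m → ℝ) → ℂ} (hH : Measurable H) (hH2 : ∫⁻ v, ‖H v‖ₑ ^ 2 ≠ ∞)
    (Q : Set (Fin m → ℝ)) : MemLp (Av δ H) 2 (volume.restrict Q) := by
  refine ⟨(Av_meas δ hH).aestronglyMeasurable, ?_⟩
  rw [eLpNorm_lt_top_iff_lintegral_rpow_enorm_lt_top (by norm_num) (by norm_num)]
  simp only [ENNReal.toReal_ofNat, ENNReal.rpow_ofNat]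
  exact lt_of_le_of_lt (Av_L2 δ hH Q) hH2.lt_top

lemma Av_intOn (δ : ℝ) {H : (Fin m → ℝ) → ℂ} (hH : Measurable H) (hH2 : ∫⁻ v, ‖H v‖ₑ ^ 2 ≠ ∞)
    (W : (Fin m → ℝ) → ℂ) (hW : Measurable W) (hW1 : ∀ v, ‖W v‖ ≤ 1)
    (Q : Set (Fin m → ℝ)) (hQ : Q ⊆ BA 1 m) : IntegrableOn (fun v => Av δ H v * W v) Q := by
  have hf : IsFiniteMeasure ((volume : Measure (Fin m → ℝ)).restrict (BA 1 m)) := ⟨by
    rw [Measure.restrict_apply_univ]; exact BA1_fin.lt_top⟩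
  have h1 : IntegrableOn (Av δ H) (BA 1 m) := (Av_memLp δ hH hH2 _).integrable (by norm_num)
  have h2 : IntegrableOn (Av δ H) Q := h1.mono_set hQ
  exact h2.mul_bdd (c := 1) hW.aestronglyMeasurable (ae_of_all _ hW1)

/-- the trivial bound -/
lemma sup3 (δ : ℝ) (Q : Set (Fin m → ℝ)) (hQb : Q ⊆ BA 1 m)
    (W : (Fin m → ℝ) → ℂ) (hW1 : ∀ v, ‖W v‖ ≤ 1) (H : (Fin m → ℝ) → ℂ) (hH : Measurable H) :
    ‖∫ v in Q, Av δ H v * W v‖ₑ ≤ (∫⁻ v, ‖H v‖ₑ ^ 2) ^ (1 / 2 : ℝ) * (2 ^ m) ^ (1 / 2 : ℝ) := by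
  refine (enorm_integral_le_lintegral_enorm _).trans ?_
  have h1 : ∀ v, ‖Av δ H v * W v‖ₑ ≤ ‖Av δ H v‖ₑ := by
    intro v
    rw [enorm_mul]
    calc ‖Av δ H v‖ₑ * ‖W v‖ₑ ≤ ‖Av δ H v‖ₑ * 1 := by
          gcongr
          rw [← ofReal_norm, ← ENNReal.ofReal_one]
          exact ENNReal.ofReal_le_ofReal (hW1 v)
      _ = _ := mul_one _
  have h2 := ENNReal.lintegral_mul_le_Lp_mul_Lq (volume.restrict Q)
    Real.HolderConjugate.two_two (f := fun v => ‖Av δ H v‖ₑ) (g := fun _ => (1 : ℝ≥0∞))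
    (Av_meas δ hH).enorm.aemeasurable aemeasurable_const
  simp only [ENNReal.rpow_ofNat, Pi.mul_apply, one_pow, mul_one, lintegral_const, one_mul,
    Measure.restrict_apply_univ] at h2
  calc ∫⁻ v in Q, ‖Av δ H v * W v‖ₑ ≤ ∫⁻ v in Q, ‖Av δ H v‖ₑ := lintegral_mono h1
    _ ≤ (∫⁻ v in Q, ‖Av δ H v‖ₑ ^ 2) ^ (1 / 2 : ℝ) * volume Q ^ (1 / 2 : ℝ) := h2
    _ ≤ _ := by
      apply mul_le_mul'
      · exact ENNReal.rpow_le_rpow (Av_L2 δ hH Q) (by norm_num)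
      · apply ENNReal.rpow_le_rpow _ (by norm_num)
        rw [← BA1_vol]
        exact measure_mono hQb

/-- interpolation -/
lemma interp3 {Λ : Type*} [MeasurableSpace Λ] (ν : Measure Λ) (F : Λ → ℝ≥0∞) (S1 S2 L : ℝ≥0∞)
    (q θ : ℝ) (hθ : 0 ≤ θ) (hθq : θ ≤ q - 2) (h1 : ∀ y, F y ≤ S1) (h2 : ∀ y, F y ≤ S2)
    (hS1 : S1 ≠ ∞) (hS2 : S2 ≠ ∞) (hL : ∫⁻ y, F y ^ 2 ∂ν ≤ L) :
    ∫⁻ y, F y ^ q ∂ν ≤ S1 ^ θ * S2 ^ (q - 2 - θ) * L := by
  have h3 : ∀ y, F y ^ q ≤ (S1 ^ θ * S2 ^ (q - 2 - θ)) * F y ^ 2 := by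
    intro y
    have e : F y ^ q = F y ^ θ * F y ^ (q - 2 - θ) * F y ^ 2 := by
      rw [← ENNReal.rpow_add_of_nonneg _ _ hθ (by linarith), ← ENNReal.rpow_natCast,
        ← ENNReal.rpow_add_of_nonneg _ _ (by linarith) (by positivity)]
      congr 1
      push_cast
      ring
    rw [e]
    exact mul_le_mul_left (mul_le_mul' (ENNReal.rpow_le_rpow (h1 y) hθ)
      (ENNReal.rpow_le_rpow (h2 y) (by linarith))) _
  refine (lintegral_mono h3).trans ?_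
  rw [lintegral_const_mul']
  · gcongr
  · exact ENNReal.mul_ne_top (ENNReal.rpow_ne_top_of_nonneg hθ hS1)
      (ENNReal.rpow_ne_top_of_nonneg (by linarith) hS2)

/-- the decomposition of the cube -/
lemma dec (e : Fin J ⊕ Fin J ≃ Fin m) (φ : Fin J → Poly) (t : ℝ) :
    ∃ F : Finset (Fin J → ℕ), ∀ (g : (Fin m → ℝ) → ℂ) (v : Fin m → ℝ), v ∈ BA 1 m →
      g v = ∑ i ∈ F, (Qs e φ t i).indicator g v := by
  choose N hN using fun j => BB_empty (φ j) t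
  refine ⟨Fintype.piFinset fun j => Finset.range (N j + 1), ?_⟩
  intro g v hv
  rw [mem_SQ e] at hv
  have h1 : ∀ j, ∑ k ∈ Finset.range (N j + 1), (AA (φ j) t k).indicator (fun _ => (1 : ℂ)) (Pr e v j)
      = 1 := by
    intro j
    rw [← AA_sum (φ j) t (fun _ => 1) (N j), indicator_of_mem (hN j _ (hv j))]
  have h2 : ∑ i ∈ Fintype.piFinset fun j => Finset.range (N j + 1),
      ∏ j, (AA (φ j) t (i j)).indicator (fun _ => (1 : ℂ)) (Pr e v j) = 1 := by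
    have h0 := Finset.prod_univ_sum (fun j => Finset.range (N j + 1))
      (fun j k => (AA (φ j) t k).indicator (fun _ => (1 : ℂ)) (Pr e v j))
    rw [← h0]
    exact Finset.prod_eq_one fun j _ => h1 j
  have h3 : ∀ i : Fin J → ℕ, (Qs e φ t i).indicator g v =
      g v * ∏ j, (AA (φ j) t (i j)).indicator (fun _ => (1 : ℂ)) (Pr e v j) := by
    intro i
    by_cases h : v ∈ Qs e φ t i
    · rw [indicator_of_mem h, Finset.prod_eq_one, mul_one]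
      intro j _
      rw [indicator_of_mem (h j).2]
    · rw [indicator_of_notMem h]
      have h4 : ∃ j, Pr e v j ∉ AA (φ j) t (i j) := by
        by_contra hc
        push Not at hc
        exact h fun j => ⟨hv j, hc j⟩
      obtain ⟨j, hj⟩ := h4
      rw [Finset.prod_eq_zero (Finset.mem_univ j), mul_zero]
      rw [indicator_of_notMem hj]
  simp only [h3]
  rw [← Finset.mul_sum, h2, mul_one]

/-- the operator in the paired variables -/
noncomputable def TT (e : Fin J ⊕ Fin J ≃ Fin m) (φ : Fin J → Poly) (H : (Fin m → ℝ) → ℂ)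
    (y : Fin m → ℝ) (t : ℝ) : ℂ := ∫ v in BA 1 m, H v * (tw e φ v * em y t v)

lemma W_norm (e : Fin J ⊕ Fin J ≃ Fin m) (φ : Fin J → Poly) (y : Fin m → ℝ) (t : ℝ)
    (v : Fin m → ℝ) : ‖tw e φ v * em y t v‖ ≤ 1 := by
  rw [norm_mul, tw_norm, Pool.Agent.Y183.LS.em_nrm, mul_one]

lemma W_meas (e : Fin J ⊕ Fin J ≃ Fin m) (φ : Fin J → Poly) (y : Fin m → ℝ) (t : ℝ) :
    Measurable fun v => tw e φ v * em y t v :=
  (tw_cont e φ).measurable.mul (em_contV y t).measurable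

/-- the factor of a piece -/
noncomputable def XX (D m : ℕ) {J : ℕ} (δ θ : ℝ) (i : Fin J → ℕ) : ℝ≥0∞ :=
  (ENNReal.ofReal (∏ j, SS D 1 (i j)) * ENNReal.ofReal (δ ^ (-((m : ℝ) / 2)))) ^ θ

/-- **the estimate for fixed time** -/
lemma fixT {D : ℕ} (e : Fin J ⊕ Fin J ≃ Fin m) {φ : Fin J → Poly}
    (hφ : ∀ j, (φ j).totalDegree ≤ D) (δ : ℝ) (hδ : 0 < δ) (q θ : ℝ) (hθ : 0 ≤ θ)
    (hθq : θ ≤ q - 2) (a : (Fin J → ℕ) → ℝ≥0∞) (ha0 : ∀ i, a i ≠ 0) (ha : ∀ i, a i ≠ ∞)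
    (H : (Fin m → ℝ) → ℂ) (hH : Measurable H) (hH2 : ∫⁻ v, ‖H v‖ₑ ^ 2 ≠ ∞) (t : ℝ) :
    ∫⁻ y : Fin m → ℝ, ‖TT e φ (Av δ H) y t‖ₑ ^ q ≤
      (∑' i, a i) ^ (q - 1) * ∑' i, a i ^ (1 - q) * (XX D m δ θ i *
        ((2 ^ m) ^ ((q - 2 - θ) / 2) * (∫⁻ v, ‖H v‖ₑ ^ 2) ^ ((q - 2) / 2) *
          ∫⁻ v in Qs e φ t i, AvS δ H v)) := by
  obtain ⟨F, hF⟩ := dec e φ t
  set N : ℝ≥0∞ := ∫⁻ v, ‖H v‖ₑ ^ 2 with hN
  have hdec : ∀ y, TT e φ (Av δ H) y t =
      ∑ i ∈ F, ∫ v in Qs e φ t i, Av δ H v * (tw e φ v * em y t v) := by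
    intro y
    unfold TT
    have h1 : ∀ i : Fin J → ℕ, ∫ v in Qs e φ t i, Av δ H v * (tw e φ v * em y t v) =
        ∫ v in BA 1 m, (Qs e φ t i).indicator (fun v => Av δ H v * (tw e φ v * em y t v)) v := by
      intro i
      rw [← integral_indicator (Qs_meas e φ t i), ← integral_indicator measurableSet_Icc,
        indicator_indicator, inter_eq_right.mpr (Qs_sub e φ t i)]
    simp only [h1]
    rw [← integral_finsetSum]
    · apply setIntegral_congr_fun measurableSet_Icc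
      intro v hv
      exact hF (fun v => Av δ H v * (tw e φ v * em y t v)) v hv
    · intro i _
      exact (Av_intOn δ hH hH2 _ (W_meas e φ y t) (W_norm e φ y t) (BA 1 m) le_rfl).indicator
        (Qs_meas e φ t i)
  have hpart : ∀ i, ∫⁻ y : Fin m → ℝ, ‖∫ v in Qs e φ t i, Av δ H v * (tw e φ v * em y t v)‖ₑ ^ q ≤
      XX D m δ θ i * ((2 ^ m) ^ ((q - 2 - θ) / 2) * N ^ ((q - 2) / 2) *
        ∫⁻ v in Qs e φ t i, AvS δ H v) := by
    intro i
    have hs1 : ∀ y : Fin m → ℝ, ‖∫ v in Qs e φ t i, Av δ H v * (tw e φ v * em y t v)‖ₑ ≤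
        N ^ (1 / 2 : ℝ) * (ENNReal.ofReal (∏ j, SS D 1 (i j)) *
          ENNReal.ofReal (δ ^ (-((m : ℝ) / 2)))) := by
      intro y
      apply sup2 δ hδ _ (Qs_meas e φ t i) (Qs_sub e φ t i) _ (W_meas e φ y t) (W_norm e φ y t) _ _
        H hH hH2
      intro η
      have e1 : ∀ v, tw e φ v * em y t v * em η 0 v = tw e φ v * em (y + η) t v := by
        intro v
        rw [← em_mul]
        ring
      simp only [e1]
      rw [← ofReal_norm]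
      exact ENNReal.ofReal_le_ofReal (sup1 e hφ (y + η) t i)
    have hs2 : ∀ y : Fin m → ℝ, ‖∫ v in Qs e φ t i, Av δ H v * (tw e φ v * em y t v)‖ₑ ≤
        N ^ (1 / 2 : ℝ) * (2 ^ m) ^ (1 / 2 : ℝ) := fun y =>
      sup3 δ _ (Qs_sub e φ t i) _ (W_norm e φ y t) H hH
    have hL := L2Q δ (Qs e φ t i) (Qs_meas e φ t i) (Qs_sub e φ t i) (tw e φ)
      (tw_cont e φ).measurable (fun v => (tw_norm e φ v).le) H hH hH2 t
    have hNh : N ^ (1 / 2 : ℝ) ≠ ∞ := ENNReal.rpow_ne_top_of_nonneg (by norm_num) hH2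
    have h3 := interp3 volume _ _ _ _ q θ hθ hθq hs1 hs2
      (ENNReal.mul_ne_top hNh (ENNReal.mul_ne_top ENNReal.ofReal_ne_top ENNReal.ofReal_ne_top))
      (ENNReal.mul_ne_top hNh (ENNReal.rpow_ne_top_of_nonneg (by norm_num)
        (ENNReal.pow_ne_top (by norm_num)))) hL
    refine h3.trans (le_of_eq ?_)
    unfold XX
    have e0 : (N ^ (1 / 2 : ℝ) * (2 ^ m) ^ (1 / 2 : ℝ)) ^ (q - 2 - θ) =
        N ^ (1 / 2 * (q - 2 - θ)) * (2 ^ m) ^ (1 / 2 * (q - 2 - θ)) := by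
      rw [ENNReal.mul_rpow_of_nonneg _ _ (by linarith), ← ENNReal.rpow_mul, ← ENNReal.rpow_mul]
    rw [ENNReal.mul_rpow_of_nonneg _ _ hθ, e0, ← ENNReal.rpow_mul]
    have e1 : N ^ ((q - 2) / 2) = N ^ (1 / 2 * θ) * N ^ (1 / 2 * (q - 2 - θ)) := by
      rw [← ENNReal.rpow_add_of_nonneg _ _ (by linarith) (by linarith)]
      congr 1
      ring
    rw [e1, show (q - 2 - θ) / 2 = 1 / 2 * (q - 2 - θ) by ring]
    ring
  have hmeas : ∀ i, Measurable fun y : Fin m → ℝ =>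
      ‖∫ v in Qs e φ t i, Av δ H v * (tw e φ v * em y t v)‖ₑ ^ q := by
    intro i
    apply Measurable.pow_const
    apply Measurable.enorm
    apply StronglyMeasurable.measurable
    apply StronglyMeasurable.integral_prod_right'
      (f := fun w : (Fin m → ℝ) × (Fin m → ℝ) => Av δ H w.2 * (tw e φ w.2 * em w.1 t w.2))
    apply Measurable.stronglyMeasurable
    apply Measurable.mul ((Av_meas δ hH).comp measurable_snd)
    apply Measurable.mul ((tw_cont e φ).measurable.comp measurable_snd)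
    unfold Pool.Agent.W771.MD.em qe
    fun_prop
  calc ∫⁻ y : Fin m → ℝ, ‖TT e φ (Av δ H) y t‖ₑ ^ q ≤
      ∫⁻ y : Fin m → ℝ, (∑ i ∈ F, a i) ^ (q - 1) * ∑ i ∈ F, a i ^ (1 - q) *
        ‖∫ v in Qs e φ t i, Av δ H v * (tw e φ v * em y t v)‖ₑ ^ q := by
        apply lintegral_mono
        intro y
        simp only
        rw [hdec]
        refine le_trans ?_ (wsum F a
          (fun i => ‖∫ v in Qs e φ t i, Av δ H v * (tw e φ v * em y t v)‖ₑ) q (by linarith) ha0 ha)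
        have hq0 : 0 ≤ q := by linarith
        gcongr
        exact enorm_sum_le _ _
    _ = (∑ i ∈ F, a i) ^ (q - 1) * ∑ i ∈ F, a i ^ (1 - q) *
        ∫⁻ y : Fin m → ℝ, ‖∫ v in Qs e φ t i, Av δ H v * (tw e φ v * em y t v)‖ₑ ^ q := by
        rw [lintegral_const_mul', lintegral_finsetSum]
        · congr 1
          apply Finset.sum_congr rfl
          intro k _
          rw [lintegral_const_mul _ (hmeas k)]
        · intro k _
          exact (hmeas k).const_mul _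
        · apply ENNReal.rpow_ne_top_of_nonneg (by linarith)
          exact (ENNReal.sum_lt_top.mpr fun k _ => (ha k).lt_top).ne
    _ ≤ (∑' i, a i) ^ (q - 1) * ∑ i ∈ F, a i ^ (1 - q) * (XX D m δ θ i *
        ((2 ^ m) ^ ((q - 2 - θ) / 2) * N ^ ((q - 2) / 2) * ∫⁻ v in Qs e φ t i, AvS δ H v)) := by
        exact mul_le_mul' (ENNReal.rpow_le_rpow (ENNReal.sum_le_tsum F) (by linarith))
          (Finset.sum_le_sum fun k _ => mul_le_mul_right (hpart k) _)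
    _ ≤ _ := by
        gcongr
        exact ENNReal.sum_le_tsum F

end Pool.Agent.Y183.PQ
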