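import Pool.Agent.Y183.PQ.C
set_option autoImplicit false

/-! Sums over the pieces, the integration in time. -/

namespace Pool.Agent.Y183.PQ

open MeasureTheory Set Filter Topology Complex
open scoped ENNReal NNReal
open Pool.Agent.Y183.PP
open Pool.Agent.W771.MD (qe em)
open Pool.Agent.Y183.LS (BA BA1_vol)

variable {m J : ℕ}

lemma Qs_joint (e : Fin J ⊕ Fin J ≃ Fin m) (φ : Fin J → Poly) (i : Fin J → ℕ) :
    MeasurableSet {w : ℝ × (Fin m → ℝ) | w.2 ∈ Qs e φ w.1 i} := by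
  have h : {w : ℝ × (Fin m → ℝ) | w.2 ∈ Qs e φ w.1 i} =
      ⋂ j, (fun w : ℝ × (Fin m → ℝ) => (w.1, Pr e w.2 j)) ⁻¹'
        {w : ℝ × (ℝ × ℝ) | w.2 ∈ SQ ∩ AA (φ j) w.1 (i j)} := by
    ext w; simp [Qs]
  rw [h]
  refine MeasurableSet.iInter fun j => ?_
  have hm : Measurable (fun w : ℝ × (Fin m → ℝ) => (w.1, Pr e w.2 j)) :=
    measurable_fst.prodMk ((Pr_meas e j).comp measurable_snd)
  apply hm
  apply MeasurableSet.inter (measurable_snd SQ_meas)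
  cases i j with
  | zero => exact (BB_joint (φ j) 1).compl
  | succ k => exact (BB_joint (φ j) _).diff (BB_joint (φ j) _)

/-- the measure of the set of times -/
lemma tvol (hJ : 0 < J) (e : Fin J ⊕ Fin J ≃ Fin m) (φ : Fin J → Poly) (i : Fin J → ℕ)
    (v : Fin m → ℝ) : volume {t : ℝ | v ∈ Qs e φ t i} ≤
      ∏ j, ENNReal.ofReal ((2 : ℝ) ^ ((i j : ℝ) / J)) := by
  set X := volume {t : ℝ | v ∈ Qs e φ t i} with hX
  have hJ0 : (0 : ℝ) < J := by exact_mod_cast hJ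
  have h1 : ∀ j, X ≤ ENNReal.ofReal (2 ^ (i j)) := by
    intro j
    refine le_trans (measure_mono ?_) (vol_BB (φ j) (2 ^ (i j)) (by positivity) (Pr e v j))
    intro t ht
    exact AA_sub (φ j) t (i j) (ht j).2
  have h2 : X = ∏ _j : Fin J, X ^ (1 / (J : ℝ)) := by
    rw [Finset.prod_const, Finset.card_univ, Fintype.card_fin, ← ENNReal.rpow_natCast,
      ← ENNReal.rpow_mul, one_div, inv_mul_cancel₀ hJ0.ne', ENNReal.rpow_one]
  rw [h2]
  apply Finset.prod_le_prod'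
  intro j _
  calc X ^ (1 / (J : ℝ)) ≤ ENNReal.ofReal (2 ^ (i j)) ^ (1 / (J : ℝ)) :=
        ENNReal.rpow_le_rpow (h1 j) (by positivity)
    _ = _ := by
      rw [ENNReal.ofReal_rpow_of_pos (by positivity), ← Real.rpow_natCast,
        ← Real.rpow_mul (by norm_num)]
      congr 2
      ring

lemma tsum_pow (f : ℕ → ℝ≥0∞) (n : ℕ) :
    ∑' i : Fin n → ℕ, ∏ j, f (i j) = (∑' k, f k) ^ n := by
  induction n with
  | zero => simp
  | succ n ih =>
    rw [← (Fin.consEquiv (fun _ : Fin (n + 1) => ℕ)).tsum_eq]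
    have h : ∀ p : ℕ × (Fin n → ℕ), ∏ j, f ((Fin.consEquiv (fun _ : Fin (n + 1) => ℕ)) p j) =
        f p.1 * ∏ j, f (p.2 j) := by
      intro p
      rw [Fin.prod_univ_succ]
      rfl
    have h' : ∑' c : ℕ × (Fin n → ℕ), ∏ j, f ((Fin.consEquiv (fun _ : Fin (n + 1) => ℕ)) c j) =
        ∑' c : ℕ × (Fin n → ℕ), f c.1 * ∏ j, f (c.2 j) := tsum_congr h
    refine h'.trans ?_
    rw [ENNReal.tsum_prod (f := fun a (b : Fin n → ℕ) => f a * ∏ j, f (b j))]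
    simp only [ENNReal.tsum_mul_left]
    rw [ih, ENNReal.tsum_mul_right, pow_succ, mul_comm]

lemma geo (c : ℝ) (hc : 0 < c) : ∑' k : ℕ, ENNReal.ofReal ((2 : ℝ) ^ (-c * k)) ≠ ∞ := by
  have e1 : ∀ k : ℕ, ENNReal.ofReal ((2 : ℝ) ^ (-c * k)) = ENNReal.ofReal ((2 : ℝ) ^ (-c)) ^ k := by
    intro k
    rw [← ENNReal.ofReal_pow (by positivity), ← Real.rpow_natCast, ← Real.rpow_mul (by norm_num)]
  simp only [e1]
  rw [ENNReal.tsum_geometric]
  rw [ne_eq, ENNReal.inv_eq_top, tsub_eq_zero_iff_le, not_le]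
  rw [← ENNReal.ofReal_one]
  apply (ENNReal.ofReal_lt_ofReal_iff (by norm_num)).mpr
  exact Real.rpow_lt_one_of_one_lt_of_neg (by norm_num) (by linarith)

/-- the factor depending on the degree -/
noncomputable def cD (D : ℕ) : ℝ≥0∞ := ENNReal.ofReal ((1 + D : ℝ) ^ 5)

lemma cD_one (D : ℕ) : 1 ≤ cD D := by
  unfold cD
  rw [← ENNReal.ofReal_one]
  apply ENNReal.ofReal_le_ofReal
  apply one_le_pow₀
  have : (0 : ℝ) ≤ D := Nat.cast_nonneg D
  linarith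

lemma cD_top (D : ℕ) : cD D ≠ ∞ := ENNReal.ofReal_ne_top

/-- the sum over the pieces -/
lemma sumX (q θ κ : ℝ) (hq : 1 ≤ q) (hθ : 0 ≤ θ) (hκ : κ < θ) :
    ∃ (a : ℕ → ℝ≥0∞) (K : ℝ≥0∞), (∀ k, a k ≠ 0) ∧ (∀ k, a k ≠ ∞) ∧ ∑' k, a k ≠ ∞ ∧ K ≠ ∞ ∧
      ∀ D : ℕ, ∑' k : ℕ, a k ^ (1 - q) * (ENNReal.ofReal (SS D 1 k) ^ θ *
        ENNReal.ofReal ((2 : ℝ) ^ (κ * k))) ≤ K * cD D ^ θ := by
  set ε : ℝ := min 1 ((θ - κ) / (2 * (q + θ))) with hε
  have hqθ : 0 < q + θ := by linarith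
  have hε0 : 0 < ε := by
    have : 0 < θ - κ := by linarith
    rw [hε]
    positivity
  have hε1 : ε ≤ 1 := min_le_left _ _
  have hε2 : ε * (q + θ) ≤ (θ - κ) / 2 := by
    have h1 : ε ≤ (θ - κ) / (2 * (q + θ)) := min_le_right _ _
    calc ε * (q + θ) ≤ (θ - κ) / (2 * (q + θ)) * (q + θ) := by gcongr
      _ = _ := by field_simp
  obtain ⟨C, hC, hSS⟩ := SS_bound ε hε0 hε1
  refine ⟨fun k => ENNReal.ofReal ((2 : ℝ) ^ (-ε * k)), ENNReal.ofReal (C ^ θ) *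
      ∑' k : ℕ, ENNReal.ofReal ((2 : ℝ) ^ (-((θ - κ) / 2) * k)), ?_, ?_, geo ε hε0,
      ENNReal.mul_ne_top ENNReal.ofReal_ne_top (geo _ (by linarith)), ?_⟩
  · intro k
    simp only [ne_eq, ENNReal.ofReal_eq_zero, not_le]
    positivity
  · intro k
    exact ENNReal.ofReal_ne_top
  · intro D
    set C' : ℝ := (C * (1 + D : ℝ) ^ 5) ^ θ with hC'
    have hC'0 : 0 ≤ C' := by positivity
    have hC'e : ENNReal.ofReal C' = ENNReal.ofReal (C ^ θ) * cD D ^ θ := by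
      unfold cD
      rw [hC', Real.mul_rpow hC.le (by positivity), ENNReal.ofReal_mul (by positivity),
        ENNReal.ofReal_rpow_of_nonneg (by positivity) hθ]
    suffices hsuf : ∑' k : ℕ, ENNReal.ofReal ((2 : ℝ) ^ (-ε * k)) ^ (1 - q) *
        (ENNReal.ofReal (SS D 1 k) ^ θ * ENNReal.ofReal ((2 : ℝ) ^ (κ * k))) ≤
        ENNReal.ofReal C' * ∑' k : ℕ, ENNReal.ofReal ((2 : ℝ) ^ (-((θ - κ) / 2) * k)) by
      refine hsuf.trans (le_of_eq ?_)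
      rw [hC'e]
      ring
    rw [← ENNReal.tsum_mul_left]
    apply ENNReal.tsum_le_tsum
    intro k
    have hk : (0 : ℝ) ≤ k := Nat.cast_nonneg k
    have h1 : ENNReal.ofReal (SS D 1 k) ^ θ ≤ ENNReal.ofReal (C' * (2 : ℝ) ^ (-(1 - ε) * k * θ)) := by
      have h2 := hSS D 1 zero_le_one k
      rw [mul_one] at h2
      calc ENNReal.ofReal (SS D 1 k) ^ θ ≤
          ENNReal.ofReal ((C * (1 + D : ℝ) ^ 5) * (2 : ℝ) ^ (-(1 - ε) * k)) ^ θ := by gcongr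
        _ = _ := by
          rw [ENNReal.ofReal_rpow_of_nonneg (by positivity) hθ, Real.mul_rpow (by positivity)
            (by positivity), ← Real.rpow_mul (by norm_num)]
    have h3 : ENNReal.ofReal ((2 : ℝ) ^ (-ε * k)) ^ (1 - q) =
        ENNReal.ofReal ((2 : ℝ) ^ (-ε * k * (1 - q))) := by
      rw [ENNReal.ofReal_rpow_of_pos (by positivity), ← Real.rpow_mul (by norm_num)]
    rw [h3]
    calc ENNReal.ofReal ((2 : ℝ) ^ (-ε * k * (1 - q))) * (ENNReal.ofReal (SS D 1 k) ^ θ *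
          ENNReal.ofReal ((2 : ℝ) ^ (κ * k))) ≤
        ENNReal.ofReal ((2 : ℝ) ^ (-ε * k * (1 - q))) *
          (ENNReal.ofReal (C' * (2 : ℝ) ^ (-(1 - ε) * k * θ)) *
          ENNReal.ofReal ((2 : ℝ) ^ (κ * k))) := by gcongr
      _ = ENNReal.ofReal (C' * (2 : ℝ) ^ (-ε * k * (1 - q) + -(1 - ε) * k * θ + κ * k)) := by
        rw [← ENNReal.ofReal_mul (by positivity), ← ENNReal.ofReal_mul (by positivity),
          Real.rpow_add (by norm_num), Real.rpow_add (by norm_num)]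
        congr 1
        ring
      _ ≤ ENNReal.ofReal (C' * (2 : ℝ) ^ (-((θ - κ) / 2) * k)) := by
        apply ENNReal.ofReal_le_ofReal
        gcongr
        · norm_num
        · have h4 : ε * (q - 1 + θ) ≤ (θ - κ) / 2 := by nlinarith
          have h5 : -ε * k * (1 - q) + -(1 - ε) * k * θ + κ * k =
              (ε * (q - 1 + θ) - (θ - κ)) * k := by ring
          rw [h5]
          gcongr
          linarith
      _ = _ := ENNReal.ofReal_mul hC'0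

lemma sum_up {ι 𝓧 : Type*} [Countable ι] [MeasurableSpace 𝓧] (ρ : Measure 𝓧) [SFinite ρ]
    (K : ℝ≥0∞) (hK : K ≠ ∞) (c : ι → ℝ≥0∞) (G : ι → ℝ × 𝓧 → ℝ≥0∞) (hG : ∀ i, Measurable (G i))
    (Fz : ℝ → 𝓧 → ℝ≥0∞) (h : ∀ t x, Fz t x ≤ K * ∑' i, c i * G i (t, x)) :
    ∫⁻ t : ℝ, (∫⁻ x, Fz t x ∂ρ) ≤ K * ∑' i, c i * ∫⁻ t : ℝ, (∫⁻ x, G i (t, x) ∂ρ) := by
  have hm2 : ∀ i, Measurable fun t : ℝ => ∫⁻ x, G i (t, x) ∂ρ := fun i =>
    Measurable.lintegral_prod_right' (hG i)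
  calc ∫⁻ t : ℝ, (∫⁻ x, Fz t x ∂ρ) ≤ ∫⁻ t : ℝ, (∫⁻ x, (K * ∑' i, c i * G i (t, x)) ∂ρ) :=
        lintegral_mono fun t => lintegral_mono fun x => h t x
    _ = K * ∑' i, c i * ∫⁻ t : ℝ, (∫⁻ x, G i (t, x) ∂ρ) := by
        have h1 : ∀ t : ℝ, ∫⁻ x, (K * ∑' i, c i * G i (t, x)) ∂ρ =
            K * ∑' i, c i * ∫⁻ x, G i (t, x) ∂ρ := by
          intro t
          have hx : ∀ i, Measurable fun x => G i (t, x) := fun i =>
            (hG i).comp (measurable_const.prodMk measurable_id)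
          rw [lintegral_const_mul' _ _ hK, lintegral_tsum]
          · congr 1
            apply tsum_congr
            intro i
            rw [lintegral_const_mul _ (hx i)]
          · intro i
            exact ((hx i).const_mul _).aemeasurable
        simp only [h1]
        rw [lintegral_const_mul' _ _ hK, lintegral_tsum]
        · congr 1
          apply tsum_congr
          intro i
          rw [lintegral_const_mul _ (hm2 i)]
        · intro i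
          exact ((hm2 i).const_mul _).aemeasurable

/-- **the space-time estimate** of the averages, under a local estimate in time -/
lemma stm (m J : ℕ) (hJ : 0 < J) (q θ κ₀ : ℝ) (hκ0 : 0 ≤ κ₀) (hκ : κ₀ / J < θ)
    (hθq : θ ≤ q - 2) : ∃ C : ℝ≥0, ∀ (D : ℕ) (e : Fin J ⊕ Fin J ≃ Fin m) (φ : Fin J → Poly),
    (∀ j, (φ j).totalDegree ≤ D) → ∀ δ : ℝ, 0 < δ → ∀ (𝓧 : Type) [MeasurableSpace 𝓧]
    (ρ : Measure 𝓧) [SFinite ρ] (Hf : 𝓧 × ℝ → (Fin m → ℝ) → ℂ),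
    Measurable (Function.uncurry Hf) → (∀ w, ∫⁻ v, ‖Hf w v‖ₑ ^ 2 ≠ ∞) →
    ∀ (B : ℝ≥0∞) (Ψ : (Fin m → ℝ) → ℝ≥0∞), Measurable Ψ →
    (∀ (z : Fin m → ℝ) (T : Set ℝ), MeasurableSet T → ∫⁻ t in T, (∫⁻ x, (∫⁻ v, ‖Hf (x, t) v‖ₑ ^ 2) ^
      ((q - 2) / 2) * ‖Hf (x, t) z‖ₑ ^ 2 ∂ρ) ≤ B * (volume T) ^ κ₀ * Ψ z) →
    ∫⁻ t : ℝ, (∫⁻ x, (∫⁻ y : Fin m → ℝ, ‖TT e φ (Av δ (Hf (x, t))) y t‖ₑ ^ q) ∂ρ) ≤
      C * (cD D ^ θ) ^ J * ENNReal.ofReal (δ ^ (-((m : ℝ) / 2 * θ))) * (B * ∫⁻ z, Ψ z) := by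
  have hJ0 : (0 : ℝ) < J := by exact_mod_cast hJ
  have hθ0 : 0 ≤ θ := by
    have : 0 ≤ κ₀ / J := by positivity
    linarith
  obtain ⟨a, K0, ha0, hat, has, hK0, hsum⟩ := sumX q θ (κ₀ / J) (by linarith) hθ0 hκ
  set K1 : ℝ≥0∞ := (∑' k, a k) ^ J with hK1
  set K2 : ℝ≥0∞ := K0 ^ J with hK2
  set K3 : ℝ≥0∞ := (2 ^ m) ^ ((q - 2 - θ) / 2) with hK3
  have hK1t : K1 ^ (q - 1) ≠ ∞ :=
    ENNReal.rpow_ne_top_of_nonneg (by linarith) (ENNReal.pow_ne_top has)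
  have hK2t : K2 ≠ ∞ := ENNReal.pow_ne_top hK0
  have hK3t : K3 ≠ ∞ := ENNReal.rpow_ne_top_of_nonneg (by linarith)
    (ENNReal.pow_ne_top (by norm_num))
  refine ⟨(K1 ^ (q - 1) * (K3 * K2)).toNNReal, ?_⟩
  rw [ENNReal.coe_toNNReal (ENNReal.mul_ne_top hK1t (ENNReal.mul_ne_top hK3t hK2t))]
  intro D e φ hφ δ hδ 𝓧 _ ρ _ Hf hHf hN B Ψ hΨ hTH
  -- the weights
  set A : (Fin J → ℕ) → ℝ≥0∞ := fun i => ∏ j, a (i j) with hA
  have hA0 : ∀ i, A i ≠ 0 := fun i => Finset.prod_ne_zero_iff.mpr fun j _ => ha0 _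
  have hAt : ∀ i, A i ≠ ∞ := fun i => ENNReal.prod_ne_top fun j _ => hat _
  have hAs : ∑' i, A i = K1 := tsum_pow a J
  have hHs : ∀ w : 𝓧 × ℝ, Measurable (Hf w) := fun w =>
    hHf.comp (measurable_const.prodMk measurable_id)
  have hNm : Measurable fun w : 𝓧 × ℝ => ∫⁻ v, ‖Hf w v‖ₑ ^ 2 :=
    Measurable.lintegral_prod_right' (f := fun w : (𝓧 × ℝ) × (Fin m → ℝ) => ‖Hf w.1 w.2‖ₑ ^ 2)
      (hHf.enorm.pow_const 2)
  -- the kernel
  set k : (Fin J → ℕ) → (𝓧 × ℝ) × ((Fin m → ℝ) × (Fin m → ℝ)) → ℝ≥0∞ := fun i w =>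
      {w : ℝ × (Fin m → ℝ) | w.2 ∈ Qs e φ w.1 i}.indicator (fun _ => (1 : ℝ≥0∞)) (w.1.2, w.2.1) *
        ((∫⁻ v, ‖Hf w.1 v‖ₑ ^ 2) ^ ((q - 2) / 2) * ‖Hf w.1 (w.2.1 - δ • w.2.2)‖ₑ ^ 2) with hk
  have hkm : ∀ i, Measurable (k i) := by
    intro i
    apply Measurable.mul
    · exact (measurable_const.indicator (Qs_joint e φ i)).comp
        ((measurable_snd.comp measurable_fst).prodMk (measurable_fst.comp measurable_snd))
    · apply Measurable.mul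
      · exact (hNm.comp measurable_fst).pow_const _
      · have : Measurable fun w : (𝓧 × ℝ) × ((Fin m → ℝ) × (Fin m → ℝ)) =>
            (w.1, w.2.1 - δ • w.2.2) := by fun_prop
        exact ((hHf.comp this).enorm.pow_const 2)
  set VU : Measure ((Fin m → ℝ) × (Fin m → ℝ)) := (volume : Measure (Fin m → ℝ)).prod (U m) with hVU
  have hkey : ∀ i t x, (∫⁻ v, ‖Hf (x, t) v‖ₑ ^ 2) ^ ((q - 2) / 2) *
      (∫⁻ v in Qs e φ t i, AvS δ (Hf (x, t)) v) = ∫⁻ w, k i ((x, t), w) ∂VU := by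
    intro i t x
    have hp : (∫⁻ v, ‖Hf (x, t) v‖ₑ ^ 2) ^ ((q - 2) / 2) ≠ ∞ :=
      ENNReal.rpow_ne_top_of_nonneg (by linarith) (hN (x, t))
    have hpr : ∫⁻ w, k i ((x, t), w) ∂VU =
        ∫⁻ v, (∫⁻ h, k i ((x, t), (v, h)) ∂(U m)) ∂(volume : Measure (Fin m → ℝ)) :=
      lintegral_prod (fun w => k i ((x, t), w))
        ((hkm i).comp (measurable_const.prodMk measurable_id)).aemeasurable
    rw [← lintegral_indicator (Qs_meas e φ t i), ← lintegral_const_mul' _ _ hp, hpr]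
    apply lintegral_congr
    intro v
    by_cases hv : v ∈ Qs e φ t i
    · have hv2 : ((t, v) : ℝ × (Fin m → ℝ)) ∈ {w : ℝ × (Fin m → ℝ) | w.2 ∈ Qs e φ w.1 i} := hv
      simp only [hk]
      rw [indicator_of_mem hv, indicator_of_mem hv2]
      simp only [one_mul]
      rw [lintegral_const_mul' _ _ hp]
      rfl
    · have hv2 : ((t, v) : ℝ × (Fin m → ℝ)) ∉ {w : ℝ × (Fin m → ℝ) | w.2 ∈ Qs e φ w.1 i} := hv
      simp only [hk]
      rw [indicator_of_notMem hv, indicator_of_notMem hv2]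
      simp
  -- the time integral of a piece
  have hIle : ∀ i, ∫⁻ t : ℝ, (∫⁻ x, (∫⁻ w, k i ((x, t), w) ∂VU) ∂ρ) ≤
      B * (∏ j, ENNReal.ofReal ((2 : ℝ) ^ (κ₀ / J * (i j : ℝ)))) * ∫⁻ z, Ψ z := by
    intro i
    have s2 : ∀ t : ℝ, ∫⁻ x, (∫⁻ w, k i ((x, t), w) ∂VU) ∂ρ =
        ∫⁻ w, (∫⁻ x, k i ((x, t), w) ∂ρ) ∂VU := by
      intro t
      apply lintegral_lintegral_swap
      have : Measurable fun p : 𝓧 × ((Fin m → ℝ) × (Fin m → ℝ)) => k i ((p.1, t), p.2) :=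
        (hkm i).comp (by fun_prop)
      exact this.aemeasurable
    simp only [s2]
    rw [lintegral_lintegral_swap]
    swap
    · have h9 : Measurable fun p : (ℝ × ((Fin m → ℝ) × (Fin m → ℝ))) × 𝓧 =>
          k i ((p.2, p.1.1), p.1.2) := (hkm i).comp (by fun_prop)
      exact (Measurable.lintegral_prod_right' h9).aemeasurable
    have s3 : ∀ w : (Fin m → ℝ) × (Fin m → ℝ), ∫⁻ t : ℝ, (∫⁻ x, k i ((x, t), w) ∂ρ) ≤
        B * (∏ j, ENNReal.ofReal ((2 : ℝ) ^ (κ₀ / J * (i j : ℝ)))) * Ψ (w.1 - δ • w.2) := by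
      intro w
      have hTm : MeasurableSet {t : ℝ | w.1 ∈ Qs e φ t i} := by
        have h7 : {t : ℝ | w.1 ∈ Qs e φ t i} = (fun t : ℝ => (t, w.1)) ⁻¹'
            {w : ℝ × (Fin m → ℝ) | w.2 ∈ Qs e φ w.1 i} := rfl
        rw [h7]
        exact (Qs_joint e φ i).preimage (by fun_prop)
      have h8 := hTH (w.1 - δ • w.2) {t : ℝ | w.1 ∈ Qs e φ t i} hTm
      have e2 : ∫⁻ t : ℝ, (∫⁻ x, k i ((x, t), w) ∂ρ) = ∫⁻ t in {t : ℝ | w.1 ∈ Qs e φ t i},
          (∫⁻ x, (∫⁻ v, ‖Hf (x, t) v‖ₑ ^ 2) ^ ((q - 2) / 2) *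
            ‖Hf (x, t) (w.1 - δ • w.2)‖ₑ ^ 2 ∂ρ) := by
        rw [← lintegral_indicator hTm]
        apply lintegral_congr
        intro t
        by_cases ht : w.1 ∈ Qs e φ t i
        · have ht1 : t ∈ {t : ℝ | w.1 ∈ Qs e φ t i} := ht
          have ht2 : ((t, w.1) : ℝ × (Fin m → ℝ)) ∈ {w : ℝ × (Fin m → ℝ) | w.2 ∈ Qs e φ w.1 i} := ht
          rw [indicator_of_mem ht1]
          apply lintegral_congr
          intro x
          simp only [hk]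
          rw [indicator_of_mem ht2, one_mul]
        · have ht1 : t ∉ {t : ℝ | w.1 ∈ Qs e φ t i} := ht
          have ht2 : ((t, w.1) : ℝ × (Fin m → ℝ)) ∉ {w : ℝ × (Fin m → ℝ) | w.2 ∈ Qs e φ w.1 i} := ht
          rw [indicator_of_notMem ht1]
          have h0 : ∀ x, k i ((x, t), w) = 0 := by
            intro x
            simp only [hk]
            rw [indicator_of_notMem ht2, zero_mul]
          simp only [h0, lintegral_zero]
      rw [e2]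
      refine h8.trans ?_
      gcongr
      calc volume {t : ℝ | w.1 ∈ Qs e φ t i} ^ κ₀ ≤
          (∏ j, ENNReal.ofReal ((2 : ℝ) ^ ((i j : ℝ) / J))) ^ κ₀ :=
            ENNReal.rpow_le_rpow (tvol hJ e φ i w.1) hκ0
        _ = _ := by
          rw [← ENNReal.prod_rpow_of_nonneg hκ0]
          apply Finset.prod_congr rfl
          intro j _
          rw [ENNReal.ofReal_rpow_of_pos (by positivity), ← Real.rpow_mul (by norm_num)]
          congr 2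
          ring
    refine (lintegral_mono s3).trans ?_
    have hΨ2 : Measurable fun w : (Fin m → ℝ) × (Fin m → ℝ) => Ψ (w.1 - δ • w.2) :=
      hΨ.comp (sm_meas δ)
    rw [lintegral_const_mul _ hΨ2]
    gcongr
    rw [hVU, lintegral_prod _ hΨ2.aemeasurable, lintegral_lintegral_swap hΨ2.aemeasurable]
    have s4 : ∀ h : Fin m → ℝ, ∫⁻ v, Ψ (v - δ • h) = ∫⁻ v, Ψ v := fun h =>
      lintegral_sub_right_eq_self (fun v => Ψ v) (δ • h)
    simp only [s4]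
    rw [lintegral_const, measure_univ, mul_one]
  -- measurability of the pieces
  have hm1 : ∀ i, Measurable fun p : ℝ × 𝓧 => ∫⁻ w, k i ((p.2, p.1), w) ∂VU := by
    intro i
    have h1 : Measurable fun p : (ℝ × 𝓧) × ((Fin m → ℝ) × (Fin m → ℝ)) =>
        k i ((p.1.2, p.1.1), p.2) := (hkm i).comp (by fun_prop)
    exact Measurable.lintegral_prod_right' h1
  have hm2 : ∀ i, Measurable fun t : ℝ => ∫⁻ x, (∫⁻ w, k i ((x, t), w) ∂VU) ∂ρ := by
    intro i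
    exact Measurable.lintegral_prod_right' (hm1 i)
  -- sum up
  set c : (Fin J → ℕ) → ℝ≥0∞ := fun i => A i ^ (1 - q) * (XX D m δ θ i * K3) with hc
  have hfix : ∀ t x, ∫⁻ y : Fin m → ℝ, ‖TT e φ (Av δ (Hf (x, t))) y t‖ₑ ^ q ≤
      K1 ^ (q - 1) * ∑' i, c i * ∫⁻ w, k i ((x, t), w) ∂VU := by
    intro t x
    have h1 := fixT e hφ δ hδ q θ hθ0 hθq A hA0 hAt (Hf (x, t)) (hHs _) (hN _) t
    rw [hAs] at h1
    refine h1.trans (le_of_eq ?_)
    congr 1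
    apply tsum_congr
    intro i
    rw [← hkey i t x, hc]
    simp only
    ring
  have hsumle : ∑' i, c i * (B * (∏ j, ENNReal.ofReal ((2 : ℝ) ^ (κ₀ / J * (i j : ℝ)))) *
      ∫⁻ z, Ψ z) ≤ ENNReal.ofReal (δ ^ (-((m : ℝ) / 2 * θ))) * (K3 * (K2 * (cD D ^ θ) ^ J)) *
        (B * ∫⁻ z, Ψ z) := by
    have h1 : ∀ i : Fin J → ℕ, c i * (B * (∏ j, ENNReal.ofReal ((2 : ℝ) ^ (κ₀ / J * (i j : ℝ)))) *
        ∫⁻ z, Ψ z) = (ENNReal.ofReal (δ ^ (-((m : ℝ) / 2 * θ))) * K3 * (B * ∫⁻ z, Ψ z)) *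
        ∏ j, (a (i j) ^ (1 - q) * (ENNReal.ofReal (SS D 1 (i j)) ^ θ *
        ENNReal.ofReal ((2 : ℝ) ^ (κ₀ / J * (i j : ℝ))))) := by
      intro i
      rw [Finset.prod_mul_distrib, Finset.prod_mul_distrib]
      have h2 : A i ^ (1 - q) = ∏ j, a (i j) ^ (1 - q) := by
        rw [hA]
        simp only
        have : (1 - q) = -(q - 1) := by ring
        rw [this, ENNReal.rpow_neg, ← ENNReal.prod_rpow_of_nonneg (by linarith),
          ENNReal.prod_inv_distrib]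
        · apply Finset.prod_congr rfl
          intro j _
          rw [ENNReal.rpow_neg]
        · intro j _ l _ _
          left
          exact (ENNReal.rpow_pos (pos_iff_ne_zero.mpr (ha0 _)) (hat _)).ne'
      have h3 : XX D m δ θ i = (∏ j, ENNReal.ofReal (SS D 1 (i j)) ^ θ) *
          ENNReal.ofReal (δ ^ (-((m : ℝ) / 2 * θ))) := by
        unfold XX
        rw [ENNReal.mul_rpow_of_nonneg _ _ hθ0, ENNReal.ofReal_prod_of_nonneg
          (fun j _ => SS_nonneg D 1 zero_le_one _), ENNReal.prod_rpow_of_nonneg hθ0,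
          ENNReal.ofReal_rpow_of_pos (by positivity), ← Real.rpow_mul hδ.le]
        congr 3
        ring
      rw [hc]
      simp only
      rw [h2, h3]
      ring
    simp only [h1]
    rw [ENNReal.tsum_mul_left, tsum_pow (fun k => a k ^ (1 - q) * (ENNReal.ofReal (SS D 1 k) ^ θ *
        ENNReal.ofReal ((2 : ℝ) ^ (κ₀ / J * (k : ℝ))))) J]
    calc (ENNReal.ofReal (δ ^ (-((m : ℝ) / 2 * θ))) * K3 * (B * ∫⁻ z, Ψ z)) *
          (∑' k : ℕ, a k ^ (1 - q) * (ENNReal.ofReal (SS D 1 k) ^ θ *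
          ENNReal.ofReal ((2 : ℝ) ^ (κ₀ / J * (k : ℝ))))) ^ J ≤
        (ENNReal.ofReal (δ ^ (-((m : ℝ) / 2 * θ))) * K3 * (B * ∫⁻ z, Ψ z)) *
          (K0 * cD D ^ θ) ^ J := mul_le_mul_right (pow_le_pow_left' (hsum D) J) _
      _ = _ := by
        rw [mul_pow, hK2]
        ring
  have hfin := sum_up ρ (K1 ^ (q - 1)) hK1t c (fun i p => ∫⁻ w, k i ((p.2, p.1), w) ∂VU) hm1
    (fun t x => ∫⁻ y : Fin m → ℝ, ‖TT e φ (Av δ (Hf (x, t))) y t‖ₑ ^ q) hfix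
  refine hfin.trans ?_
  refine (mul_le_mul_right (ENNReal.tsum_le_tsum fun i => mul_le_mul_right (hIle i) (c i)) _).trans ?_
  refine (mul_le_mul_right hsumle _).trans (le_of_eq ?_)
  ring

end Pool.Agent.Y183.PQ
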