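import Pool.Agent.Y183.PQ.D
set_option autoImplicit false

/-! Minkowski's inequality for integrals. -/

namespace Pool.Agent.Y183.PQ

open MeasureTheory Set Filter Topology
open scoped ENNReal NNReal

/-- Minkowski's inequality for integrals -/
lemma mink {Y Λ : Type*} [MeasurableSpace Y] [MeasurableSpace Λ] (μ : Measure Y)
    [IsFiniteMeasure μ] (ν : Measure Λ) [SFinite ν] (s : ℝ) (hs : 1 ≤ s) (f : Y × Λ → ℝ≥0∞)
    (hf : Measurable f) :
    ∫⁻ u, (∫⁻ h, f (u, h) ∂ν) ^ s ∂μ ≤ (∫⁻ h, (∫⁻ u, f (u, h) ^ s ∂μ) ^ (1 / s) ∂ν) ^ s := by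
  rcases hs.eq_or_lt with h1 | h1
  · rw [← h1]
    simp only [ENNReal.rpow_one, div_one]
    exact (lintegral_lintegral_swap (f := fun u h => f (u, h)) hf.aemeasurable).le
  have hs0 : 0 < s := by linarith
  set G : Y → ℝ≥0∞ := fun u => ∫⁻ h, f (u, h) ∂ν with hG
  have hGm : Measurable G := hf.lintegral_prod_right'
  set R : ℝ≥0∞ := ∫⁻ h, (∫⁻ u, f (u, h) ^ s ∂μ) ^ (1 / s) ∂ν with hR
  set s' : ℝ := s / (s - 1) with hs'
  have hconj : s.HolderConjugate s' := Real.HolderConjugate.conjExponent h1
  have hss : 1 / s' = 1 - 1 / s := by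
    rw [hs']
    field_simp
  -- the truncations
  have htr : ∀ n : ℕ, ∫⁻ u, (min (G u) n) ^ s ∂μ ≤ R ^ s := by
    intro n
    set Gn : Y → ℝ≥0∞ := fun u => min (G u) n with hGn
    have hGnm : Measurable Gn := hGm.min measurable_const
    set X : ℝ≥0∞ := ∫⁻ u, Gn u ^ s ∂μ with hX
    have hXt : X ≠ ∞ := by
      refine ne_top_of_le_ne_top (b := (n : ℝ≥0∞) ^ s * μ univ) ?_ ?_
      · exact ENNReal.mul_ne_top (ENNReal.rpow_ne_top_of_nonneg hs0.le (ENNReal.natCast_ne_top n))
          (measure_ne_top μ _)
      · calc X ≤ ∫⁻ _u, (n : ℝ≥0∞) ^ s ∂μ := by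
              apply lintegral_mono
              intro u
              exact ENNReal.rpow_le_rpow (min_le_right _ _) hs0.le
          _ = _ := by rw [lintegral_const]
    have k1 : X ≤ ∫⁻ h, (∫⁻ u, f (u, h) * Gn u ^ (s - 1) ∂μ) ∂ν := by
      calc X ≤ ∫⁻ u, (∫⁻ h, f (u, h) * Gn u ^ (s - 1) ∂ν) ∂μ := by
            apply lintegral_mono
            intro u
            simp only
            have hfin : Gn u ^ (s - 1) ≠ ∞ := ENNReal.rpow_ne_top_of_nonneg (by linarith)
              (ne_top_of_le_ne_top (ENNReal.natCast_ne_top n) (min_le_right _ _))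
            rw [lintegral_mul_const' _ _ hfin]
            have e : Gn u ^ s = Gn u * Gn u ^ (s - 1) := by
              nth_rewrite 2 [← ENNReal.rpow_one (Gn u)]
              rw [← ENNReal.rpow_add_of_nonneg _ _ zero_le_one (by linarith)]
              congr 1
              ring
            rw [e]
            gcongr
            exact min_le_left _ _
        _ = _ := by
            apply lintegral_lintegral_swap
            have : Measurable fun w : Y × Λ => f w * Gn w.1 ^ (s - 1) :=
              hf.mul ((hGnm.comp measurable_fst).pow_const _)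
            exact this.aemeasurable
    have k2 : ∀ h, ∫⁻ u, f (u, h) * Gn u ^ (s - 1) ∂μ ≤
        (∫⁻ u, f (u, h) ^ s ∂μ) ^ (1 / s) * X ^ (1 / s') := by
      intro h
      have hh := ENNReal.lintegral_mul_le_Lp_mul_Lq μ hconj (f := fun u => f (u, h))
        (g := fun u => Gn u ^ (s - 1))
        (hf.comp (measurable_id.prodMk measurable_const)).aemeasurable
        (hGnm.pow_const _).aemeasurable
      simp only [Pi.mul_apply] at hh
      refine hh.trans (le_of_eq ?_)
      congr 2
      rw [hX]
      apply lintegral_congr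
      intro u
      rw [← ENNReal.rpow_mul]
      congr 1
      rw [hs']
      have : s - 1 ≠ 0 := by linarith
      field_simp
    have k3 : X ≤ R * X ^ (1 / s') := by
      refine k1.trans ((lintegral_mono k2).trans ?_)
      have h0 : 0 ≤ 1 / s' := by
        rw [hss]
        have : 1 / s ≤ 1 := by
          rw [div_le_one hs0]
          linarith
        linarith
      rw [lintegral_mul_const' _ _ (ENNReal.rpow_ne_top_of_nonneg h0 hXt)]
    by_cases hX0 : X = 0
    · rw [hX0]; exact zero_le
    · have k4 : X ^ (1 / s) ≤ R := by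
        have e : X = X ^ (1 / s) * X ^ (1 / s') := by
          rw [← ENNReal.rpow_add _ _ hX0 hXt, hss]
          simp
        have hne : X ^ (1 / s') ≠ 0 := by
          intro hc
          rw [ENNReal.rpow_eq_zero_iff] at hc
          rcases hc with hc | hc
          · exact hX0 hc.1
          · exact hXt hc.1
        have hnt : X ^ (1 / s') ≠ ∞ := by
          intro hc
          rw [ENNReal.rpow_eq_top_iff] at hc
          rcases hc with hc | hc
          · exact hX0 hc.1
          · exact hXt hc.1
        nth_rewrite 1 [e] at k3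
        exact (ENNReal.mul_le_mul_iff_left hne hnt).mp k3
      calc X = (X ^ (1 / s)) ^ s := by
            rw [← ENNReal.rpow_mul, one_div, inv_mul_cancel₀ hs0.ne', ENNReal.rpow_one]
        _ ≤ R ^ s := ENNReal.rpow_le_rpow k4 hs0.le
  -- monotone convergence
  have hlim : ∫⁻ u, G u ^ s ∂μ = ⨆ n : ℕ, ∫⁻ u, (min (G u) n) ^ s ∂μ := by
    rw [← lintegral_iSup]
    · apply lintegral_congr
      intro u
      have hmono : Monotone fun x : ℝ≥0∞ => x ^ s := fun a b h => ENNReal.rpow_le_rpow h hs0.le
      have h5 : ⨆ n : ℕ, min (G u) (n : ℝ≥0∞) = G u := by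
        rw [← inf_iSup_eq, ENNReal.iSup_natCast, inf_top_eq]
      have h6 := hmono.map_iSup_of_continuousAt (f := fun x : ℝ≥0∞ => x ^ s)
        (g := fun n : ℕ => min (G u) (n : ℝ≥0∞))
        (ENNReal.continuous_rpow_const.continuousAt) (by simp [hs0])
      rw [h5] at h6
      exact h6
    · intro n
      exact (hGm.min measurable_const).pow_const _
    · intro n k hnk u
      simp only
      apply ENNReal.rpow_le_rpow _ hs0.le
      apply min_le_min le_rfl
      exact_mod_cast hnk
  show ∫⁻ u, G u ^ s ∂μ ≤ R ^ s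
  rw [hlim]
  exact iSup_le htr

end Pool.Agent.Y183.PQ
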