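import Pool.Agent.Y183.PQ.E
set_option autoImplicit false

/-! Functions with a further variable, their averages. -/

namespace Pool.Agent.Y183.PQ

open MeasureTheory Set Filter Topology Complex
open scoped ENNReal NNReal
open Pool.Agent.Y183.PP
open Pool.Agent.Y183.LS (BA BA1_vol)

variable {m J : ℕ} {Y 𝓧 : Type} [MeasurableSpace Y] [MeasurableSpace 𝓧]

/-- the integral over the further variable -/
noncomputable def HF (μ : Measure Y) (κ : 𝓧 × ℝ → Y → ℂ) (g : Y → (Fin m → ℝ) → ℂ) (w : 𝓧 × ℝ)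
    (z : Fin m → ℝ) : ℂ := ∫ u, g u z * κ w u ∂μ

/-- the square of the norm -/
noncomputable def NN2 (μ : Measure Y) (p : ℝ) (g : Y → (Fin m → ℝ) → ℂ) : ℝ≥0∞ :=
  ∫⁻ z, (∫⁻ u, ‖g u z‖ₑ ^ p ∂μ) ^ (2 / p)

/-- the `L¹` norm in the further variable -/
noncomputable def gam (μ : Measure Y) (g : Y → (Fin m → ℝ) → ℂ) (z : Fin m → ℝ) : ℝ≥0∞ :=
  ∫⁻ u, ‖g u z‖ₑ ∂μ

section
variable (μ : Measure Y) [IsFiniteMeasure μ] (κ : 𝓧 × ℝ → Y → ℂ)
  (hκ : Measurable (Function.uncurry κ)) (hκ1 : ∀ w u, ‖κ w u‖ ≤ 1) (p : ℝ) (hp : 2 ≤ p)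
  (g : Y → (Fin m → ℝ) → ℂ) (hg : Measurable (Function.uncurry g))

include hg in
lemma gam_meas : Measurable (gam μ g) := by
  unfold gam
  exact Measurable.lintegral_prod_right' (f := fun w : (Fin m → ℝ) × Y => ‖g w.2 w.1‖ₑ)
    (hg.comp measurable_swap).enorm

include hg in
lemma gz_meas (z : Fin m → ℝ) : Measurable fun u => g u z :=
  hg.comp (measurable_id.prodMk measurable_const)

include hp hg in
lemma gam_sq (z : Fin m → ℝ) : gam μ g z ^ 2 ≤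
    (μ univ) ^ (2 - 2 / p) * (∫⁻ u, ‖g u z‖ₑ ^ p ∂μ) ^ (2 / p) := by
  have hp0 : 0 < p := by linarith
  have hconj : p.HolderConjugate (p / (p - 1)) := Real.HolderConjugate.conjExponent (by linarith)
  have h := ENNReal.lintegral_mul_le_Lp_mul_Lq μ hconj (f := fun u => ‖g u z‖ₑ)
    (g := fun _ => (1 : ℝ≥0∞)) (gz_meas g hg z).enorm.aemeasurable aemeasurable_const
  simp only [Pi.mul_apply, mul_one, ENNReal.one_rpow, lintegral_const, one_mul] at h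
  have e1 : 1 / (p / (p - 1)) = 1 - 1 / p := by
    have : p - 1 ≠ 0 := by linarith
    field_simp
  rw [e1] at h
  have hp2 : 0 ≤ 1 - 1 / p := by
    have : 1 / p ≤ 1 := by
      rw [div_le_one hp0]
      linarith
    linarith
  calc gam μ g z ^ 2 ≤ ((∫⁻ u, ‖g u z‖ₑ ^ p ∂μ) ^ (1 / p) * (μ univ) ^ (1 - 1 / p)) ^ 2 :=
        pow_le_pow_left' h 2
    _ = _ := by
      rw [mul_pow, ← ENNReal.rpow_natCast, ← ENNReal.rpow_natCast, ← ENNReal.rpow_mul,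
        ← ENNReal.rpow_mul, mul_comm]
      congr 2 <;> push_cast <;> ring

include hp hg in
lemma gam_int : ∫⁻ z, gam μ g z ^ 2 ≤ (μ univ) ^ (2 - 2 / p) * NN2 μ p g := by
  unfold NN2
  have hfin : (μ univ) ^ (2 - 2 / p) ≠ ∞ := by
    apply ENNReal.rpow_ne_top_of_nonneg _ (measure_ne_top μ _)
    have : 2 / p ≤ 1 := by
      rw [div_le_one (by linarith)]
      exact hp
    linarith
  rw [← lintegral_const_mul' _ _ hfin]
  exact lintegral_mono fun z => gam_sq μ p hp g hg z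

include hκ1 in
lemma HF_le (w : 𝓧 × ℝ) (z : Fin m → ℝ) : ‖HF μ κ g w z‖ₑ ≤ gam μ g z := by
  unfold HF gam
  refine (enorm_integral_le_lintegral_enorm _).trans ?_
  apply lintegral_mono
  intro u
  simp only
  rw [enorm_mul]
  calc ‖g u z‖ₑ * ‖κ w u‖ₑ ≤ ‖g u z‖ₑ * 1 := by
        gcongr
        rw [← ofReal_norm, ← ENNReal.ofReal_one]
        exact ENNReal.ofReal_le_ofReal (hκ1 w u)
    _ = _ := mul_one _

include hκ hg in
lemma HF_meas : Measurable (Function.uncurry (HF μ κ g)) := by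
  have : Function.uncurry (HF μ κ g) = fun a : (𝓧 × ℝ) × (Fin m → ℝ) =>
      ∫ u, g u a.2 * κ a.1 u ∂μ := rfl
  rw [this]
  apply StronglyMeasurable.measurable
  apply StronglyMeasurable.integral_prod_right'
    (f := fun b : ((𝓧 × ℝ) × (Fin m → ℝ)) × Y => g b.2 b.1.2 * κ b.1.1 b.2)
  apply Measurable.stronglyMeasurable
  exact (hg.comp (measurable_snd.prodMk (measurable_snd.comp measurable_fst))).mul
    (hκ.comp ((measurable_fst.comp measurable_fst).prodMk measurable_snd))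

include hκ1 hp hg in
lemma HF_sq (w : 𝓧 × ℝ) : ∫⁻ z, ‖HF μ κ g w z‖ₑ ^ 2 ≤ (μ univ) ^ (2 - 2 / p) * NN2 μ p g :=
  (lintegral_mono fun z => pow_le_pow_left' (HF_le μ κ hκ1 g w z) 2).trans (gam_int μ p hp g hg)

end

/-- averages of a square integrable function are finite everywhere -/
lemma avg_fin (δ : ℝ) (hδ : 0 < δ) (γ : (Fin m → ℝ) → ℝ≥0∞) (hγ : Measurable γ)
    (v : Fin m → ℝ) : (∫⁻ h, γ (v - δ • h) ∂(U m)) ^ 2 ≤ ENNReal.ofReal (δ ^ (-(m : ℝ))) *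
      ∫⁻ z, γ z ^ 2 := by
  have h1 : (∫⁻ h, γ (v - δ • h) ∂(U m)) ^ 2 ≤ ∫⁻ h, γ (v - δ • h) ^ 2 ∂(U m) :=
    jens (U m) (fun h => γ (v - δ • h)) (hγ.comp (by fun_prop)).aemeasurable
  refine h1.trans ((setLIntegral_le_lintegral _ _).trans ?_)
  have hm2 : Measurable fun z : Fin m → ℝ => γ (v - z) ^ 2 := (hγ.comp (by fun_prop)).pow_const 2
  have h2 := Pool.Agent.Y183.LS.lint_smul δ hδ.ne' (fun z : Fin m → ℝ => γ (v - z) ^ 2) hm2
  have h3 : ∫⁻ z : Fin m → ℝ, γ (v - z) ^ 2 = ∫⁻ z, γ z ^ 2 :=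
    lintegral_sub_left_eq_self (fun z => γ z ^ 2) v
  rw [h3, abs_of_pos hδ] at h2
  have h8 : ENNReal.ofReal (δ ^ (-(m : ℝ))) * ENNReal.ofReal (δ ^ m) = 1 := by
    rw [← ENNReal.ofReal_mul (by positivity), ← Real.rpow_natCast, ← Real.rpow_add hδ]
    simp
  calc ∫⁻ h : Fin m → ℝ, γ (v - δ • h) ^ 2 = (ENNReal.ofReal (δ ^ (-(m : ℝ))) *
        ENNReal.ofReal (δ ^ m)) * ∫⁻ h : Fin m → ℝ, γ (v - δ • h) ^ 2 := by rw [h8, one_mul]
    _ = ENNReal.ofReal (δ ^ (-(m : ℝ))) * (ENNReal.ofReal (δ ^ m) *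
        ∫⁻ h : Fin m → ℝ, γ (v - δ • h) ^ 2) := by ring
    _ ≤ _ := by rw [h2]

/-- the averages exist everywhere -/
lemma Av_ex (δ : ℝ) (hδ : 0 < δ) (G : (Fin m → ℝ) → ℂ) (hG : Measurable G)
    (hG2 : ∫⁻ z, ‖G z‖ₑ ^ 2 ≠ ∞) (v : Fin m → ℝ) : Integrable (fun h => G (v - δ • h)) (U m) := by
  refine ⟨(hG.comp (by fun_prop)).aestronglyMeasurable, ?_⟩
  have h1 := avg_fin δ hδ (fun z => ‖G z‖ₑ) hG.enorm v
  unfold HasFiniteIntegral
  by_contra hc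
  rw [not_lt, top_le_iff] at hc
  rw [hc] at h1
  have h2 : ENNReal.ofReal (δ ^ (-(m : ℝ))) * ∫⁻ z, ‖G z‖ₑ ^ 2 ≠ ∞ :=
    ENNReal.mul_ne_top ENNReal.ofReal_ne_top hG2
  rw [ENNReal.top_pow (by norm_num), top_le_iff] at h1
  exact h2 h1

lemma Av_int2 (δ : ℝ) {G : (Fin m → ℝ) → ℂ} (hG : Measurable G) :
    ∫⁻ v, ‖Av δ G v‖ₑ ^ 2 ≤ ∫⁻ v, ‖G v‖ₑ ^ 2 := by
  rw [← AvS_int δ hG]
  exact lintegral_mono fun v => Av_sq δ hG v

/-- averages commute -/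
lemma Av_comm (a b : ℝ) (ha : 0 < a) (G : (Fin m → ℝ) → ℂ) (hG : Measurable G)
    (hG2 : ∫⁻ z, ‖G z‖ₑ ^ 2 ≠ ∞) (v : Fin m → ℝ) : Av a (Av b G) v = Av b (Av a G) v := by
  unfold Av
  have hmeas : Measurable fun w : (Fin m → ℝ) × (Fin m → ℝ) => G (v - a • w.1 - b • w.2) :=
    hG.comp (by fun_prop)
  have hint : Integrable (fun w : (Fin m → ℝ) × (Fin m → ℝ) => G (v - a • w.1 - b • w.2))
      ((U m).prod (U m)) := by
    refine ⟨hmeas.aestronglyMeasurable, ?_⟩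
    unfold HasFiniteIntegral
    rw [lintegral_prod _ hmeas.enorm.aemeasurable,
      lintegral_lintegral_swap hmeas.enorm.aemeasurable]
    have h1 : ∀ h : Fin m → ℝ, ∫⁻ w, ‖G (v - a • w - b • h)‖ₑ ∂(U m) ≤
        (ENNReal.ofReal (a ^ (-(m : ℝ))) * ∫⁻ z, ‖G z‖ₑ ^ 2) ^ (1 / 2 : ℝ) := by
      intro h
      have h2 := avg_fin a ha (fun z => ‖G z‖ₑ) hG.enorm (v - b • h)
      have e : ∀ w : Fin m → ℝ, v - a • w - b • h = v - b • h - a • w := by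
        intro w
        abel
      simp only [e]
      calc ∫⁻ w, ‖G (v - b • h - a • w)‖ₑ ∂(U m) =
          ((∫⁻ w, ‖G (v - b • h - a • w)‖ₑ ∂(U m)) ^ 2) ^ (1 / 2 : ℝ) := by
            rw [← ENNReal.rpow_natCast, ← ENNReal.rpow_mul]
            norm_num
        _ ≤ _ := ENNReal.rpow_le_rpow h2 (by norm_num)
    refine lt_of_le_of_lt (lintegral_mono h1) ?_
    rw [lintegral_const, measure_univ, mul_one]
    exact ENNReal.rpow_lt_top_of_nonneg (by norm_num)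
      (ENNReal.mul_ne_top ENNReal.ofReal_ne_top hG2)
  rw [integral_integral_swap hint]
  congr 1
  ext h
  congr 1
  ext w
  congr 1
  abel

/-- the difference of the squares -/
lemma Av_tel (a b : ℝ) (ha : 0 < a) (hb : 0 < b) (G : (Fin m → ℝ) → ℂ) (hG : Measurable G)
    (hG2 : ∫⁻ z, ‖G z‖ₑ ^ 2 ≠ ∞) (v : Fin m → ℝ) :
    Av a (Av a G) v = Av b (Av b G) v + (Av a (fun z => Av a G z - Av b G z) v +
      Av b (fun z => Av a G z - Av b G z) v) := by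
  have h1 : ∀ c : ℝ, ∫⁻ z, ‖Av c G z‖ₑ ^ 2 ≠ ∞ := fun c =>
    ne_top_of_le_ne_top hG2 (Av_int2 c hG)
  have h2 : ∀ d : ℝ, 0 < d → Av d (fun z => Av a G z - Av b G z) v =
      Av d (Av a G) v - Av d (Av b G) v := by
    intro d hd
    exact integral_sub (Av_ex d hd _ (Av_meas a hG) (h1 a) v) (Av_ex d hd _ (Av_meas b hG) (h1 b) v)
  rw [h2 a ha, h2 b hb, Av_comm b a hb G hG hG2 v]
  ring

end Pool.Agent.Y183.PQ
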