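import Pool.Agent.Y183.PQ.F
set_option autoImplicit false

/-! Norms of averages, the telescoping pieces. -/

namespace Pool.Agent.Y183.PQ

open MeasureTheory Set Filter Topology Complex
open scoped ENNReal NNReal
open Pool.Agent.Y183.PP
open Pool.Agent.Y183.LS (BA BA1_vol)

variable {m J : ℕ} {Y 𝓧 : Type} [MeasurableSpace Y] [MeasurableSpace 𝓧]

/-- the average of a family -/
noncomputable def Dav (d : (Fin m → ℝ) → Y → (Fin m → ℝ) → ℂ) (u : Y) (z : Fin m → ℝ) : ℂ :=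
  ∫ h, d h u z ∂(U m)

section
variable (μ : Measure Y) [IsFiniteMeasure μ] (κ : 𝓧 × ℝ → Y → ℂ)
  (hκ : Measurable (Function.uncurry κ)) (hκ1 : ∀ w u, ‖κ w u‖ ≤ 1) (p : ℝ) (hp : 2 ≤ p)
  (d : (Fin m → ℝ) → Y → (Fin m → ℝ) → ℂ)
  (hd : Measurable fun a : (Fin m → ℝ) × (Y × (Fin m → ℝ)) => d a.1 a.2.1 a.2.2)

omit [MeasurableSpace 𝓧] in
include hd in
lemma Dav_meas : Measurable (Function.uncurry (Dav d)) := by
  have : Function.uncurry (Dav d) = fun a : Y × (Fin m → ℝ) => ∫ h, d h a.1 a.2 ∂(U m) := rfl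
  rw [this]
  apply StronglyMeasurable.measurable
  apply StronglyMeasurable.integral_prod_right'
    (f := fun b : (Y × (Fin m → ℝ)) × (Fin m → ℝ) => d b.2 b.1.1 b.1.2)
  exact (hd.comp measurable_swap).stronglyMeasurable

include hd hp in
lemma NN2_avg : NN2 μ p (Dav d) ≤ ∫⁻ h, NN2 μ p (d h) ∂(U m) := by
  have hp0 : 0 < p := by linarith
  unfold NN2
  have hm3 : Measurable fun a : ((Fin m → ℝ) × (Fin m → ℝ)) × Y => ‖d a.1.2 a.2 a.1.1‖ₑ ^ p := by
    apply Measurable.pow_const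
    apply Measurable.enorm
    exact hd.comp (by fun_prop : Measurable fun a : ((Fin m → ℝ) × (Fin m → ℝ)) × Y =>
      (a.1.2, (a.2, a.1.1)))
  have hm2 : Measurable fun a : (Fin m → ℝ) × (Fin m → ℝ) =>
      (∫⁻ u, ‖d a.2 u a.1‖ₑ ^ p ∂μ) ^ (2 / p) :=
    (Measurable.lintegral_prod_right' hm3).pow_const _
  rw [← lintegral_lintegral_swap (f := fun z h => (∫⁻ u, ‖d h u z‖ₑ ^ p ∂μ) ^ (2 / p))
    hm2.aemeasurable]
  apply lintegral_mono
  intro z
  simp only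
  have hmz : Measurable fun a : Y × (Fin m → ℝ) => ‖d a.2 a.1 z‖ₑ := by
    apply Measurable.enorm
    exact hd.comp (by fun_prop : Measurable fun a : Y × (Fin m → ℝ) => (a.2, (a.1, z)))
  have h1 : ∫⁻ u, ‖Dav d u z‖ₑ ^ p ∂μ ≤ (∫⁻ h, (∫⁻ u, ‖d h u z‖ₑ ^ p ∂μ) ^ (1 / p) ∂(U m)) ^ p := by
    refine le_trans ?_ (mink μ (U m) p (by linarith) (fun a => ‖d a.2 a.1 z‖ₑ) hmz)
    apply lintegral_mono
    intro u
    exact ENNReal.rpow_le_rpow (enorm_integral_le_lintegral_enorm _) hp0.le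
  have hmh : Measurable fun h : Fin m → ℝ => (∫⁻ u, ‖d h u z‖ₑ ^ p ∂μ) ^ (1 / p) := by
    apply Measurable.pow_const
    exact Measurable.lintegral_prod_right' (f := fun a : (Fin m → ℝ) × Y => ‖d a.1 a.2 z‖ₑ ^ p)
      ((hmz.comp measurable_swap).pow_const p)
  calc (∫⁻ u, ‖Dav d u z‖ₑ ^ p ∂μ) ^ (2 / p) ≤
      ((∫⁻ h, (∫⁻ u, ‖d h u z‖ₑ ^ p ∂μ) ^ (1 / p) ∂(U m)) ^ p) ^ (2 / p) :=
        ENNReal.rpow_le_rpow h1 (by positivity)
    _ = (∫⁻ h, (∫⁻ u, ‖d h u z‖ₑ ^ p ∂μ) ^ (1 / p) ∂(U m)) ^ 2 := by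
        rw [← ENNReal.rpow_natCast, ← ENNReal.rpow_mul]
        congr 1
        push_cast
        field_simp
    _ ≤ ∫⁻ h, ((∫⁻ u, ‖d h u z‖ₑ ^ p ∂μ) ^ (1 / p)) ^ 2 ∂(U m) := jens (U m) _ hmh.aemeasurable
    _ = _ := by
        apply lintegral_congr
        intro h
        rw [← ENNReal.rpow_natCast, ← ENNReal.rpow_mul]
        congr 1
        push_cast
        ring

include hκ hκ1 hd in
lemma HF_avg (w : 𝓧 × ℝ) (v : Fin m → ℝ) (hfin : ∫⁻ h, gam μ (d h) v ∂(U m) ≠ ∞) :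
    HF μ κ (Dav d) w v = ∫ h, HF μ κ (d h) w v ∂(U m) := by
  unfold HF Dav
  have h1 : ∀ u, (∫ h, d h u v ∂(U m)) * κ w u = ∫ h, d h u v * κ w u ∂(U m) := by
    intro u
    rw [integral_mul_const]
  simp only [h1]
  apply integral_integral_swap
  have hmeas : Measurable fun a : Y × (Fin m → ℝ) => d a.2 a.1 v * κ w a.1 := by
    apply Measurable.mul
    · exact hd.comp (by fun_prop : Measurable fun a : Y × (Fin m → ℝ) => (a.2, (a.1, v)))
    · exact hκ.comp (measurable_const.prodMk measurable_fst)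
  refine ⟨hmeas.aestronglyMeasurable, ?_⟩
  show ∫⁻ a : Y × (Fin m → ℝ), ‖d a.2 a.1 v * κ w a.1‖ₑ ∂(μ.prod (U m)) < ∞
  rw [lintegral_prod _ hmeas.enorm.aemeasurable, lintegral_lintegral_swap hmeas.enorm.aemeasurable]
  refine lt_of_le_of_lt ?_ hfin.lt_top
  apply lintegral_mono
  intro h
  unfold gam
  apply lintegral_mono
  intro u
  simp only
  rw [enorm_mul]
  calc ‖d h u v‖ₑ * ‖κ w u‖ₑ ≤ ‖d h u v‖ₑ * 1 := by
        gcongr
        rw [← ofReal_norm, ← ENNReal.ofReal_one]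
        exact ENNReal.ofReal_le_ofReal (hκ1 w u)
    _ = _ := mul_one _

end

section
variable (μ : Measure Y) [IsFiniteMeasure μ] (κ : 𝓧 × ℝ → Y → ℂ)
  (hκ : Measurable (Function.uncurry κ)) (hκ1 : ∀ w u, ‖κ w u‖ ≤ 1) (p : ℝ) (hp : 2 ≤ p)
  (g : Y → (Fin m → ℝ) → ℂ) (hg : Measurable (Function.uncurry g)) (hgN : NN2 μ p g ≠ ∞)

/-- the difference of two averages -/
noncomputable def hk (g : Y → (Fin m → ℝ) → ℂ) (a b : ℝ) : Y → (Fin m → ℝ) → ℂ :=
  Dav fun h u z => g u (z - a • h) - g u (z - b • h)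

/-- the average -/
noncomputable def h0 (g : Y → (Fin m → ℝ) → ℂ) (a : ℝ) : Y → (Fin m → ℝ) → ℂ :=
  Dav fun h u z => g u (z - a • h)

omit [MeasurableSpace 𝓧] in
include hg in
lemma sh_meas (a : ℝ) : Measurable fun c : (Fin m → ℝ) × (Y × (Fin m → ℝ)) =>
    g c.2.1 (c.2.2 - a • c.1) :=
  hg.comp (by fun_prop : Measurable fun c : (Fin m → ℝ) × (Y × (Fin m → ℝ)) =>
    (c.2.1, c.2.2 - a • c.1))

include hg in
lemma hk_meas (a b : ℝ) : Measurable (Function.uncurry (hk g a b)) :=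
  Dav_meas _ ((sh_meas g hg a).sub (sh_meas g hg b))

include hg in
lemma h0_meas (a : ℝ) : Measurable (Function.uncurry (h0 g a)) := Dav_meas _ (sh_meas g hg a)

include hp hg hgN in
lemma gam_fin : ∫⁻ z, gam μ g z ^ 2 ≠ ∞ := by
  refine ne_top_of_le_ne_top (ENNReal.mul_ne_top ?_ hgN) (gam_int μ p hp g hg)
  apply ENNReal.rpow_ne_top_of_nonneg _ (measure_ne_top μ _)
  have : 2 / p ≤ 1 := by
    rw [div_le_one (by linarith)]
    exact hp
  linarith

include hp hg hgN in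
lemma gam_avg (a : ℝ) (ha : 0 < a) (v : Fin m → ℝ) : ∫⁻ h, gam μ g (v - a • h) ∂(U m) ≠ ∞ := by
  intro hc
  have h1 := avg_fin a ha (gam μ g) (gam_meas μ g hg) v
  rw [hc, ENNReal.top_pow (by norm_num), top_le_iff] at h1
  exact ENNReal.mul_ne_top ENNReal.ofReal_ne_top (gam_fin μ p hp g hg hgN) h1

include hκ hκ1 hp hg hgN in
lemma HF_h0 (a : ℝ) (ha : 0 < a) (w : 𝓧 × ℝ) (v : Fin m → ℝ) :
    HF μ κ (h0 g a) w v = Av a (HF μ κ g w) v := by
  unfold h0
  rw [HF_avg μ κ hκ hκ1 _ (sh_meas g hg a) w v (gam_avg μ p hp g hg hgN a ha v)]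
  rfl

include hκ hκ1 hp hg hgN in
lemma HF_hk (a b : ℝ) (ha : 0 < a) (hb : 0 < b) (w : 𝓧 × ℝ) (v : Fin m → ℝ) :
    HF μ κ (hk g a b) w v = Av a (HF μ κ g w) v - Av b (HF μ κ g w) v := by
  unfold hk
  have hga := gam_avg μ p hp g hg hgN a ha v
  have hgb := gam_avg μ p hp g hg hgN b hb v
  have hm : ∀ c : ℝ, Measurable fun h : Fin m → ℝ => gam μ g (v - c • h) := fun c =>
    (gam_meas μ g hg).comp (by fun_prop)
  rw [HF_avg μ κ hκ hκ1 _ ((sh_meas g hg a).sub (sh_meas g hg b)) w v]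
  swap
  · refine ne_top_of_le_ne_top (ENNReal.add_ne_top.mpr ⟨hga, hgb⟩) ?_
    rw [← lintegral_add_left (hm a)]
    apply lintegral_mono
    intro h
    unfold gam
    simp only
    rw [← lintegral_add_left (gz_meas g hg _).enorm]
    apply lintegral_mono
    intro u
    exact enorm_sub_le
  have hGm : Measurable (HF μ κ g w) :=
    (HF_meas μ κ hκ g hg).comp (measurable_const.prodMk measurable_id)
  have hG2 : ∫⁻ z, ‖HF μ κ g w z‖ₑ ^ 2 ≠ ∞ :=
    ne_top_of_le_ne_top (gam_fin μ p hp g hg hgN)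
      (lintegral_mono fun z => pow_le_pow_left' (HF_le μ κ hκ1 g w z) 2)
  unfold Av
  rw [← integral_sub (Av_ex a ha _ hGm hG2 v) (Av_ex b hb _ hGm hG2 v)]
  apply integral_congr_ae
  have hae : ∀ c : ℝ, ∫⁻ h, gam μ g (v - c • h) ∂(U m) ≠ ∞ →
      ∀ᵐ h ∂(U m), gam μ g (v - c • h) < ∞ := fun c hc => ae_lt_top (hm c) hc
  filter_upwards [hae a hga, hae b hgb] with h h1 h2
  unfold HF
  have hint : ∀ c : ℝ, gam μ g (v - c • h) < ∞ → Integrable (fun u => g u (v - c • h) * κ w u) μ := by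
    intro c hc
    have hκm : Measurable fun u => κ w u := hκ.comp (measurable_const.prodMk measurable_id)
    refine ⟨((gz_meas g hg _).mul hκm).aestronglyMeasurable, ?_⟩
    unfold HasFiniteIntegral
    refine lt_of_le_of_lt ?_ hc
    unfold gam
    apply lintegral_mono
    intro u
    simp only
    rw [enorm_mul]
    calc ‖g u (v - c • h)‖ₑ * ‖κ w u‖ₑ ≤ ‖g u (v - c • h)‖ₑ * 1 := by
          gcongr
          rw [← ofReal_norm, ← ENNReal.ofReal_one]
          exact ENNReal.ofReal_le_ofReal (hκ1 w u)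
      _ = _ := mul_one _
  rw [← integral_sub (hint a h1) (hint b h2)]
  congr 1
  ext u
  ring

omit [IsFiniteMeasure μ] in
lemma NN2_shift (c : Fin m → ℝ) : NN2 μ p (fun u z => g u (z - c)) = NN2 μ p g := by
  unfold NN2
  exact lintegral_sub_right_eq_self (fun z => (∫⁻ u, ‖g u z‖ₑ ^ p ∂μ) ^ (2 / p)) c

include hp hg in
lemma NN2_h0 (a : ℝ) : NN2 μ p (h0 g a) ≤ NN2 μ p g := by
  refine (NN2_avg μ p hp _ (sh_meas g hg a)).trans ?_
  have : ∀ h : Fin m → ℝ, NN2 μ p (fun u z => g u (z - a • h)) = NN2 μ p g := fun h =>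
    NN2_shift μ p g (a • h)
  simp only [this]
  rw [lintegral_const, measure_univ, mul_one]

include hp hg in
/-- the norm of the difference of two averages -/
lemma NN2_hk (a b : ℝ) (K : ℝ≥0∞) (α : ℝ) (hα : 0 ≤ α)
    (hK : ∀ h : Fin m → ℝ, NN2 μ p (fun u z => g u (z + h) - g u z) ≤
      (K * ENNReal.ofReal (‖h‖ ^ α)) ^ 2) :
    NN2 μ p (hk g a b) ≤ (K * ENNReal.ofReal (|b - a| ^ α)) ^ 2 := by
  refine (NN2_avg μ p hp _ ((sh_meas g hg a).sub (sh_meas g hg b))).trans ?_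
  have h1 : ∀ h : Fin m → ℝ, h ∈ UC m →
      NN2 μ p (fun u z => g u (z - a • h) - g u (z - b • h)) ≤
        (K * ENNReal.ofReal (|b - a| ^ α)) ^ 2 := by
    intro h hh
    have e : NN2 μ p (fun u z => g u (z - a • h) - g u (z - b • h)) =
        NN2 μ p (fun u z => g u (z + (b - a) • h) - g u z) := by
      rw [← NN2_shift μ p (fun u z => g u (z + (b - a) • h) - g u z) (b • h)]
      congr 1
      ext u z
      congr 2
      rw [sub_smul]
      abel
    rw [e]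
    refine (hK _).trans ?_
    gcongr
    rw [norm_smul, Real.norm_eq_abs]
    calc |b - a| * ‖h‖ ≤ |b - a| * 1 := by
          gcongr
          rw [pi_norm_le_iff_of_nonneg zero_le_one]
          intro i
          rw [Real.norm_eq_abs, abs_le]
          exact ⟨by have := hh.1 i; simp only at this; linarith, hh.2 i⟩
      _ = _ := mul_one _
  calc ∫⁻ h, NN2 μ p (fun u z => g u (z - a • h) - g u (z - b • h)) ∂(U m) ≤
      ∫⁻ _h, (K * ENNReal.ofReal (|b - a| ^ α)) ^ 2 ∂(U m) := by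
        apply lintegral_mono_ae
        exact (ae_restrict_iff' measurableSet_Icc).mpr (ae_of_all _ h1)
    _ = _ := by rw [lintegral_const, measure_univ, mul_one]

end

end Pool.Agent.Y183.PQ
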