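import Pool.Agent.Y183.PQ.G
set_option autoImplicit false

/-! From averages to functions of small regularity. -/

namespace Pool.Agent.Y183.PQ

open MeasureTheory Set Filter Topology Complex
open scoped ENNReal NNReal
open Pool.Agent.Y183.PP
open Pool.Agent.W771.MD (qe em)
open Pool.Agent.Y183.LS (BA BA1_vol)

variable {m J : ℕ} {Y 𝓧 : Type} [MeasurableSpace Y] [MeasurableSpace 𝓧]

lemma sq_memLp (H : (Fin m → ℝ) → ℂ) (hH : Measurable H) (Q : Set (Fin m → ℝ))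
    (hH2 : ∫⁻ v in Q, ‖H v‖ₑ ^ 2 ≠ ∞) : MemLp H 2 (volume.restrict Q) := by
  refine ⟨hH.aestronglyMeasurable, ?_⟩
  rw [eLpNorm_lt_top_iff_lintegral_rpow_enorm_lt_top (by norm_num) (by norm_num)]
  simp only [ENNReal.toReal_ofNat, ENNReal.rpow_ofNat]
  exact hH2.lt_top

lemma TT_int (e : Fin J ⊕ Fin J ≃ Fin m) (φ : Fin J → Poly) (H : (Fin m → ℝ) → ℂ)
    (hH : Measurable H) (hH2 : ∫⁻ v, ‖H v‖ₑ ^ 2 ≠ ∞) (y : Fin m → ℝ) (t : ℝ) :
    IntegrableOn (fun v => H v * (tw e φ v * em y t v)) (BA 1 m) := by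
  have hf : IsFiniteMeasure ((volume : Measure (Fin m → ℝ)).restrict (BA 1 m)) := ⟨by
    rw [Measure.restrict_apply_univ]; exact BA1_fin.lt_top⟩
  have h1 : IntegrableOn H (BA 1 m) :=
    (sq_memLp H hH _ (ne_top_of_le_ne_top hH2 (setLIntegral_le_lintegral _ _))).integrable
      (by norm_num)
  exact h1.mul_bdd (c := 1) (W_meas e φ y t).aestronglyMeasurable (ae_of_all _ (W_norm e φ y t))

lemma TT_le (e : Fin J ⊕ Fin J ≃ Fin m) (φ : Fin J → Poly) (H : (Fin m → ℝ) → ℂ)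
    (hH : Measurable H) (y : Fin m → ℝ) (t : ℝ) :
    ‖TT e φ H y t‖ₑ ≤ (∫⁻ v, ‖H v‖ₑ ^ 2) ^ (1 / 2 : ℝ) * (2 ^ m) ^ (1 / 2 : ℝ) := by
  unfold TT
  refine (enorm_integral_le_lintegral_enorm _).trans ?_
  have h1 : ∀ v, ‖H v * (tw e φ v * em y t v)‖ₑ ≤ ‖H v‖ₑ := by
    intro v
    rw [enorm_mul]
    calc ‖H v‖ₑ * ‖tw e φ v * em y t v‖ₑ ≤ ‖H v‖ₑ * 1 := by
          gcongr
          rw [← ofReal_norm, ← ENNReal.ofReal_one]
          exact ENNReal.ofReal_le_ofReal (W_norm e φ y t v)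
      _ = _ := mul_one _
  refine (lintegral_mono h1).trans ((Pool.Agent.Y183.LS.cs_cube H hH).trans ?_)
  gcongr
  exact Measure.restrict_le_self

lemma TT_sub (e : Fin J ⊕ Fin J ≃ Fin m) (φ : Fin J → Poly) (H1 H2 : (Fin m → ℝ) → ℂ)
    (hH1 : Measurable H1) (hH12 : ∫⁻ v, ‖H1 v‖ₑ ^ 2 ≠ ∞) (hH2 : Measurable H2)
    (hH22 : ∫⁻ v, ‖H2 v‖ₑ ^ 2 ≠ ∞) (y : Fin m → ℝ) (t : ℝ) :
    TT e φ (fun v => H1 v - H2 v) y t = TT e φ H1 y t - TT e φ H2 y t := by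
  unfold TT
  rw [← integral_sub (TT_int e φ H1 hH1 hH12 y t) (TT_int e φ H2 hH2 hH22 y t)]
  congr 1
  ext v
  ring

lemma TT_add (e : Fin J ⊕ Fin J ≃ Fin m) (φ : Fin J → Poly) (H1 H2 : (Fin m → ℝ) → ℂ)
    (hH1 : Measurable H1) (hH12 : ∫⁻ v, ‖H1 v‖ₑ ^ 2 ≠ ∞) (hH2 : Measurable H2)
    (hH22 : ∫⁻ v, ‖H2 v‖ₑ ^ 2 ≠ ∞) (y : Fin m → ℝ) (t : ℝ) :
    TT e φ (fun v => H1 v + H2 v) y t = TT e φ H1 y t + TT e φ H2 y t := by
  unfold TT
  rw [← integral_add (TT_int e φ H1 hH1 hH12 y t) (TT_int e φ H2 hH2 hH22 y t)]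
  congr 1
  ext v
  ring

lemma sq_add_le (a b : ℂ) : ‖a + b‖ₑ ^ 2 ≤ 2 * (‖a‖ₑ ^ 2 + ‖b‖ₑ ^ 2) := by
  have h := ENNReal.rpow_add_le_mul_rpow_add_rpow ‖a‖ₑ ‖b‖ₑ (p := 2) (by norm_num)
  simp only [ENNReal.rpow_ofNat] at h
  norm_num at h
  exact (pow_le_pow_left' (enorm_add_le a b) 2).trans h

lemma sq_sub_le (a b : ℂ) : ‖a - b‖ₑ ^ 2 ≤ 2 * (‖a‖ₑ ^ 2 + ‖b‖ₑ ^ 2) := by
  have h := sq_add_le a (-b)
  rwa [enorm_neg, ← sub_eq_add_neg] at h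

/-- convergence of the averages in `L²` under a regularity condition -/
lemma Av_close (δ : ℝ) (hδ : 0 < δ) (G : (Fin m → ℝ) → ℂ) (hG : Measurable G)
    (hG2 : ∫⁻ z, ‖G z‖ₑ ^ 2 ≠ ∞) (B : ℝ≥0∞)
    (hB : ∀ h : Fin m → ℝ, h ∈ UC m → ∫⁻ z, ‖G (z - δ • h) - G z‖ₑ ^ 2 ≤ B) :
    ∫⁻ z, ‖Av δ (Av δ G) z - G z‖ₑ ^ 2 ≤ 4 * B := by
  have h1 : ∫⁻ z, ‖Av δ G z - G z‖ₑ ^ 2 ≤ B := by
    have e : ∀ z, Av δ G z - G z = ∫ h, (G (z - δ • h) - G z) ∂(U m) := by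
      intro z
      rw [integral_sub (Av_ex δ hδ G hG hG2 z) (integrable_const _)]
      simp [Av]
    have hm : Measurable fun a : (Fin m → ℝ) × (Fin m → ℝ) => G (a.1 - δ • a.2) - G a.1 :=
      (hG.comp (sm_meas δ)).sub (hG.comp measurable_fst)
    calc ∫⁻ z, ‖Av δ G z - G z‖ₑ ^ 2 ≤ ∫⁻ z, ∫⁻ h, ‖G (z - δ • h) - G z‖ₑ ^ 2 ∂(U m) := by
          apply lintegral_mono
          intro z
          simp only
          rw [e]
          refine le_trans ?_ (jens (U m) (fun h => ‖G (z - δ • h) - G z‖ₑ)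
            (hm.comp (measurable_const.prodMk measurable_id)).enorm.aemeasurable)
          exact pow_le_pow_left' (enorm_integral_le_lintegral_enorm _) 2
      _ = ∫⁻ h, (∫⁻ z, ‖G (z - δ • h) - G z‖ₑ ^ 2) ∂(U m) :=
          lintegral_lintegral_swap (hm.enorm.pow_const 2).aemeasurable
      _ ≤ ∫⁻ _h, B ∂(U m) := by
          apply lintegral_mono_ae
          exact (ae_restrict_iff' measurableSet_Icc).mpr (ae_of_all _ hB)
      _ = B := by rw [lintegral_const, measure_univ, mul_one]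
  have hA : ∫⁻ z, ‖Av δ G z‖ₑ ^ 2 ≠ ∞ := ne_top_of_le_ne_top hG2 (Av_int2 δ hG)
  have e2 : ∀ z, Av δ (Av δ G) z - G z = Av δ (fun z => Av δ G z - G z) z + (Av δ G z - G z) := by
    intro z
    have : Av δ (fun z => Av δ G z - G z) z = Av δ (Av δ G) z - Av δ G z :=
      integral_sub (Av_ex δ hδ _ (Av_meas δ hG) hA z) (Av_ex δ hδ G hG hG2 z)
    rw [this]
    ring
  have hdm : Measurable fun z => Av δ G z - G z := (Av_meas δ hG).sub hG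
  calc ∫⁻ z, ‖Av δ (Av δ G) z - G z‖ₑ ^ 2 ≤
      ∫⁻ z, 2 * (‖Av δ (fun z => Av δ G z - G z) z‖ₑ ^ 2 + ‖Av δ G z - G z‖ₑ ^ 2) := by
        apply lintegral_mono
        intro z
        simp only
        rw [e2]
        exact sq_add_le _ _
    _ = 2 * ((∫⁻ z, ‖Av δ (fun z => Av δ G z - G z) z‖ₑ ^ 2) + ∫⁻ z, ‖Av δ G z - G z‖ₑ ^ 2) := by
        rw [lintegral_const_mul' _ _ (by norm_num), lintegral_add_right _ (hdm.enorm.pow_const 2)]
    _ ≤ 2 * (B + B) := by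
        exact mul_le_mul_right (add_le_add ((Av_int2 δ hdm).trans h1) h1) _
    _ = 4 * B := by ring

/-- joint measurability -/
lemma Av_joint (δ : ℝ) (G : 𝓧 × ℝ → (Fin m → ℝ) → ℂ) (hG : Measurable (Function.uncurry G)) :
    Measurable (Function.uncurry fun w => Av δ (G w)) := by
  have : (Function.uncurry fun w => Av δ (G w)) = fun a : (𝓧 × ℝ) × (Fin m → ℝ) =>
      ∫ h, G a.1 (a.2 - δ • h) ∂(U m) := rfl
  rw [this]
  apply StronglyMeasurable.measurable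
  apply StronglyMeasurable.integral_prod_right'
    (f := fun b : ((𝓧 × ℝ) × (Fin m → ℝ)) × (Fin m → ℝ) => G b.1.1 (b.1.2 - δ • b.2))
  apply Measurable.stronglyMeasurable
  exact hG.comp (by fun_prop : Measurable fun b : ((𝓧 × ℝ) × (Fin m → ℝ)) × (Fin m → ℝ) =>
    (b.1.1, b.1.2 - δ • b.2))

lemma TT_joint (e : Fin J ⊕ Fin J ≃ Fin m) (φ : Fin J → Poly)
    (G : 𝓧 × ℝ → (Fin m → ℝ) → ℂ) (hG : Measurable (Function.uncurry G)) :
    Measurable fun a : ℝ × (𝓧 × (Fin m → ℝ)) => TT e φ (G (a.2.1, a.1)) a.2.2 a.1 := by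
  unfold TT
  apply StronglyMeasurable.measurable
  apply StronglyMeasurable.integral_prod_right'
    (f := fun b : (ℝ × (𝓧 × (Fin m → ℝ))) × (Fin m → ℝ) =>
      G (b.1.2.1, b.1.1) b.2 * (tw e φ b.2 * em b.1.2.2 b.1.1 b.2))
  apply Measurable.stronglyMeasurable
  apply Measurable.mul
  · exact hG.comp (by fun_prop : Measurable fun b : (ℝ × (𝓧 × (Fin m → ℝ))) × (Fin m → ℝ) =>
      ((b.1.2.1, b.1.1), b.2))
  · apply Measurable.mul ((tw_cont e φ).measurable.comp measurable_snd)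
    unfold Pool.Agent.W771.MD.em qe
    fun_prop

end Pool.Agent.Y183.PQ
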