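import Pool.Agent.Y183.PQ.H
set_option autoImplicit false

/-! The telescoping sum. -/

namespace Pool.Agent.Y183.PQ

open MeasureTheory Set Filter Topology Complex
open scoped ENNReal NNReal
open Pool.Agent.Y183.PP
open Pool.Agent.W771.MD (qe em)
open Pool.Agent.Y183.LS (BA BA1_vol)

variable {m J : ℕ} {Y 𝓧 : Type} [MeasurableSpace Y] [MeasurableSpace 𝓧]

/-- the dyadic scale -/
noncomputable def dy (k : ℕ) : ℝ := (1 / 2) ^ k

lemma dy_pos (k : ℕ) : 0 < dy k := by unfold dy; positivity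

lemma dy_le (k : ℕ) : dy k ≤ 1 := by
  unfold dy
  exact pow_le_one₀ (by norm_num) (by norm_num)

lemma dy_eq (k : ℕ) : dy k = (2 : ℝ) ^ (-(k : ℝ)) := by
  unfold dy
  rw [Real.rpow_neg (by norm_num), Real.rpow_natCast, one_div, inv_pow]

lemma dy_sub (k : ℕ) : |dy k - dy (k + 1)| = dy (k + 1) := by
  have : dy k - dy (k + 1) = dy (k + 1) := by
    unfold dy
    rw [pow_succ]
    ring
  rw [this, abs_of_pos (dy_pos _)]

/-- the pieces of the telescoping sum -/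
noncomputable def Zp (e : Fin J ⊕ Fin J ≃ Fin m) (φ : Fin J → Poly) (μ : Measure Y)
    (κ : 𝓧 × ℝ → Y → ℂ) (g : Y → (Fin m → ℝ) → ℂ) : ℕ → ℝ × (𝓧 × (Fin m → ℝ)) → ℂ
  | 0 => fun a => TT e φ (Av 1 (HF μ κ (h0 g 1) (a.2.1, a.1))) a.2.2 a.1
  | (k + 1) => fun a =>
      TT e φ (Av (dy (k + 1)) (HF μ κ (hk g (dy (k + 1)) (dy k)) (a.2.1, a.1))) a.2.2 a.1 +
      TT e φ (Av (dy k) (HF μ κ (hk g (dy (k + 1)) (dy k)) (a.2.1, a.1))) a.2.2 a.1

section
variable (e : Fin J ⊕ Fin J ≃ Fin m) (φ : Fin J → Poly)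
  (μ : Measure Y) [IsFiniteMeasure μ] (κ : 𝓧 × ℝ → Y → ℂ)
  (hκ : Measurable (Function.uncurry κ)) (hκ1 : ∀ w u, ‖κ w u‖ ≤ 1) (p : ℝ) (hp : 2 ≤ p)
  (g : Y → (Fin m → ℝ) → ℂ) (hg : Measurable (Function.uncurry g)) (hgN : NN2 μ p g ≠ ∞)

include hκ hκ1 hp hg hgN

lemma Gsq (w : 𝓧 × ℝ) : ∫⁻ z, ‖HF μ κ g w z‖ₑ ^ 2 ≠ ∞ :=
  ne_top_of_le_ne_top (gam_fin μ p hp g hg hgN)
    (lintegral_mono fun z => pow_le_pow_left' (HF_le μ κ hκ1 g w z) 2)

/-- the telescoping sum -/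
lemma tele_sum (n : ℕ) (a : ℝ × (𝓧 × (Fin m → ℝ))) :
    TT e φ (Av (dy n) (Av (dy n) (HF μ κ g (a.2.1, a.1)))) a.2.2 a.1 =
      ∑ k ∈ Finset.range (n + 1), Zp e φ μ κ g k a := by
  set w : 𝓧 × ℝ := (a.2.1, a.1) with hw
  set G := HF μ κ g w with hG
  have hGm : Measurable G := (HF_meas μ κ hκ g hg).comp (measurable_const.prodMk measurable_id)
  have hG2 : ∫⁻ z, ‖G z‖ₑ ^ 2 ≠ ∞ := Gsq μ κ hκ hκ1 p hp g hg hgN w
  have hA : ∀ c, ∫⁻ z, ‖Av c G z‖ₑ ^ 2 ≠ ∞ := fun c => ne_top_of_le_ne_top hG2 (Av_int2 c hGm)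
  induction n with
  | zero =>
    have h1 : dy 0 = 1 := by simp [dy]
    rw [h1, Finset.sum_range_one]
    unfold Zp
    have h2 : HF μ κ (h0 g 1) w = Av 1 G := by
      ext v
      exact HF_h0 μ κ hκ hκ1 p hp g hg hgN 1 one_pos w v
    show _ = TT e φ (Av 1 (HF μ κ (h0 g 1) w)) a.2.2 a.1
    rw [h2]
  | succ n ih =>
    rw [Finset.sum_range_succ, ← ih]
    have h2 : HF μ κ (hk g (dy (n + 1)) (dy n)) w = fun z => Av (dy (n + 1)) G z - Av (dy n) G z := by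
      ext v
      exact HF_hk μ κ hκ hκ1 p hp g hg hgN (dy (n + 1)) (dy n) (dy_pos _) (dy_pos _) w v
    have h3 : Av (dy (n + 1)) (Av (dy (n + 1)) G) = fun v => Av (dy n) (Av (dy n) G) v +
        (Av (dy (n + 1)) (fun z => Av (dy (n + 1)) G z - Av (dy n) G z) v +
          Av (dy n) (fun z => Av (dy (n + 1)) G z - Av (dy n) G z) v) := by
      ext v
      exact Av_tel (dy (n + 1)) (dy n) (dy_pos _) (dy_pos _) G hGm hG2 v
    have hLm : Measurable fun z => Av (dy (n + 1)) G z - Av (dy n) G z :=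
      (Av_meas _ hGm).sub (Av_meas _ hGm)
    have hL2 : ∫⁻ z, ‖Av (dy (n + 1)) G z - Av (dy n) G z‖ₑ ^ 2 ≠ ∞ := by
      refine ne_top_of_le_ne_top ?_ (lintegral_mono fun z => sq_sub_le _ _)
      rw [lintegral_const_mul' _ _ (by norm_num),
        lintegral_add_left ((Av_meas _ hGm).enorm.pow_const 2)]
      exact ENNReal.mul_ne_top (by norm_num) (ENNReal.add_ne_top.mpr ⟨hA _, hA _⟩)
    have hLA : ∀ c, ∫⁻ z, ‖Av c (fun z => Av (dy (n + 1)) G z - Av (dy n) G z) z‖ₑ ^ 2 ≠ ∞ :=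
      fun c => ne_top_of_le_ne_top hL2 (Av_int2 c hLm)
    have hAA : ∀ c, ∫⁻ z, ‖Av c (Av c G) z‖ₑ ^ 2 ≠ ∞ := fun c =>
      ne_top_of_le_ne_top (hA c) (Av_int2 c (Av_meas c hGm))
    have hS2 : ∫⁻ z, ‖Av (dy (n + 1)) (fun z => Av (dy (n + 1)) G z - Av (dy n) G z) z +
        Av (dy n) (fun z => Av (dy (n + 1)) G z - Av (dy n) G z) z‖ₑ ^ 2 ≠ ∞ := by
      refine ne_top_of_le_ne_top ?_ (lintegral_mono fun z => sq_add_le _ _)
      rw [lintegral_const_mul' _ _ (by norm_num),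
        lintegral_add_left ((Av_meas _ hLm).enorm.pow_const 2)]
      exact ENNReal.mul_ne_top (by norm_num) (ENNReal.add_ne_top.mpr ⟨hLA _, hLA _⟩)
    have k1 := TT_add e φ (Av (dy n) (Av (dy n) G))
      (fun v => Av (dy (n + 1)) (fun z => Av (dy (n + 1)) G z - Av (dy n) G z) v +
        Av (dy n) (fun z => Av (dy (n + 1)) G z - Av (dy n) G z) v)
      (Av_meas _ (Av_meas _ hGm)) (hAA _) ((Av_meas _ hLm).add (Av_meas _ hLm)) hS2 a.2.2 a.1
    have k2 := TT_add e φ (Av (dy (n + 1)) (fun z => Av (dy (n + 1)) G z - Av (dy n) G z))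
      (Av (dy n) (fun z => Av (dy (n + 1)) G z - Av (dy n) G z)) (Av_meas _ hLm) (hLA _)
      (Av_meas _ hLm) (hLA _) a.2.2 a.1
    rw [h3, k1, k2]
    congr 1
    show _ = TT e φ (Av (dy (n + 1)) (HF μ κ (hk g (dy (n + 1)) (dy n)) w)) a.2.2 a.1 +
      TT e φ (Av (dy n) (HF μ κ (hk g (dy (n + 1)) (dy n)) w)) a.2.2 a.1
    rw [h2]

/-- convergence -/
lemma tele_lim (K : ℝ≥0∞) (hK : K ≠ ∞) (α : ℝ) (hα : 0 < α)
    (hKh : ∀ h : Fin m → ℝ, NN2 μ p (fun u z => g u (z + h) - g u z) ≤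
      (K * ENNReal.ofReal (‖h‖ ^ α)) ^ 2) (a : ℝ × (𝓧 × (Fin m → ℝ))) :
    Tendsto (fun n => TT e φ (Av (dy n) (Av (dy n) (HF μ κ g (a.2.1, a.1)))) a.2.2 a.1) atTop
      (𝓝 (TT e φ (HF μ κ g (a.2.1, a.1)) a.2.2 a.1)) := by
  set w : 𝓧 × ℝ := (a.2.1, a.1) with hw
  set G := HF μ κ g w with hG
  have hGm : Measurable G := (HF_meas μ κ hκ g hg).comp (measurable_const.prodMk measurable_id)
  have hG2 : ∫⁻ z, ‖G z‖ₑ ^ 2 ≠ ∞ := Gsq μ κ hκ hκ1 p hp g hg hgN w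
  set c0 : ℝ≥0∞ := (μ univ) ^ (2 - 2 / p) with hc0
  have hc0t : c0 ≠ ∞ := by
    apply ENNReal.rpow_ne_top_of_nonneg _ (measure_ne_top μ _)
    have : 2 / p ≤ 1 := by
      rw [div_le_one (by linarith)]
      exact hp
    linarith
  -- regularity of `G`
  have hreg : ∀ c : Fin m → ℝ, ∫⁻ z, ‖G (z - c) - G z‖ₑ ^ 2 ≤
      c0 * (K * ENNReal.ofReal (‖c‖ ^ α)) ^ 2 := by
    intro c
    set g' : Y → (Fin m → ℝ) → ℂ := fun u z => g u (z + -c) - g u z with hg'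
    have hg'm : Measurable (Function.uncurry g') := by
      apply Measurable.sub _ hg
      exact hg.comp (by fun_prop : Measurable fun b : Y × (Fin m → ℝ) => (b.1, b.2 + -c))
    have h1 := HF_sq μ κ hκ1 p hp g' hg'm w
    refine le_trans (le_of_eq ?_) (h1.trans (mul_le_mul_right (by
      have := hKh (-c)
      rwa [norm_neg] at this) _))
    apply lintegral_congr_ae
    have hae : ∀ᵐ z : Fin m → ℝ, gam μ g z < ∞ := by
      have h2 := ae_lt_top ((gam_meas μ g hg).pow_const 2) (gam_fin μ p hp g hg hgN)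
      filter_upwards [h2] with z hz
      by_contra hc
      rw [not_lt, top_le_iff] at hc
      rw [hc, ENNReal.top_pow (by norm_num)] at hz
      exact lt_irrefl _ hz
    have hae2 : ∀ᵐ z : Fin m → ℝ, gam μ g (z + -c) < ∞ :=
      (measurePreserving_add_right (volume : Measure (Fin m → ℝ)) (-c)).quasiMeasurePreserving.ae hae
    filter_upwards [hae, hae2] with z h2 h3
    congr 2
    simp only [hG, hg']
    unfold HF
    have hint : ∀ z', gam μ g z' < ∞ → Integrable (fun u => g u z' * κ w u) μ := by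
      intro z' hc
      have hκm : Measurable fun u => κ w u := hκ.comp (measurable_const.prodMk measurable_id)
      refine ⟨((gz_meas g hg _).mul hκm).aestronglyMeasurable, ?_⟩
      unfold HasFiniteIntegral
      refine lt_of_le_of_lt ?_ hc
      unfold gam
      apply lintegral_mono
      intro u
      simp only
      rw [enorm_mul]
      calc ‖g u z'‖ₑ * ‖κ w u‖ₑ ≤ ‖g u z'‖ₑ * 1 := by
            gcongr
            rw [← ofReal_norm, ← ENNReal.ofReal_one]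
            exact ENNReal.ofReal_le_ofReal (hκ1 w u)
        _ = _ := mul_one _
    rw [sub_eq_add_neg z c, ← integral_sub (hint _ h3) (hint _ h2)]
    congr 1
    ext u
    ring
  -- the bound
  have hbd : ∀ n, ‖TT e φ (Av (dy n) (Av (dy n) G)) a.2.2 a.1 - TT e φ G a.2.2 a.1‖ₑ ≤
      (4 * (c0 * (K * ENNReal.ofReal (dy n ^ α)) ^ 2)) ^ (1 / 2 : ℝ) * (2 ^ m) ^ (1 / 2 : ℝ) := by
    intro n
    have hA2 : ∫⁻ z, ‖Av (dy n) (Av (dy n) G) z‖ₑ ^ 2 ≠ ∞ :=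
      ne_top_of_le_ne_top hG2 ((Av_int2 _ (Av_meas _ hGm)).trans (Av_int2 _ hGm))
    rw [← TT_sub e φ _ _ (Av_meas _ (Av_meas _ hGm)) hA2 hGm hG2]
    refine (TT_le e φ _ ((Av_meas _ (Av_meas _ hGm)).sub hGm) _ _).trans ?_
    gcongr
    apply Av_close (dy n) (dy_pos n) G hGm hG2
    intro h hh
    refine (hreg _).trans ?_
    gcongr
    rw [norm_smul, Real.norm_eq_abs, abs_of_pos (dy_pos n)]
    calc dy n * ‖h‖ ≤ dy n * 1 := by
          have := dy_pos n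
          gcongr
          rw [pi_norm_le_iff_of_nonneg zero_le_one]
          intro i
          rw [Real.norm_eq_abs, abs_le]
          exact ⟨by have := hh.1 i; simp only at this; linarith, hh.2 i⟩
      _ = _ := mul_one _
  have hdyl : Tendsto (fun n => ENNReal.ofReal (dy n ^ α)) atTop (𝓝 0) := by
    have h1 : Tendsto dy atTop (𝓝 0) := tendsto_pow_atTop_nhds_zero_of_lt_one (by norm_num)
      (by norm_num)
    have h2 : Tendsto (fun n => dy n ^ α) atTop (𝓝 (0 ^ α)) := h1.rpow_const (Or.inr hα.le)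
    rw [Real.zero_rpow hα.ne'] at h2
    rw [← ENNReal.ofReal_zero]
    exact ENNReal.tendsto_ofReal h2
  have hlim : Tendsto (fun n => (4 * (c0 * (K * ENNReal.ofReal (dy n ^ α)) ^ 2)) ^ (1 / 2 : ℝ) *
      (2 ^ m) ^ (1 / 2 : ℝ)) atTop (𝓝 0) := by
    have h1 : Tendsto (fun n => K * ENNReal.ofReal (dy n ^ α)) atTop (𝓝 (K * 0)) :=
      ENNReal.Tendsto.const_mul hdyl (Or.inr hK)
    have h2 : Tendsto (fun n => (K * ENNReal.ofReal (dy n ^ α)) ^ 2) atTop (𝓝 ((K * 0) ^ 2)) :=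
      ((ENNReal.continuous_pow 2).tendsto _).comp h1
    have h3 : Tendsto (fun n => c0 * (K * ENNReal.ofReal (dy n ^ α)) ^ 2) atTop
        (𝓝 (c0 * (K * 0) ^ 2)) := ENNReal.Tendsto.const_mul h2 (Or.inr hc0t)
    have h4 : Tendsto (fun n => 4 * (c0 * (K * ENNReal.ofReal (dy n ^ α)) ^ 2)) atTop
        (𝓝 (4 * (c0 * (K * 0) ^ 2))) := ENNReal.Tendsto.const_mul h3 (Or.inr (by norm_num))
    have h5 := ((ENNReal.continuous_rpow_const (y := (1 / 2 : ℝ))).tendsto _).comp h4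
    have h6 := ENNReal.Tendsto.mul_const (b := (2 ^ m : ℝ≥0∞) ^ (1 / 2 : ℝ)) h5
      (Or.inr (ENNReal.rpow_ne_top_of_nonneg (by norm_num) (ENNReal.pow_ne_top (by norm_num))))
    have e0 : (4 * (c0 * (K * 0) ^ 2) : ℝ≥0∞) ^ (1 / 2 : ℝ) * (2 ^ m) ^ (1 / 2 : ℝ) = 0 := by
      rw [mul_zero, zero_pow (by norm_num), mul_zero, mul_zero, ENNReal.zero_rpow_of_pos (by norm_num),
        zero_mul]
    rw [e0] at h6
    exact h6
  rw [tendsto_iff_edist_tendsto_0]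
  refine tendsto_of_tendsto_of_tendsto_of_le_of_le tendsto_const_nhds hlim (fun _ => zero_le) ?_
  intro n
  simp only
  rw [edist_eq_enorm_sub]
  exact hbd n

end

end Pool.Agent.Y183.PQ
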