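import Pool.Agent.Y183.PQ.I
set_option autoImplicit false

/-! The passage from averages to functions of small regularity. -/

namespace Pool.Agent.Y183.PQ

open MeasureTheory Set Filter Topology Complex
open scoped ENNReal NNReal
open Pool.Agent.Y183.PP
open Pool.Agent.W771.MD (qe em)
open Pool.Agent.Y183.LS (BA BA1_vol)

variable {m J : ℕ} {Y 𝓧 : Type} [MeasurableSpace Y] [MeasurableSpace 𝓧]

/-- the space-time integral -/
noncomputable def ST (ρ : Measure 𝓧) (q : ℝ) (F : ℝ × (𝓧 × (Fin m → ℝ)) → ℂ) : ℝ≥0∞ :=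
  ∫⁻ t : ℝ, (∫⁻ x, (∫⁻ y : Fin m → ℝ, ‖F (t, (x, y))‖ₑ ^ q) ∂ρ)

lemma ST_eq (ρ : Measure 𝓧) [SFinite ρ] (q : ℝ) (F : ℝ × (𝓧 × (Fin m → ℝ)) → ℂ)
    (hF : Measurable F) : ST ρ q F =
      ∫⁻ a, ‖F a‖ₑ ^ q ∂((volume : Measure ℝ).prod (ρ.prod (volume : Measure (Fin m → ℝ)))) := by
  have hm : Measurable fun a => ‖F a‖ₑ ^ q := hF.enorm.pow_const q
  unfold ST
  rw [lintegral_prod _ hm.aemeasurable]
  apply lintegral_congr
  intro t
  exact (lintegral_prod (fun b : 𝓧 × (Fin m → ℝ) => ‖F (t, b)‖ₑ ^ q)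
    (hm.comp (measurable_const.prodMk measurable_id)).aemeasurable).symm

/-- **from averages to functions** -/
theorem closure (q : ℝ) (hq : 1 < q) (α β : ℝ) (hβ : 0 ≤ β) (hαβ : β < α) : ∃ C1 : ℝ≥0,
    ∀ (m J : ℕ) (Y 𝓧 : Type) [MeasurableSpace Y] [MeasurableSpace 𝓧] (e : Fin J ⊕ Fin J ≃ Fin m)
    (φ : Fin J → Poly) (μ : Measure Y) [IsFiniteMeasure μ] (ρ : Measure 𝓧) [SFinite ρ]
    (κ : 𝓧 × ℝ → Y → ℂ), Measurable (Function.uncurry κ) → (∀ w u, ‖κ w u‖ ≤ 1) →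
    ∀ p : ℝ, 2 ≤ p → ∀ C : ℝ≥0∞,
    (∀ g : Y → (Fin m → ℝ) → ℂ, Measurable (Function.uncurry g) → NN2 μ p g ≠ ∞ →
      ∀ δ : ℝ, 0 < δ → δ ≤ 1 →
      ST ρ q (fun a => TT e φ (Av δ (HF μ κ g (a.2.1, a.1))) a.2.2 a.1) ≤
        (C * ENNReal.ofReal (δ ^ (-β)) * NN2 μ p g ^ (1 / 2 : ℝ)) ^ q) →
    ∀ g : Y → (Fin m → ℝ) → ℂ, Measurable (Function.uncurry g) → ∀ K : ℝ≥0∞, K ≠ ∞ →
      NN2 μ p g ≤ K ^ 2 →
      (∀ h : Fin m → ℝ, NN2 μ p (fun u z => g u (z + h) - g u z) ≤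
        (K * ENNReal.ofReal (‖h‖ ^ α)) ^ 2) →
      ST ρ q (fun a => TT e φ (HF μ κ g (a.2.1, a.1)) a.2.2 a.1) ≤ (C1 * (C * K)) ^ q := by
  have hα : 0 < α := by linarith
  set η : ℝ := α - β with hη
  have hη0 : 0 < η := by rw [hη]; linarith
  set ε : ℝ := η / 2 with hε
  set b : ℕ → ℝ≥0∞ := fun k => ENNReal.ofReal ((2 : ℝ) ^ (-ε * k)) with hb
  have hb0 : ∀ k, b k ≠ 0 := by
    intro k
    simp only [hb, ne_eq, ENNReal.ofReal_eq_zero, not_le]
    positivity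
  have hbt : ∀ k, b k ≠ ∞ := fun k => ENNReal.ofReal_ne_top
  have hbs : ∑' k, b k ≠ ∞ := geo ε (by rw [hε]; positivity)
  set K1 : ℝ≥0∞ := (∑' k, b k) ^ (q - 1) with hK1
  have hK1t : K1 ≠ ∞ := ENNReal.rpow_ne_top_of_nonneg (by linarith) hbs
  set c : ℝ := η * q - ε * (q - 1) with hc
  have hc0 : 0 < c := by
    rw [hc, hε]
    nlinarith
  set K2 : ℝ≥0∞ := ∑' k : ℕ, ENNReal.ofReal ((2 : ℝ) ^ (-c * k)) with hK2
  have hK2t : K2 ≠ ∞ := geo c hc0
  have hq0 : 0 < q := by linarith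
  have hCt : (K1 * (2 ^ q * K2)) ^ (1 / q) ≠ ∞ := by
    apply ENNReal.rpow_ne_top_of_nonneg (by positivity)
    exact ENNReal.mul_ne_top hK1t (ENNReal.mul_ne_top
      (ENNReal.rpow_ne_top_of_nonneg hq0.le (by norm_num)) hK2t)
  refine ⟨((K1 * (2 ^ q * K2)) ^ (1 / q)).toNNReal, ?_⟩
  rw [ENNReal.coe_toNNReal hCt]
  intro m J Y 𝓧 _ _ e φ μ _ ρ _ κ hκ hκ1 p hp C hMain g hg K hK hN hKh
  have hgN : NN2 μ p g ≠ ∞ := ne_top_of_le_ne_top (ENNReal.pow_ne_top hK) hN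
  have hHFm : ∀ g' : Y → (Fin m → ℝ) → ℂ, Measurable (Function.uncurry g') →
      Measurable (Function.uncurry (HF μ κ g')) := fun g' hg' => HF_meas μ κ hκ g' hg'
  have hTm : ∀ (g' : Y → (Fin m → ℝ) → ℂ), Measurable (Function.uncurry g') → ∀ δ : ℝ,
      Measurable fun a : ℝ × (𝓧 × (Fin m → ℝ)) =>
        TT e φ (Av δ (HF μ κ g' (a.2.1, a.1))) a.2.2 a.1 := fun g' hg' δ =>
    TT_joint e φ (fun w => Av δ (HF μ κ g' w)) (Av_joint δ _ (hHFm g' hg'))
  have hZm : ∀ k, Measurable (Zp e φ μ κ g k) := by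
    intro k
    cases k with
    | zero => exact hTm _ (h0_meas g hg 1) 1
    | succ k => exact (hTm _ (hk_meas g hg _ _) _).add (hTm _ (hk_meas g hg _ _) _)
  -- the norm of the pieces
  have hsqr : ∀ X : ℝ≥0∞, (X ^ 2) ^ (1 / 2 : ℝ) = X := by
    intro X
    rw [← ENNReal.rpow_natCast, ← ENNReal.rpow_mul]
    norm_num
  have hpiece : ∀ k, ST ρ q (Zp e φ μ κ g k) ≤
      (2 * (C * K) * ENNReal.ofReal ((2 : ℝ) ^ (-η * k))) ^ q := by
    intro k
    cases k with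
    | zero =>
      have h1 : NN2 μ p (h0 g 1) ≤ K ^ 2 := (NN2_h0 μ p hp g hg 1).trans hN
      have h2 := hMain (h0 g 1) (h0_meas g hg 1) (ne_top_of_le_ne_top (ENNReal.pow_ne_top hK) h1)
        1 one_pos le_rfl
      refine h2.trans ?_
      apply ENNReal.rpow_le_rpow _ hq0.le
      simp only [Real.one_rpow, ENNReal.ofReal_one, mul_one, Nat.cast_zero, mul_zero, Real.rpow_zero]
      calc C * NN2 μ p (h0 g 1) ^ (1 / 2 : ℝ) ≤ C * (K ^ 2) ^ (1 / 2 : ℝ) := by gcongr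
        _ = 1 * (C * K) := by rw [hsqr, one_mul]
        _ ≤ 2 * (C * K) := by gcongr; norm_num
    | succ k =>
      set g' := hk g (dy (k + 1)) (dy k) with hg'
      have hg'm : Measurable (Function.uncurry g') := hk_meas g hg _ _
      have h1 : NN2 μ p g' ≤ (K * ENNReal.ofReal (dy (k + 1) ^ α)) ^ 2 := by
        have := NN2_hk μ p hp g hg (dy (k + 1)) (dy k) K α hα.le hKh
        rwa [dy_sub] at this
      have h1t : NN2 μ p g' ≠ ∞ := ne_top_of_le_ne_top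
        (ENNReal.pow_ne_top (ENNReal.mul_ne_top hK ENNReal.ofReal_ne_top)) h1
      set X : ℝ≥0∞ := C * K * ENNReal.ofReal ((2 : ℝ) ^ (-η * ((k + 1 : ℕ) : ℝ))) with hX
      have hbnd : ∀ δ : ℝ, dy (k + 1) ≤ δ → δ ≤ 1 →
          ST ρ q (fun a => TT e φ (Av δ (HF μ κ g' (a.2.1, a.1))) a.2.2 a.1) ≤ X ^ q := by
        intro δ hδ hδ1
        have hδ0 : 0 < δ := lt_of_lt_of_le (dy_pos _) hδ
        refine (hMain g' hg'm h1t δ hδ0 hδ1).trans ?_
        apply ENNReal.rpow_le_rpow _ hq0.le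
        have hp1 := dy_pos (k + 1)
        calc C * ENNReal.ofReal (δ ^ (-β)) * NN2 μ p g' ^ (1 / 2 : ℝ) ≤
            C * ENNReal.ofReal (dy (k + 1) ^ (-β)) *
              ((K * ENNReal.ofReal (dy (k + 1) ^ α)) ^ 2) ^ (1 / 2 : ℝ) := by
              have hh : δ ^ (-β) ≤ dy (k + 1) ^ (-β) :=
                Real.rpow_le_rpow_of_nonpos hp1 hδ (by linarith)
              gcongr
          _ = C * K * (ENNReal.ofReal (dy (k + 1) ^ (-β)) * ENNReal.ofReal (dy (k + 1) ^ α)) := by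
              rw [hsqr]
              ring
          _ = X := by
              rw [hX, ← ENNReal.ofReal_mul (by positivity), ← Real.rpow_add hp1, dy_eq,
                ← Real.rpow_mul (by norm_num)]
              congr 3
              rw [hη]
              ring
      have hA := hbnd (dy (k + 1)) le_rfl (dy_le _)
      have hB := hbnd (dy k) (by
        unfold dy
        exact pow_le_pow_of_le_one (by norm_num) (by norm_num) (by omega)) (dy_le _)
      have hAm := hTm g' hg'm (dy (k + 1))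
      have hBm := hTm g' hg'm (dy k)
      rw [ST_eq ρ q _ hAm] at hA
      rw [ST_eq ρ q _ hBm] at hB
      rw [ST_eq ρ q _ (hZm (k + 1))]
      have h3 : ∀ a, ‖Zp e φ μ κ g (k + 1) a‖ₑ ^ q ≤ (2 : ℝ≥0∞) ^ (q - 1) *
          (‖TT e φ (Av (dy (k + 1)) (HF μ κ g' (a.2.1, a.1))) a.2.2 a.1‖ₑ ^ q +
            ‖TT e φ (Av (dy k) (HF μ κ g' (a.2.1, a.1))) a.2.2 a.1‖ₑ ^ q) := by
        intro a
        refine le_trans ?_ (ENNReal.rpow_add_le_mul_rpow_add_rpow _ _ hq.le)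
        apply ENNReal.rpow_le_rpow _ hq0.le
        exact enorm_add_le _ _
      refine (lintegral_mono h3).trans ?_
      rw [lintegral_const_mul' _ _ (ENNReal.rpow_ne_top_of_nonneg (by linarith) (by norm_num)),
        lintegral_add_left (hAm.enorm.pow_const q)]
      calc (2 : ℝ≥0∞) ^ (q - 1) * (_ + _) ≤ (2 : ℝ≥0∞) ^ (q - 1) * (X ^ q + X ^ q) :=
            mul_le_mul_right (add_le_add hA hB) _
        _ = (2 : ℝ≥0∞) ^ q * X ^ q := by
            have e1 : (2 : ℝ≥0∞) ^ q = (2 : ℝ≥0∞) ^ (q - 1) * 2 := by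
              nth_rewrite 3 [← ENNReal.rpow_one (2 : ℝ≥0∞)]
              rw [← ENNReal.rpow_add_of_nonneg _ _ (by linarith) zero_le_one]
              congr 1
              ring
            rw [e1]
            ring
        _ = (2 * (C * K) * ENNReal.ofReal ((2 : ℝ) ^ (-η * ((k + 1 : ℕ) : ℝ)))) ^ q := by
            rw [← ENNReal.mul_rpow_of_nonneg _ _ hq0.le, hX]
            congr 1
            ring
  -- the partial sums
  have hpart : ∀ n : ℕ, ∫⁻ a, ‖TT e φ (Av (dy n) (Av (dy n) (HF μ κ g (a.2.1, a.1)))) a.2.2 a.1‖ₑ ^ q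
      ∂((volume : Measure ℝ).prod (ρ.prod (volume : Measure (Fin m → ℝ)))) ≤
      K1 * ((2 * (C * K)) ^ q * K2) := by
    intro n
    set F := Finset.range (n + 1) with hF
    calc ∫⁻ a, ‖TT e φ (Av (dy n) (Av (dy n) (HF μ κ g (a.2.1, a.1)))) a.2.2 a.1‖ₑ ^ q
          ∂((volume : Measure ℝ).prod (ρ.prod (volume : Measure (Fin m → ℝ)))) ≤
        ∫⁻ a, (∑ k ∈ F, b k) ^ (q - 1) * ∑ k ∈ F, b k ^ (1 - q) * ‖Zp e φ μ κ g k a‖ₑ ^ q
          ∂((volume : Measure ℝ).prod (ρ.prod (volume : Measure (Fin m → ℝ)))) := by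
          apply lintegral_mono
          intro a
          simp only
          rw [tele_sum e φ μ κ hκ hκ1 p hp g hg hgN n a]
          refine le_trans ?_ (wsum F b (fun k => ‖Zp e φ μ κ g k a‖ₑ) q hq.le hb0 hbt)
          apply ENNReal.rpow_le_rpow _ hq0.le
          exact enorm_sum_le _ _
      _ = (∑ k ∈ F, b k) ^ (q - 1) * ∑ k ∈ F, b k ^ (1 - q) * ST ρ q (Zp e φ μ κ g k) := by
          rw [lintegral_const_mul', lintegral_finsetSum]
          · congr 1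
            apply Finset.sum_congr rfl
            intro k _
            rw [lintegral_const_mul _ ((hZm k).enorm.pow_const q), ST_eq ρ q _ (hZm k)]
          · intro k _
            exact ((hZm k).enorm.pow_const q).const_mul _
          · apply ENNReal.rpow_ne_top_of_nonneg (by linarith)
            exact (ENNReal.sum_lt_top.mpr fun k _ => (hbt k).lt_top).ne
      _ ≤ K1 * ∑ k ∈ F, b k ^ (1 - q) *
          (2 * (C * K) * ENNReal.ofReal ((2 : ℝ) ^ (-η * k))) ^ q := by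
          exact mul_le_mul' (ENNReal.rpow_le_rpow (ENNReal.sum_le_tsum F) (by linarith))
            (Finset.sum_le_sum fun k _ => mul_le_mul_right (hpiece k) _)
      _ ≤ K1 * ∑' k : ℕ, b k ^ (1 - q) *
          (2 * (C * K) * ENNReal.ofReal ((2 : ℝ) ^ (-η * k))) ^ q := by
          gcongr
          exact ENNReal.sum_le_tsum F
      _ = K1 * ((2 * (C * K)) ^ q * K2) := by
          congr 1
          rw [hK2, ← ENNReal.tsum_mul_left]
          apply tsum_congr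
          intro k
          rw [ENNReal.mul_rpow_of_nonneg _ _ hq0.le, hb]
          simp only
          rw [ENNReal.ofReal_rpow_of_pos (by positivity), ENNReal.ofReal_rpow_of_pos (by positivity),
            ← Real.rpow_mul (by norm_num), ← Real.rpow_mul (by norm_num)]
          have e2 : ENNReal.ofReal ((2 : ℝ) ^ (-c * (k : ℝ))) =
              ENNReal.ofReal ((2 : ℝ) ^ (-ε * (k : ℝ) * (1 - q))) *
                ENNReal.ofReal ((2 : ℝ) ^ (-η * (k : ℝ) * q)) := by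
            rw [← ENNReal.ofReal_mul (by positivity), ← Real.rpow_add (by norm_num)]
            congr 2
            rw [hc]
            ring
          rw [e2]
          ring
  -- Fatou
  have hTTm : Measurable fun a : ℝ × (𝓧 × (Fin m → ℝ)) =>
      TT e φ (HF μ κ g (a.2.1, a.1)) a.2.2 a.1 := TT_joint e φ _ (hHFm g hg)
  rw [ST_eq ρ q _ hTTm]
  have hAAm : ∀ n, Measurable fun a : ℝ × (𝓧 × (Fin m → ℝ)) =>
      ‖TT e φ (Av (dy n) (Av (dy n) (HF μ κ g (a.2.1, a.1)))) a.2.2 a.1‖ₑ ^ q := by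
    intro n
    apply Measurable.pow_const
    apply Measurable.enorm
    exact TT_joint e φ (fun w => Av (dy n) (Av (dy n) (HF μ κ g w)))
      (Av_joint (dy n) _ (Av_joint (dy n) _ (hHFm g hg)))
  have hliminf : ∀ a : ℝ × (𝓧 × (Fin m → ℝ)), ‖TT e φ (HF μ κ g (a.2.1, a.1)) a.2.2 a.1‖ₑ ^ q =
      liminf (fun n => ‖TT e φ (Av (dy n) (Av (dy n) (HF μ κ g (a.2.1, a.1)))) a.2.2 a.1‖ₑ ^ q)
        atTop := by
    intro a
    have h1 := tele_lim e φ μ κ hκ hκ1 p hp g hg hgN K hK α hα hKh a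
    have h2 := ((ENNReal.continuous_rpow_const (y := q)).tendsto _).comp
      ((continuous_enorm.tendsto _).comp h1)
    exact h2.liminf_eq.symm
  calc ∫⁻ a, ‖TT e φ (HF μ κ g (a.2.1, a.1)) a.2.2 a.1‖ₑ ^ q
        ∂((volume : Measure ℝ).prod (ρ.prod (volume : Measure (Fin m → ℝ)))) =
      ∫⁻ a, liminf (fun n => ‖TT e φ (Av (dy n) (Av (dy n) (HF μ κ g (a.2.1, a.1)))) a.2.2 a.1‖ₑ ^ q)
        atTop ∂((volume : Measure ℝ).prod (ρ.prod (volume : Measure (Fin m → ℝ)))) :=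
        lintegral_congr hliminf
    _ ≤ liminf (fun n => ∫⁻ a, ‖TT e φ (Av (dy n) (Av (dy n) (HF μ κ g (a.2.1, a.1)))) a.2.2 a.1‖ₑ ^ q
        ∂((volume : Measure ℝ).prod (ρ.prod (volume : Measure (Fin m → ℝ))))) atTop :=
        lintegral_liminf_le hAAm
    _ ≤ liminf (fun _ : ℕ => K1 * ((2 * (C * K)) ^ q * K2)) atTop :=
        liminf_le_liminf (Eventually.of_forall hpart)
    _ = K1 * ((2 * (C * K)) ^ q * K2) := liminf_const _
    _ = ((K1 * (2 ^ q * K2)) ^ (1 / q) * (C * K)) ^ q := by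
        have e3 : ((K1 * (2 ^ q * K2)) ^ (1 / q) * (C * K)) ^ q =
            K1 * (2 ^ q * K2) * (C * K : ℝ≥0∞) ^ q := by
          rw [ENNReal.mul_rpow_of_nonneg _ _ hq0.le, ← ENNReal.rpow_mul, one_div,
            inv_mul_cancel₀ hq0.ne', ENNReal.rpow_one]
        rw [e3, ENNReal.mul_rpow_of_nonneg 2 _ hq0.le]
        ring

end Pool.Agent.Y183.PQ
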