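import Pool.Agent.Y183.PQ.J
set_option autoImplicit false

/-! The even case: all the variables in pairs. -/

namespace Pool.Agent.Y183.PQ

open MeasureTheory Set Filter Topology Complex
open scoped ENNReal NNReal
open Pool.Agent.Y183.PP
open Pool.Agent.W771.MD (qe em)
open Pool.Agent.Y183.LS (BA BA1_vol)

lemma card_eq {m J : ℕ} (e : Fin J ⊕ Fin J ≃ Fin m) : m = 2 * J := by
  have h := Fintype.card_congr e
  simp only [Fintype.card_sum, Fintype.card_fin] at h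
  omega

/-- choice of the exponent -/
lemma exp_even (J : ℕ) (hJ : 0 < J) (m : ℕ) (hm : m = 2 * J) (q : ℝ)
    (hq : 2 * ((m : ℝ) + 1) / m < q) : ∃ θ : ℝ, 1 / (J : ℝ) < θ ∧ θ ≤ q - 2 ∧
      0 ≤ (m : ℝ) / 2 * θ / q ∧ (m : ℝ) / 2 * θ / q < (m : ℝ) / (2 * (m + 1)) := by
  have hJ0 : (0 : ℝ) < J := by exact_mod_cast hJ
  have hmJ : (m : ℝ) = 2 * J := by rw [hm]; push_cast; ring
  have hm0 : (0 : ℝ) < m := by rw [hmJ]; linarith
  have hq' : 2 * ((m : ℝ) + 1) < q * m := by rwa [div_lt_iff₀ hm0] at hq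
  have hq0 : 0 < q := by
    by_contra hc
    push Not at hc
    nlinarith
  have h1 : 2 / (m : ℝ) < q - 2 := by
    rw [div_lt_iff₀ hm0]
    linarith
  have h2 : 2 / (m : ℝ) < q / (m + 1) := by
    rw [div_lt_div_iff₀ hm0 (by linarith)]
    linarith
  set M := min (q - 2) (q / (m + 1)) with hM
  have h3 : 2 / (m : ℝ) < M := lt_min h1 h2
  have h4 : M ≤ q - 2 := min_le_left _ _
  have h5 : M ≤ q / (m + 1) := min_le_right _ _
  have h6 : 1 / (J : ℝ) = 2 / m := by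
    rw [hmJ]
    field_simp
  have h7 : 0 < 2 / (m : ℝ) := by positivity
  have h9 : 0 < (2 / (m : ℝ) + M) / 2 := by linarith
  refine ⟨(2 / m + M) / 2, by rw [h6]; linarith, by linarith, by positivity, ?_⟩
  rw [div_lt_div_iff₀ hq0 (by linarith)]
  have h8 : (2 / (m : ℝ) + M) / 2 < q / (m + 1) := by linarith
  rw [lt_div_iff₀ (by linarith)] at h8
  nlinarith

lemma cD_pow (D J : ℕ) (θ q : ℝ) (h : θ ≤ q) : (cD D ^ θ) ^ J ≤ (cD D ^ J) ^ q := by
  rw [← ENNReal.rpow_natCast, ← ENNReal.rpow_mul, ← ENNReal.rpow_natCast, ← ENNReal.rpow_mul]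
  apply ENNReal.rpow_le_rpow_of_exponent_le (cD_one D)
  have : (0 : ℝ) ≤ J := Nat.cast_nonneg J
  nlinarith

/-- **the even case** -/
theorem evenT (J : ℕ) (hJ : 0 < J) (m : ℕ) (hm : m = 2 * J) (q : ℝ)
    (hq : 2 * ((m : ℝ) + 1) / m < q) : ∃ C : ℝ≥0, ∀ (D : ℕ) (e : Fin J ⊕ Fin J ≃ Fin m)
    (φ : Fin J → Poly), (∀ j, (φ j).totalDegree ≤ D) → ∀ g : (Fin m → ℝ) → ℂ, Measurable g →
    ∀ K : ℝ≥0∞, K ≠ ∞ → ∫⁻ z, ‖g z‖ₑ ^ 2 ≤ K ^ 2 →
    (∀ h : Fin m → ℝ, ∫⁻ z, ‖g (z + h) - g z‖ₑ ^ 2 ≤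
      (K * ENNReal.ofReal (‖h‖ ^ ((m : ℝ) / (2 * (m + 1))))) ^ 2) →
    ∫⁻ t : ℝ, (∫⁻ y : Fin m → ℝ, ‖TT e φ g y t‖ₑ ^ q) ≤ (C * cD D ^ J * K) ^ q := by
  obtain ⟨θ, hθ1, hθ2, hθ3, hθ4⟩ := exp_even J hJ m hm q hq
  have hJ0 : (0 : ℝ) < J := by exact_mod_cast hJ
  have hθ0 : 0 < θ := lt_trans (by positivity) hθ1
  have hq0 : 0 < q := by linarith
  obtain ⟨C, hC⟩ := stm m J hJ q θ 1 zero_le_one hθ1 hθ2
  obtain ⟨C1, hC1⟩ := closure q (by linarith) ((m : ℝ) / (2 * (m + 1))) ((m : ℝ) / 2 * θ / q) hθ3 hθ4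
  refine ⟨C1 * C ^ (1 / q), ?_⟩
  intro D e φ hφ g hg K hK hN hKh
  have hcl := hC1 m J Unit Unit e φ (Measure.dirac ()) (Measure.dirac ()) (fun _ _ => 1)
    measurable_const (fun _ _ => by simp) 2 le_rfl (((C ^ (1 / q) : ℝ≥0) : ℝ≥0∞) * cD D ^ J) ?_
    (fun _ => g)
    (hg.comp measurable_snd) K hK ?_ ?_
  · refine le_trans (le_of_eq ?_) (hcl.trans (le_of_eq ?_))
    · unfold ST
      apply lintegral_congr
      intro t
      rw [lintegral_dirac]
      unfold HF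
      simp
    · rw [ENNReal.coe_mul]
      congr 1
      ring
  · -- the estimate of the averages
    intro g hg hgN δ hδ hδ1
    have hHF : ∀ w : Unit × ℝ, HF (Measure.dirac ()) (fun _ _ => (1 : ℂ)) g w = g () := by
      intro w
      ext z
      unfold HF
      simp
    set H := g () with hH
    have hHm : Measurable H := hg.comp (measurable_const.prodMk measurable_id)
    have hNe : NN2 (Measure.dirac ()) 2 g = ∫⁻ z, ‖H z‖ₑ ^ 2 := by
      unfold NN2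
      apply lintegral_congr
      intro z
      rw [lintegral_dirac]
      norm_num
      rfl
    rw [hNe] at hgN ⊢
    have h1 := hC D e φ hφ δ hδ Unit (Measure.dirac ()) (fun _ => H) (hHm.comp measurable_snd)
      (fun _ => hgN) ((∫⁻ v, ‖H v‖ₑ ^ 2) ^ ((q - 2) / 2)) (fun z => ‖H z‖ₑ ^ 2)
      (hHm.enorm.pow_const 2) (by
        intro z T _
        rw [lintegral_const, lintegral_const, measure_univ, mul_one, ENNReal.rpow_one,
          Measure.restrict_apply_univ]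
        apply le_of_eq
        ring)
    simp only [hHF]
    unfold ST
    refine h1.trans ?_
    set N := ∫⁻ v, ‖H v‖ₑ ^ 2 with hNd
    have e1 : N ^ ((q - 2) / 2) * N = N ^ (q / 2) := by
      nth_rewrite 2 [← ENNReal.rpow_one N]
      rw [← ENNReal.rpow_add_of_nonneg _ _ (by linarith) zero_le_one]
      congr 1
      ring
    rw [e1, ENNReal.mul_rpow_of_nonneg _ _ hq0.le, ENNReal.mul_rpow_of_nonneg _ _ hq0.le,
      ENNReal.mul_rpow_of_nonneg _ _ hq0.le, ← ENNReal.rpow_mul N,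
      ENNReal.ofReal_rpow_of_pos (by positivity), ← Real.rpow_mul hδ.le,
      ENNReal.coe_rpow_of_nonneg _ (by positivity), ← ENNReal.rpow_mul (C : ℝ≥0∞)]
    have e2 : 1 / q * q = 1 := by field_simp
    have e3 : -((m : ℝ) / 2 * θ / q) * q = -((m : ℝ) / 2 * θ) := by field_simp
    have e4 : 1 / 2 * q = q / 2 := by ring
    rw [e2, e3, e4, ENNReal.rpow_one]
    have h5 := cD_pow D J θ q (by linarith)
    calc C * (cD D ^ θ) ^ J * ENNReal.ofReal (δ ^ (-((m : ℝ) / 2 * θ))) * N ^ (q / 2) ≤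
        C * (cD D ^ J) ^ q * ENNReal.ofReal (δ ^ (-((m : ℝ) / 2 * θ))) * N ^ (q / 2) := by gcongr
      _ = _ := by ring
  · refine le_trans (le_of_eq ?_) hN
    unfold NN2
    apply lintegral_congr
    intro z
    rw [lintegral_dirac]
    norm_num
  · intro h
    refine le_trans (le_of_eq ?_) (hKh h)
    unfold NN2
    apply lintegral_congr
    intro z
    rw [lintegral_dirac]
    norm_num

end Pool.Agent.Y183.PQ
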