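import Pool.Agent.Y183.PQ.K
set_option autoImplicit false

/-! The odd case: one further variable. -/

namespace Pool.Agent.Y183.PQ

open MeasureTheory Set Filter Topology Complex
open scoped ENNReal NNReal
open Pool.Agent.Y183.PP
open Pool.Agent.W771.MD (qe em)
open Pool.Agent.W771 (II N2 M2 E1 ph)
open Pool.Agent.Y183.LS (BA BA1_vol)

variable {m : ℕ}

/-- the measure of the rough variable -/
noncomputable abbrev mI : Measure ℝ := volume.restrict II

instance : IsFiniteMeasure mI := ⟨by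
  rw [Measure.restrict_apply_univ, Real.volume_Icc]
  exact ENNReal.ofReal_lt_top⟩

/-- the kernel of the rough variable -/
noncomputable def kp (w : ℝ × ℝ) (u : ℝ) : ℂ := ph (-4 * Real.pi * w.1) (-8 * Real.pi * w.2) u

lemma kp_meas : Measurable (Function.uncurry kp) := by
  apply Continuous.measurable
  unfold kp Pool.Agent.W771.ph
  fun_prop

lemma kp_norm (w : ℝ × ℝ) (u : ℝ) : ‖kp w u‖ ≤ 1 := (Pool.Agent.W771.ph_norm _ _ _).le

/-- the cut function -/
noncomputable def cutI {Λ : Type} (g : ℝ → Λ → ℂ) (u : ℝ) (l : Λ) : ℂ := II.indicator (fun u => g u l) u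

lemma cutI_meas {Λ : Type} [MeasurableSpace Λ] (g : ℝ → Λ → ℂ) (hg : Measurable (Function.uncurry g)) :
    Measurable (Function.uncurry (cutI g)) := by
  have : Function.uncurry (cutI g) = (Prod.fst ⁻¹' II).indicator (Function.uncurry g) := by
    ext w
    rfl
  rw [this]
  exact hg.indicator (measurable_fst measurableSet_Icc)

lemma cutI_zero {Λ : Type} (g : ℝ → Λ → ℂ) (u : ℝ) (hu : u ∉ II) (l : Λ) : cutI g u l = 0 :=
  indicator_of_notMem hu _

lemma cutI_mem {Λ : Type} (g : ℝ → Λ → ℂ) (u : ℝ) (hu : u ∈ II) (l : Λ) : cutI g u l = g u l :=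
  indicator_of_mem hu _

lemma E1_cut {Λ : Type} (g : ℝ → Λ → ℂ) (x t : ℝ) (l : Λ) :
    E1 (cutI g) (-4 * Real.pi * x) (-8 * Real.pi * t) l = ∫ u, g u l * kp (x, t) u ∂mI := by
  unfold Pool.Agent.W771.E1
  rw [← integral_indicator measurableSet_Icc]
  congr 1
  ext u
  by_cases hu : u ∈ II
  · rw [indicator_of_mem hu, cutI_mem g u hu]
    rfl
  · rw [indicator_of_notMem hu, cutI_zero g u hu, zero_mul]

/-- **the local estimate in time** -/
lemma TH_odd (m : ℕ) (hm : 1 ≤ m) (q p : ℝ) (hq2 : 2 < q) (hq : 2 < ((m : ℝ) + 1) * (q - 2))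
    (hp2 : 2 ≤ p) (hp : ((m : ℝ) + 1) * q < p * ((m + 1) * (q - 1) - 2)) : ∃ C : ℝ≥0, C ≠ 0 ∧
    ∀ g : ℝ → (Fin m → ℝ) → ℂ, Measurable (Function.uncurry g) → ∀ A : ℝ≥0∞, A ≠ 0 → A ≠ ∞ →
    NN2 mI p g ≤ A ^ 2 → ∀ (z : Fin m → ℝ) (T : Set ℝ), MeasurableSet T →
      ∫⁻ t in T, (∫⁻ x, (∫⁻ v, ‖HF mI kp g (x, t) v‖ₑ ^ 2) ^ ((q - 2) / 2) *
        ‖HF mI kp g (x, t) z‖ₑ ^ 2) ≤
      (C * A ^ (q - 2)) * (volume T) ^ ((m : ℝ) / (m + 1)) * (∫⁻ u, ‖g u z‖ₑ ^ p ∂mI) ^ (2 / p) := by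
  have hm0 : (1 : ℝ) ≤ m := by exact_mod_cast hm
  have hq0 : 0 < q := by linarith
  have hp0 : 0 < p := by linarith
  obtain ⟨C2, hC2⟩ := Pool.Agent.W771.MD.oneVar_hom (m + 1) (by omega) q p (by push_cast; linarith)
    hp0 (by push_cast; linarith)
  set C3 : ℝ≥0 := C2 + 1 with hC3
  have hC23 : (C2 : ℝ≥0∞) ≤ C3 := by rw [hC3]; push_cast; exact le_self_add
  have hC30 : C3 ≠ 0 := by rw [hC3]; positivity
  set n1 : ℝ := 1 / ((m : ℝ) + 1) with hn1
  have hn10 : 0 < n1 := by rw [hn1]; positivity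
  refine ⟨C3 ^ n1, by positivity, ?_⟩
  intro g hg A hA0 hAt hN z T hT
  have hcm := cutI_meas g hg
  have hHm := HF_meas mI kp kp_meas g hg
  have hHz : Measurable fun w : ℝ × ℝ => HF mI kp g w z :=
    hHm.comp (measurable_id.prodMk measurable_const)
  have hNm : Measurable fun w : ℝ × ℝ => ∫⁻ v, ‖HF mI kp g w v‖ₑ ^ 2 :=
    Measurable.lintegral_prod_right' (f := fun w : (ℝ × ℝ) × (Fin m → ℝ) => ‖HF mI kp g w.1 w.2‖ₑ ^ 2)
      (hHm.enorm.pow_const 2)
  -- the estimate of the square function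
  have hS : ∫⁻ u in II, N2 (volume : Measure (Fin m → ℝ)) (cutI g) u ^ (p / 2) ≤ A ^ p := by
    have h1 := mink mI (volume : Measure (Fin m → ℝ)) (p / 2) (by linarith)
      (fun w => ‖g w.1 w.2‖ₑ ^ 2) (hg.enorm.pow_const 2)
    have e1 : ∫⁻ u in II, N2 (volume : Measure (Fin m → ℝ)) (cutI g) u ^ (p / 2) =
        ∫⁻ u, (∫⁻ l, ‖g u l‖ₑ ^ 2) ^ (p / 2) ∂mI := by
      apply setLIntegral_congr_fun measurableSet_Icc
      intro u hu
      simp only
      unfold Pool.Agent.W771.N2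
      simp only [cutI_mem g u hu]
    rw [e1]
    refine h1.trans ?_
    have e2 : ∀ l : Fin m → ℝ, (∫⁻ u, (‖g u l‖ₑ ^ 2) ^ (p / 2) ∂mI) ^ (1 / (p / 2)) =
        (∫⁻ u, ‖g u l‖ₑ ^ p ∂mI) ^ (2 / p) := by
      intro l
      congr 1
      · apply lintegral_congr
        intro u
        rw [← ENNReal.rpow_natCast, ← ENNReal.rpow_mul]
        congr 1
        push_cast
        ring
      · field_simp
    simp only [e2]
    calc (∫⁻ l, (∫⁻ u, ‖g u l‖ₑ ^ p ∂mI) ^ (2 / p)) ^ (p / 2) ≤ (A ^ 2) ^ (p / 2) :=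
          ENNReal.rpow_le_rpow hN (by linarith)
      _ = A ^ p := by
          rw [← ENNReal.rpow_natCast, ← ENNReal.rpow_mul]
          congr 1
          push_cast
          ring
  have hMa := hC2 (Fin m → ℝ) volume (cutI g) hcm (cutI_zero g) A hA0 hAt hS
  have eM : ∀ x t, M2 (volume : Measure (Fin m → ℝ)) (cutI g) (-4 * Real.pi * x) (-8 * Real.pi * t) =
      ∫⁻ v, ‖HF mI kp g (x, t) v‖ₑ ^ 2 := by
    intro x t
    unfold Pool.Agent.W771.M2
    apply lintegral_congr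
    intro l
    rw [E1_cut]
    rfl
  simp only [eM] at hMa
  -- the estimate at the point
  set R : ℝ≥0∞ := ∫⁻ u, ‖g u z‖ₑ ^ p ∂mI with hR
  have hHz0 : R = 0 → ∀ w, HF mI kp g w z = 0 := by
    intro h w
    have hgz : Measurable fun u => ‖g u z‖ₑ ^ p := (gz_meas g hg z).enorm.pow_const p
    rw [hR, lintegral_eq_zero_iff hgz] at h
    unfold HF
    apply integral_eq_zero_of_ae
    filter_upwards [h] with u hu
    have h3 : ‖g u z‖ₑ = 0 := by
      have h4 : ‖g u z‖ₑ ^ p = 0 := hu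
      rw [ENNReal.rpow_eq_zero_iff] at h4
      rcases h4 with h4 | h4
      · exact h4.1
      · exact absurd h4.2 (by linarith)
    rw [enorm_eq_zero] at h3
    simp [h3]
  by_cases hT0 : volume T = 0
  · have : (volume : Measure ℝ).restrict T = 0 := Measure.restrict_eq_zero.mpr hT0
    rw [this, lintegral_zero_measure]
    exact zero_le
  by_cases hR0 : R = 0
  · have h1 := hHz0 hR0
    simp only [h1]
    simp
  by_cases hRt : R = ∞
  · rw [hRt, ENNReal.top_rpow_of_pos (by positivity), ENNReal.mul_top]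
    · exact le_top
    · apply mul_ne_zero
      · apply mul_ne_zero
        · rw [ENNReal.coe_ne_zero]
          positivity
        · exact (ENNReal.rpow_pos (pos_iff_ne_zero.mpr hA0) hAt).ne'
      · intro hc
        rw [ENNReal.rpow_eq_zero_iff] at hc
        rcases hc with hc | hc
        · exact hT0 hc.1
        · have : (0 : ℝ) ≤ (m : ℝ) / (m + 1) := by positivity
          linarith [hc.2]
  set Az : ℝ≥0∞ := R ^ (1 / p) with hAz
  have hAz0 : Az ≠ 0 := (ENNReal.rpow_pos (pos_iff_ne_zero.mpr hR0) hRt).ne'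
  have hAzt : Az ≠ ∞ := ENNReal.rpow_ne_top_of_nonneg (by positivity) hRt
  have hAzp : Az ^ p = R := by
    rw [hAz, ← ENNReal.rpow_mul, one_div, inv_mul_cancel₀ hp0.ne', ENNReal.rpow_one]
  set gz : ℝ → Unit → ℂ := fun u _ => g u z with hgz
  have hgzm : Measurable (Function.uncurry gz) := (gz_meas g hg z).comp measurable_fst
  have hSz : ∫⁻ u in II, N2 (Measure.dirac ()) (cutI gz) u ^ (p / 2) ≤ Az ^ p := by
    rw [hAzp, hR]
    apply le_of_eq
    apply setLIntegral_congr_fun measurableSet_Icc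
    intro u hu
    simp only
    unfold Pool.Agent.W771.N2
    rw [lintegral_dirac, cutI_mem gz u hu, ← ENNReal.rpow_natCast, ← ENNReal.rpow_mul]
    congr 1
    push_cast
    ring
  have hMz := hC2 Unit (Measure.dirac ()) (cutI gz) (cutI_meas gz hgzm) (cutI_zero gz) Az hAz0 hAzt
    hSz
  have eMz : ∀ x t, M2 (Measure.dirac ()) (cutI gz) (-4 * Real.pi * x) (-8 * Real.pi * t) ^ (q / 2) =
      ‖HF mI kp g (x, t) z‖ₑ ^ q := by
    intro x t
    unfold Pool.Agent.W771.M2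
    rw [lintegral_dirac, E1_cut, ← ENNReal.rpow_natCast, ← ENNReal.rpow_mul]
    congr 1
    push_cast
    ring
  simp only [eMz] at hMz
  -- Hölder in `x`
  set a : ℝ → ℝ≥0∞ := fun t => ∫⁻ x, (∫⁻ v, ‖HF mI kp g (x, t) v‖ₑ ^ 2) ^ (q / 2) with ha
  set b : ℝ → ℝ≥0∞ := fun t => ∫⁻ x, ‖HF mI kp g (x, t) z‖ₑ ^ q with hb
  have hs1 : 0 ≤ (q - 2) / q := by
    apply div_nonneg <;> linarith
  have hs2 : 0 ≤ 2 / q := by positivity
  have hs12 : (q - 2) / q + 2 / q = 1 := by field_simp; ring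
  have ham : Measurable a := by
    have h1 : Measurable fun w : ℝ × ℝ => (∫⁻ v, ‖HF mI kp g (w.2, w.1) v‖ₑ ^ 2) ^ (q / 2) :=
      (hNm.comp measurable_swap).pow_const _
    exact Measurable.lintegral_prod_right' h1
  have hbm : Measurable b := by
    have h1 : Measurable fun w : ℝ × ℝ => ‖HF mI kp g (w.2, w.1) z‖ₑ ^ q :=
      (hHz.comp measurable_swap).enorm.pow_const q
    exact Measurable.lintegral_prod_right' h1
  have hx : ∀ t, ∫⁻ x, (∫⁻ v, ‖HF mI kp g (x, t) v‖ₑ ^ 2) ^ ((q - 2) / 2) *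
      ‖HF mI kp g (x, t) z‖ₑ ^ 2 ≤ a t ^ ((q - 2) / q) * b t ^ (2 / q) := by
    intro t
    have h1 := ENNReal.lintegral_mul_norm_pow_le (μ := (volume : Measure ℝ))
      (f := fun x => (∫⁻ v, ‖HF mI kp g (x, t) v‖ₑ ^ 2) ^ (q / 2))
      (g := fun x => ‖HF mI kp g (x, t) z‖ₑ ^ q)
      ((hNm.comp (measurable_id.prodMk measurable_const)).pow_const _).aemeasurable
      ((hHz.comp (measurable_id.prodMk measurable_const)).enorm.pow_const q).aemeasurable
      hs1 hs2 hs12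
    refine le_trans (le_of_eq ?_) h1
    apply lintegral_congr
    intro x
    rw [← ENNReal.rpow_mul, ← ENNReal.rpow_mul, ← ENNReal.rpow_natCast]
    congr 2
    · field_simp
    · push_cast
      field_simp
  -- Hölder in time
  set c : ℝ → ℝ≥0∞ := fun t => a t ^ ((q - 2) / q) * b t ^ (2 / q) with hc
  have hcm' : Measurable c := (ham.pow_const _).mul (hbm.pow_const _)
  have hnn : (m : ℝ) / (m + 1) + n1 = 1 := by
    rw [hn1]
    field_simp
  have ht1 : ∫⁻ t in T, c t ≤ volume T ^ ((m : ℝ) / (m + 1)) * (∫⁻ t, c t ^ (m + 1)) ^ n1 := by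
    have h1 := ENNReal.lintegral_mul_norm_pow_le (μ := (volume : Measure ℝ).restrict T)
      (f := fun _ => (1 : ℝ≥0∞)) (g := fun t => c t ^ (m + 1)) aemeasurable_const
      (hcm'.pow_const _).aemeasurable (p := (m : ℝ) / (m + 1)) (q := n1) (by positivity) hn10.le hnn
    have e1 : ∀ t, (1 : ℝ≥0∞) ^ ((m : ℝ) / (m + 1)) * (c t ^ (m + 1)) ^ n1 = c t := by
      intro t
      rw [ENNReal.one_rpow, one_mul, ← ENNReal.rpow_natCast, ← ENNReal.rpow_mul, hn1]
      push_cast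
      rw [mul_one_div, div_self (by positivity), ENNReal.rpow_one]
    simp only [e1, lintegral_one, Measure.restrict_apply_univ] at h1
    refine h1.trans ?_
    gcongr
    exact Measure.restrict_le_self
  have ht2 : ∫⁻ t, c t ^ (m + 1) ≤ (∫⁻ t, a t ^ (m + 1)) ^ ((q - 2) / q) *
      (∫⁻ t, b t ^ (m + 1)) ^ (2 / q) := by
    have h1 := ENNReal.lintegral_mul_norm_pow_le (μ := (volume : Measure ℝ))
      (f := fun t => a t ^ (m + 1)) (g := fun t => b t ^ (m + 1))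
      (ham.pow_const _).aemeasurable (hbm.pow_const _).aemeasurable hs1 hs2 hs12
    refine le_trans (le_of_eq ?_) h1
    apply lintegral_congr
    intro t
    rw [hc]
    simp only
    rw [mul_pow, ← ENNReal.rpow_natCast, ← ENNReal.rpow_natCast, ← ENNReal.rpow_natCast,
      ← ENNReal.rpow_natCast, ← ENNReal.rpow_mul, ← ENNReal.rpow_mul, ← ENNReal.rpow_mul,
      ← ENNReal.rpow_mul]
    congr 2 <;> ring
  calc ∫⁻ t in T, (∫⁻ x, (∫⁻ v, ‖HF mI kp g (x, t) v‖ₑ ^ 2) ^ ((q - 2) / 2) *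
        ‖HF mI kp g (x, t) z‖ₑ ^ 2) ≤ ∫⁻ t in T, c t := lintegral_mono fun t => hx t
    _ ≤ volume T ^ ((m : ℝ) / (m + 1)) * (∫⁻ t, c t ^ (m + 1)) ^ n1 := ht1
    _ ≤ volume T ^ ((m : ℝ) / (m + 1)) * ((C3 * A ^ (q * ((m + 1 : ℕ) : ℝ))) ^ ((q - 2) / q) *
        (C3 * Az ^ (q * ((m + 1 : ℕ) : ℝ))) ^ (2 / q)) ^ n1 := by
        gcongr
        refine ht2.trans (mul_le_mul' (ENNReal.rpow_le_rpow (hMa.trans (by gcongr)) hs1)
          (ENNReal.rpow_le_rpow (hMz.trans (by gcongr)) hs2))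
    _ = _ := by
        have e5 : ((C3 * A ^ (q * ((m + 1 : ℕ) : ℝ))) ^ ((q - 2) / q) *
            (C3 * Az ^ (q * ((m + 1 : ℕ) : ℝ))) ^ (2 / q)) ^ n1 =
            (C3 : ℝ≥0∞) ^ n1 * (A ^ (q - 2) * Az ^ (2 : ℝ)) := by
          rw [ENNReal.mul_rpow_of_nonneg _ _ hs1, ENNReal.mul_rpow_of_nonneg _ _ hs2]
          have e6 : (C3 : ℝ≥0∞) ^ ((q - 2) / q) * (A ^ (q * ((m + 1 : ℕ) : ℝ))) ^ ((q - 2) / q) *
              ((C3 : ℝ≥0∞) ^ (2 / q) * (Az ^ (q * ((m + 1 : ℕ) : ℝ))) ^ (2 / q)) =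
              (C3 : ℝ≥0∞) * ((A ^ (q * ((m + 1 : ℕ) : ℝ))) ^ ((q - 2) / q) *
                (Az ^ (q * ((m + 1 : ℕ) : ℝ))) ^ (2 / q)) := by
            have e7 : (C3 : ℝ≥0∞) = (C3 : ℝ≥0∞) ^ ((q - 2) / q) * (C3 : ℝ≥0∞) ^ (2 / q) := by
              rw [← ENNReal.rpow_add_of_nonneg _ _ hs1 hs2, hs12, ENNReal.rpow_one]
            nth_rewrite 3 [e7]
            ring
          rw [e6, ENNReal.mul_rpow_of_nonneg _ _ hn10.le, ENNReal.mul_rpow_of_nonneg _ _ hn10.le,
            ← ENNReal.rpow_mul, ← ENNReal.rpow_mul, ← ENNReal.rpow_mul, ← ENNReal.rpow_mul]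
          congr 3
          · rw [hn1]
            push_cast
            field_simp
          · rw [hn1]
            push_cast
            field_simp
        have e8 : Az ^ (2 : ℝ) = R ^ (2 / p) := by
          rw [hAz, ← ENNReal.rpow_mul]
          congr 1
          ring
        rw [e5, e8, ENNReal.coe_rpow_of_nonneg _ hn10.le]
        ring

end Pool.Agent.Y183.PQ
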