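import Pool.Agent.Y183.PQ.L
set_option autoImplicit false

/-! The odd case: the estimate. -/

namespace Pool.Agent.Y183.PQ

open MeasureTheory Set Filter Topology Complex
open scoped ENNReal NNReal
open Pool.Agent.Y183.PP
open Pool.Agent.W771.MD (qe em)
open Pool.Agent.W771 (II N2 M2 E1 ph)
open Pool.Agent.Y183.LS (BA BA1_vol)

/-- choice of the exponent -/
lemma exp_odd (J : ℕ) (hJ : 0 < J) (m : ℕ) (hm : m = 2 * J) (q : ℝ)
    (hq : 2 * ((m : ℝ) + 2) / (m + 1) < q) : ∃ θ : ℝ, (m : ℝ) / (m + 1) / J < θ ∧ θ ≤ q - 2 ∧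
      0 ≤ (m : ℝ) / 2 * θ / q ∧ (m : ℝ) / 2 * θ / q < (m : ℝ) / (2 * (m + 2)) := by
  have hJ0 : (0 : ℝ) < J := by exact_mod_cast hJ
  have hmJ : (m : ℝ) = 2 * J := by rw [hm]; push_cast; ring
  have hm0 : (0 : ℝ) < m := by rw [hmJ]; linarith
  have hq' : 2 * ((m : ℝ) + 2) < q * (m + 1) := by rwa [div_lt_iff₀ (by linarith)] at hq
  have hq0 : 0 < q := by
    by_contra hc
    push Not at hc
    nlinarith
  have h1 : 2 / ((m : ℝ) + 1) < q - 2 := by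
    rw [div_lt_iff₀ (by linarith)]
    linarith
  have h2 : 2 / ((m : ℝ) + 1) < q / (m + 2) := by
    rw [div_lt_div_iff₀ (by linarith) (by linarith)]
    linarith
  set M := min (q - 2) (q / (m + 2)) with hM
  have h3 : 2 / ((m : ℝ) + 1) < M := lt_min h1 h2
  have h4 : M ≤ q - 2 := min_le_left _ _
  have h5 : M ≤ q / (m + 2) := min_le_right _ _
  have h6 : (m : ℝ) / (m + 1) / J = 2 / (m + 1) := by
    rw [hmJ]
    field_simp
  have h7 : 0 < 2 / ((m : ℝ) + 1) := by positivity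
  have h9 : 0 < (2 / ((m : ℝ) + 1) + M) / 2 := by linarith
  refine ⟨(2 / (m + 1) + M) / 2, by rw [h6]; linarith, by linarith, by positivity, ?_⟩
  rw [div_lt_div_iff₀ hq0 (by linarith)]
  have h8 : (2 / ((m : ℝ) + 1) + M) / 2 < q / (m + 2) := by linarith
  rw [lt_div_iff₀ (by linarith)] at h8
  nlinarith

/-- **the odd case** -/
theorem oddT (J : ℕ) (hJ : 0 < J) (m : ℕ) (hm : m = 2 * J) (q p : ℝ)
    (hq : 2 * ((m : ℝ) + 2) / (m + 1) < q) (hp2 : 2 ≤ p)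
    (hp : ((m : ℝ) + 1) * q < p * ((m + 1) * (q - 1) - 2)) : ∃ C : ℝ≥0,
    ∀ (D : ℕ) (e : Fin J ⊕ Fin J ≃ Fin m) (φ : Fin J → Poly), (∀ j, (φ j).totalDegree ≤ D) →
    ∀ g : ℝ → (Fin m → ℝ) → ℂ, Measurable (Function.uncurry g) →
    ∀ K : ℝ≥0∞, K ≠ ∞ → NN2 mI p g ≤ K ^ 2 →
    (∀ h : Fin m → ℝ, NN2 mI p (fun u z => g u (z + h) - g u z) ≤
      (K * ENNReal.ofReal (‖h‖ ^ ((m : ℝ) / (2 * (m + 2))))) ^ 2) →
    ∫⁻ t : ℝ, (∫⁻ x : ℝ, (∫⁻ y : Fin m → ℝ, ‖TT e φ (HF mI kp g (x, t)) y t‖ₑ ^ q)) ≤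
      (C * cD D ^ J * K) ^ q := by
  obtain ⟨θ, hθ1, hθ2, hθ3, hθ4⟩ := exp_odd J hJ m hm q hq
  have hJ0 : (0 : ℝ) < J := by exact_mod_cast hJ
  have hm1 : 1 ≤ m := by omega
  have hm0 : (1 : ℝ) ≤ m := by exact_mod_cast hm1
  have hθ0 : 0 < θ := lt_of_le_of_lt (by positivity) hθ1
  have hq2 : 2 < q := by linarith
  have hq0 : 0 < q := by linarith
  have hq' : 2 < ((m : ℝ) + 1) * (q - 2) := by
    rw [div_lt_iff₀ (by linarith)] at hq
    nlinarith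
  obtain ⟨C, hC⟩ := stm m J hJ q θ ((m : ℝ) / (m + 1)) (by positivity) hθ1 hθ2
  obtain ⟨C0, hC00, hC0⟩ := TH_odd m hm1 q p hq2 hq' hp2 hp
  obtain ⟨C1, hC1⟩ := closure q (by linarith) ((m : ℝ) / (2 * (m + 2))) ((m : ℝ) / 2 * θ / q) hθ3 hθ4
  refine ⟨C1 * (C * C0) ^ (1 / q), ?_⟩
  intro D e φ hφ g hg K hK hN hKh
  have hcl := hC1 m J ℝ ℝ e φ mI volume kp kp_meas kp_norm p hp2
    ((((C * C0) ^ (1 / q) : ℝ≥0) : ℝ≥0∞) * cD D ^ J) ?_ g hg K hK hN hKh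
  · refine hcl.trans (le_of_eq ?_)
    rw [ENNReal.coe_mul]
    congr 1
    ring
  · -- the estimate of the averages
    intro g hg hgN δ hδ hδ1
    -- a positive constant
    set N := NN2 mI p g with hNd
    have key : ∀ A : ℝ≥0∞, A ≠ 0 → A ≠ ∞ → N ≤ A ^ 2 →
        ST volume q (fun a => TT e φ (Av δ (HF mI kp g (a.2.1, a.1))) a.2.2 a.1) ≤
          C * (cD D ^ θ) ^ J * ENNReal.ofReal (δ ^ (-((m : ℝ) / 2 * θ))) *
            ((C0 * A ^ (q - 2)) * N) := by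
      intro A hA0 hAt hNA
      have hΨ : Measurable fun z : Fin m → ℝ => (∫⁻ u, ‖g u z‖ₑ ^ p ∂mI) ^ (2 / p) := by
        apply Measurable.pow_const
        exact Measurable.lintegral_prod_right' (f := fun w : (Fin m → ℝ) × ℝ => ‖g w.2 w.1‖ₑ ^ p)
          ((hg.comp measurable_swap).enorm.pow_const p)
      exact hC D e φ hφ δ hδ ℝ volume (HF mI kp g) (HF_meas mI kp kp_meas g hg)
        (fun w => Gsq mI kp kp_meas kp_norm p hp2 g hg hgN w) (C0 * A ^ (q - 2))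
        (fun z => (∫⁻ u, ‖g u z‖ₑ ^ p ∂mI) ^ (2 / p)) hΨ (hC0 g hg A hA0 hAt hNA)
    have hgoal : ∀ X : ℝ≥0∞, ST volume q (fun a => TT e φ (Av δ (HF mI kp g (a.2.1, a.1))) a.2.2 a.1) ≤
        C * (cD D ^ θ) ^ J * ENNReal.ofReal (δ ^ (-((m : ℝ) / 2 * θ))) * (C0 * X ^ q) → X ^ 2 = N →
        ST volume q (fun a => TT e φ (Av δ (HF mI kp g (a.2.1, a.1))) a.2.2 a.1) ≤
          ((((C * C0) ^ (1 / q) : ℝ≥0) : ℝ≥0∞) * cD D ^ J *
            ENNReal.ofReal (δ ^ (-((m : ℝ) / 2 * θ / q))) * N ^ (1 / 2 : ℝ)) ^ q := by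
      intro X h1 h2
      refine h1.trans ?_
      have e4 : N ^ (1 / 2 : ℝ) = X := by
        rw [← h2, ← ENNReal.rpow_natCast, ← ENNReal.rpow_mul]
        norm_num
      rw [e4, ENNReal.mul_rpow_of_nonneg _ _ hq0.le, ENNReal.mul_rpow_of_nonneg _ _ hq0.le,
        ENNReal.mul_rpow_of_nonneg _ _ hq0.le,
        ENNReal.ofReal_rpow_of_pos (by positivity), ← Real.rpow_mul hδ.le,
        ENNReal.coe_rpow_of_nonneg _ (by positivity), ← ENNReal.rpow_mul ((C * C0 : ℝ≥0) : ℝ≥0∞)]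
      have e2 : 1 / q * q = 1 := by field_simp
      have e3 : -((m : ℝ) / 2 * θ / q) * q = -((m : ℝ) / 2 * θ) := by field_simp
      rw [e2, e3, ENNReal.rpow_one, ENNReal.coe_mul]
      have h5 := cD_pow D J θ q (by linarith)
      calc C * (cD D ^ θ) ^ J * ENNReal.ofReal (δ ^ (-((m : ℝ) / 2 * θ))) * (C0 * X ^ q) ≤
          C * (cD D ^ J) ^ q * ENNReal.ofReal (δ ^ (-((m : ℝ) / 2 * θ))) * (C0 * X ^ q) := by gcongr
        _ = _ := by ring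
    by_cases hN0 : N = 0
    · apply hgoal 0 _ (by rw [hN0]; norm_num)
      have h3 := key 1 one_ne_zero ENNReal.one_ne_top (by rw [hN0]; exact zero_le)
      rw [hN0, mul_zero, mul_zero] at h3
      exact h3.trans zero_le
    · have hX0 : N ^ (1 / 2 : ℝ) ≠ 0 := (ENNReal.rpow_pos (pos_iff_ne_zero.mpr hN0) hgN).ne'
      have hXt : N ^ (1 / 2 : ℝ) ≠ ∞ := ENNReal.rpow_ne_top_of_nonneg (by norm_num) hgN
      have hX2 : (N ^ (1 / 2 : ℝ)) ^ 2 = N := by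
        rw [← ENNReal.rpow_natCast, ← ENNReal.rpow_mul]
        norm_num
      apply hgoal (N ^ (1 / 2 : ℝ)) _ hX2
      refine (key (N ^ (1 / 2 : ℝ)) hX0 hXt hX2.ge).trans (le_of_eq ?_)
      have e5 : (N ^ (1 / 2 : ℝ)) ^ (q - 2) * N = (N ^ (1 / 2 : ℝ)) ^ q := by
        nth_rewrite 2 [← hX2]
        rw [← ENNReal.rpow_natCast (N ^ (1 / 2 : ℝ)) 2, ← ENNReal.rpow_add_of_nonneg _ _
          (by linarith) (by positivity)]
        congr 1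
        push_cast
        ring
      rw [mul_assoc (C0 : ℝ≥0∞), e5]

end Pool.Agent.Y183.PQ
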